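import Pool.Agent.Blowup.Cone

/-!
Epigraph domains and the annular two-constants estimate.
-/

open Complex Set Filter Topology Metric

namespace Pool.Agent.Blowup

/-- `g` is a Lipschitz function with constant `L ≥ 0` vanishing at the origin. -/
structure LipFun (g : ℝ → ℝ) (L : ℝ) : Prop where
  hL : 0 ≤ L
  lip : ∀ s t, |g s - g t| ≤ L * |s - t|
  zero : g 0 = 0

/-- The domain to the right of the graph of `g`. -/
def Dom (g : ℝ → ℝ) : Set ℂ := {z | g z.im < z.re}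

/-- The closed domain to the right of the graph of `g`. -/
def CDom (g : ℝ → ℝ) : Set ℂ := {z | g z.im ≤ z.re}

variable {g : ℝ → ℝ} {L : ℝ}

lemma mem_Dom {z : ℂ} : z ∈ Dom g ↔ g z.im < z.re := Iff.rfl

lemma mem_CDom {z : ℂ} : z ∈ CDom g ↔ g z.im ≤ z.re := Iff.rfl

lemma Dom_subset_CDom : Dom g ⊆ CDom g := fun _ hz => le_of_lt (mem_Dom.mp hz)

lemma LipFun.continuous (hg : LipFun g L) : Continuous g := by
  have : LipschitzWith ⟨L, hg.hL⟩ g := by
    apply LipschitzWith.of_dist_le_mul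
    intro s t
    rw [Real.dist_eq, Real.dist_eq]
    exact hg.lip s t
  exact this.continuous

lemma LipFun.abs_g_le (hg : LipFun g L) (s : ℝ) : |g s| ≤ L * |s| := by
  have := hg.lip s 0
  rwa [hg.zero, sub_zero, sub_zero] at this

lemma LipFun.isOpen_Dom (hg : LipFun g L) : IsOpen (Dom g) :=
  isOpen_lt (hg.continuous.comp continuous_im) continuous_re

lemma LipFun.isClosed_CDom (hg : LipFun g L) : IsClosed (CDom g) :=
  isClosed_le (hg.continuous.comp continuous_im) continuous_re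

lemma LipFun.closure_Dom_subset (hg : LipFun g L) : closure (Dom g) ⊆ CDom g :=
  closure_minimal Dom_subset_CDom hg.isClosed_CDom

lemma LipFun.CDom_subset_closure : CDom g ⊆ closure (Dom g) := by
  intro z hz
  rw [Metric.mem_closure_iff]
  intro ε hε
  refine ⟨z + ((ε / 2 : ℝ) : ℂ), ?_, ?_⟩
  · rw [mem_Dom]
    rw [mem_CDom] at hz
    simp only [add_im, ofReal_im, add_zero, add_re, ofReal_re]
    linarith
  · rw [dist_self_add_right, norm_real, Real.norm_of_nonneg (by positivity)]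
    linarith

lemma LipFun.sub_mem_cone (hg : LipFun g L) {z z0 : ℂ} (hz : z ∈ CDom g) (hz0 : z0 ∉ Dom g) :
    z - z0 ∈ cone L := by
  rw [mem_cone, sub_im, sub_re]
  rw [mem_CDom] at hz
  rw [mem_Dom, not_lt] at hz0
  have := neg_le_of_abs_le (hg.lip z.im z0.im)
  linarith

/-- The annular two-constants estimate. -/
lemma LipFun.annulus_bound (hg : LipFun g L) {z0 : ℂ} (hz0 : z0 ∉ Dom g) {r1 r0 : ℝ}
    (h1 : 0 < r1) (h10 : r1 < r0) {h : ℂ → ℂ}
    (hd : DifferentiableOn ℂ h (Dom g ∩ {z | r1 < ‖z - z0‖ ∧ ‖z - z0‖ < r0}))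
    (hc : ContinuousOn h (CDom g ∩ {z | r1 ≤ ‖z - z0‖ ∧ ‖z - z0‖ ≤ r0}))
    {E M : ℝ} (hE : 0 < E) (hEM : E ≤ M)
    (hbE : ∀ z : ℂ, z.re = g z.im → r1 ≤ ‖z - z0‖ → ‖z - z0‖ ≤ r0 → ‖h z‖ ≤ E)
    (hbM : ∀ z ∈ CDom g, (‖z - z0‖ = r1 ∨ ‖z - z0‖ = r0) → ‖h z‖ ≤ M)
    {z : ℂ} (hz : z ∈ Dom g) (hz1 : r1 < ‖z - z0‖) (hzr : ‖z - z0‖ < r0) :
    ‖h z‖ ≤ E * Real.exp (Real.log (M / E) *
      ((Real.sqrt (‖z - z0‖ / r0) + Real.sqrt (r1 / ‖z - z0‖)) / c0 L)) := by
  have hr0 : 0 < r0 := h1.trans h10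
  have hc0 := c0_pos hg.hL
  set lam : ℝ := Real.log (M / E) with hlam
  have hlam0 : 0 ≤ lam := Real.log_nonneg (by rwa [le_div_iff₀ hE, one_mul])
  have hexplam : Real.exp lam = M / E := Real.exp_log (div_pos (hE.trans_le hEM) hE)
  -- the barrier
  set b : ℂ → ℂ := fun w => csqrt (((r0⁻¹ : ℝ) : ℂ) * (w - z0)) +
    csqrt ((r1 : ℂ) * (w - z0)⁻¹) with hb
  set U : Set ℂ := Dom g ∩ {z | r1 < ‖z - z0‖ ∧ ‖z - z0‖ < r0} with hU
  set K : Set ℂ := CDom g ∩ {z | r1 ≤ ‖z - z0‖ ∧ ‖z - z0‖ ≤ r0} with hK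
  have hnorm_cont : Continuous fun w : ℂ => ‖w - z0‖ := (continuous_id.sub continuous_const).norm
  have hUopen : IsOpen U := by
    apply hg.isOpen_Dom.inter
    exact (isOpen_lt continuous_const hnorm_cont).inter (isOpen_lt hnorm_cont continuous_const)
  have hKclosed : IsClosed K := by
    apply hg.isClosed_CDom.inter
    exact (isClosed_le continuous_const hnorm_cont).inter (isClosed_le hnorm_cont continuous_const)
  have hUK : U ⊆ K := fun w hw => ⟨Dom_subset_CDom hw.1, hw.2.1.le, hw.2.2.le⟩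
  have hclU : closure U ⊆ K := closure_minimal hUK hKclosed
  -- facts on K
  have hKne : ∀ w ∈ K, w - z0 ≠ 0 := by
    intro w hw h0
    have h2 := hw.2.1
    rw [h0, norm_zero] at h2
    linarith
  have hKcone : ∀ w ∈ K, w - z0 ∈ cone L := fun w hw => hg.sub_mem_cone hw.1 hz0
  have hKcone1 : ∀ w ∈ K, ((r0⁻¹ : ℝ) : ℂ) * (w - z0) ∈ cone L := fun w hw =>
    smul_mem_cone (hKcone w hw) (by positivity)
  have hKne1 : ∀ w ∈ K, ((r0⁻¹ : ℝ) : ℂ) * (w - z0) ≠ 0 := fun w hw =>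
    mul_ne_zero (by exact_mod_cast (inv_pos.mpr hr0).ne') (hKne w hw)
  have hKcone2 : ∀ w ∈ K, (r1 : ℂ) * (w - z0)⁻¹ ∈ cone L := fun w hw =>
    smul_mem_cone (inv_mem_cone (hKcone w hw)) h1.le
  have hKne2 : ∀ w ∈ K, (r1 : ℂ) * (w - z0)⁻¹ ≠ 0 := fun w hw =>
    mul_ne_zero (by exact_mod_cast h1.ne') (inv_ne_zero (hKne w hw))
  have hbd : ∀ w ∈ K, DifferentiableAt ℂ b w := by
    intro w hw
    apply DifferentiableAt.add
    · apply DifferentiableAt.comp (g := csqrt) (f := fun w : ℂ => ((r0⁻¹ : ℝ) : ℂ) * (w - z0)) w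
      · exact differentiableAt_csqrt (cone_subset_slitPlane (hKcone1 w hw) (hKne1 w hw))
      · exact (differentiableAt_id.sub_const z0).const_mul _
    · apply DifferentiableAt.comp (g := csqrt) (f := fun w : ℂ => (r1 : ℂ) * (w - z0)⁻¹) w
      · exact differentiableAt_csqrt (cone_subset_slitPlane (hKcone2 w hw) (hKne2 w hw))
      · exact ((differentiableAt_id.sub_const z0).inv (hKne w hw)).const_mul _
  have hnorm1 : ∀ w ∈ K, ‖((r0⁻¹ : ℝ) : ℂ) * (w - z0)‖ = ‖w - z0‖ / r0 := by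
    intro w _
    rw [norm_mul, norm_real, Real.norm_of_nonneg (by positivity), inv_mul_eq_div]
  have hnorm2 : ∀ w ∈ K, ‖(r1 : ℂ) * (w - z0)⁻¹‖ = r1 / ‖w - z0‖ := by
    intro w _
    rw [norm_mul, norm_real, Real.norm_of_nonneg h1.le, norm_inv, div_eq_mul_inv]
  have hbre : ∀ w ∈ K, 0 ≤ (b w).re := by
    intro w _
    simp only [hb, add_re]
    exact add_nonneg (re_csqrt_nonneg _) (re_csqrt_nonneg _)
  have hbre1 : ∀ w ∈ K, ‖w - z0‖ = r0 → c0 L ≤ (b w).re := by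
    intro w hw hwr
    have h2 := le_re_csqrt hg.hL (hKcone1 w hw) (hKne1 w hw)
    rw [hnorm1 w hw, hwr, div_self hr0.ne', Real.sqrt_one, mul_one] at h2
    simp only [hb, add_re]
    linarith [re_csqrt_nonneg ((r1 : ℂ) * (w - z0)⁻¹)]
  have hbre2 : ∀ w ∈ K, ‖w - z0‖ = r1 → c0 L ≤ (b w).re := by
    intro w hw hwr
    have h2 := le_re_csqrt hg.hL (hKcone2 w hw) (hKne2 w hw)
    rw [hnorm2 w hw, hwr, div_self h1.ne', Real.sqrt_one, mul_one] at h2
    simp only [hb, add_re]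
    linarith [re_csqrt_nonneg (((r0⁻¹ : ℝ) : ℂ) * (w - z0))]
  -- the auxiliary function
  set f : ℂ → ℂ := fun w => h w * exp (-(((lam / c0 L : ℝ) : ℂ) * b w)) with hf
  have hfnorm : ∀ w, ‖f w‖ = ‖h w‖ * Real.exp (-(lam / c0 L * (b w).re)) := by
    intro w
    simp only [hf]
    rw [norm_mul, norm_exp, neg_re, re_ofReal_mul]
  have hfd : DiffContOnCl ℂ f U := by
    constructor
    · apply hd.mul
      intro w hw
      exact (((hbd w (hUK hw)).const_mul _).neg.cexp).differentiableWithinAt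
    · apply ContinuousOn.mul (hc.mono hclU)
      intro w hw
      exact (((hbd w (hclU hw)).const_mul _).neg.cexp).continuousAt.continuousWithinAt
  have hUbdd : Bornology.IsBounded U := by
    apply (isBounded_ball (x := z0) (r := r0)).subset
    intro w hw
    rw [mem_ball, dist_eq_norm]
    exact hw.2.2
  have hfront : ∀ w ∈ frontier U, ‖f w‖ ≤ E := by
    intro w hw
    have hwK : w ∈ K := hclU (frontier_subset_closure hw)
    have hwU : w ∉ U := by
      rw [hUopen.frontier_eq] at hw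
      exact hw.2
    rw [hfnorm]
    by_cases hwD : w ∈ Dom g
    · -- then on one of the circles
      have hcirc : ‖w - z0‖ = r1 ∨ ‖w - z0‖ = r0 := by
        by_contra hcon
        push Not at hcon
        apply hwU
        exact ⟨hwD, lt_of_le_of_ne hwK.2.1 hcon.1.symm, lt_of_le_of_ne hwK.2.2 hcon.2⟩
      have hbr : c0 L ≤ (b w).re := by
        rcases hcirc with h3 | h3
        · exact hbre2 w hwK h3
        · exact hbre1 w hwK h3
      have h4 : lam ≤ lam / c0 L * (b w).re := by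
        rw [div_mul_eq_mul_div, le_div_iff₀ hc0]
        exact mul_le_mul_of_nonneg_left hbr hlam0
      calc ‖h w‖ * Real.exp (-(lam / c0 L * (b w).re)) ≤ M * Real.exp (-lam) := by
            apply mul_le_mul (hbM w hwK.1 hcirc) _ (Real.exp_pos _).le (hE.le.trans hEM)
            exact Real.exp_le_exp.mpr (by linarith)
        _ = E := by
            rw [Real.exp_neg, hexplam, inv_div]
            have : M ≠ 0 := (hE.trans_le hEM).ne'
            field_simp
    · -- on the graph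
      have hgr : w.re = g w.im := le_antisymm (not_lt.mp hwD) hwK.1
      have h5 := hbE w hgr hwK.2.1 hwK.2.2
      calc ‖h w‖ * Real.exp (-(lam / c0 L * (b w).re)) ≤ E * 1 := by
            apply mul_le_mul h5 _ (Real.exp_pos _).le hE.le
            rw [Real.exp_le_one_iff]
            have := mul_nonneg (div_nonneg hlam0 hc0.le) (hbre w hwK)
            linarith
        _ = E := mul_one E
  have hzU : z ∈ U := ⟨hz, hz1, hzr⟩
  have hmax := norm_le_of_forall_mem_frontier_norm_le hUbdd hfd hfront (subset_closure hzU)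
  rw [hfnorm] at hmax
  have hzK := hUK hzU
  have hbz : (b z).re ≤ Real.sqrt (‖z - z0‖ / r0) + Real.sqrt (r1 / ‖z - z0‖) := by
    calc (b z).re ≤ ‖b z‖ := re_le_norm _
      _ ≤ ‖csqrt (((r0⁻¹ : ℝ) : ℂ) * (z - z0))‖ + ‖csqrt ((r1 : ℂ) * (z - z0)⁻¹)‖ :=
          norm_add_le _ _
      _ = _ := by
          rw [norm_csqrt (hKne1 z hzK), norm_csqrt (hKne2 z hzK), hnorm1 z hzK, hnorm2 z hzK]
  have h6 : ‖h z‖ ≤ E * Real.exp (lam / c0 L * (b z).re) := by
    have := mul_le_mul_of_nonneg_right hmax (Real.exp_pos (lam / c0 L * (b z).re)).le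
    rwa [mul_assoc, ← Real.exp_add, neg_add_cancel, Real.exp_zero, mul_one] at this
  refine h6.trans ?_
  apply mul_le_mul_of_nonneg_left _ hE.le
  apply Real.exp_le_exp.mpr
  rw [div_mul_eq_mul_div, mul_div_assoc]
  apply mul_le_mul_of_nonneg_left _ hlam0
  exact div_le_div_of_nonneg_right hbz hc0.le

/-- The two-constants estimate in a disc, with an exceptional centre. -/
lemma LipFun.disc_bound (hg : LipFun g L) {z0 : ℂ} (hz0 : z0 ∉ Dom g) {r0 : ℝ} (h0 : 0 < r0)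
    {h : ℂ → ℂ}
    (hd : DifferentiableOn ℂ h (Dom g ∩ {z | 0 < ‖z - z0‖ ∧ ‖z - z0‖ < r0}))
    (hc : ContinuousOn h (CDom g ∩ {z | 0 < ‖z - z0‖ ∧ ‖z - z0‖ ≤ r0}))
    {E M : ℝ} (hE : 0 < E) (hEM : E ≤ M)
    (hbE : ∀ z : ℂ, z.re = g z.im → 0 < ‖z - z0‖ → ‖z - z0‖ ≤ r0 → ‖h z‖ ≤ E)
    (hbM : ∀ z ∈ CDom g, 0 < ‖z - z0‖ → ‖z - z0‖ ≤ r0 → ‖h z‖ ≤ M)
    {z : ℂ} (hz : z ∈ Dom g) (hzr : ‖z - z0‖ < r0) :
    ‖h z‖ ≤ E * Real.exp (Real.log (M / E) * (Real.sqrt (‖z - z0‖ / r0) / c0 L)) := by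
  have hne : 0 < ‖z - z0‖ := by
    rw [norm_pos_iff, sub_ne_zero]
    intro heq
    rw [heq] at hz
    exact hz0 hz
  have key : ∀ r1 ∈ Ioo 0 ‖z - z0‖, ‖h z‖ ≤ E * Real.exp (Real.log (M / E) *
      ((Real.sqrt (‖z - z0‖ / r0) + Real.sqrt (r1 / ‖z - z0‖)) / c0 L)) := by
    intro r1 hr1
    refine hg.annulus_bound hz0 hr1.1 (hr1.2.trans hzr) (h := h) ?_ ?_ hE hEM ?_ ?_ hz hr1.2 hzr
    · apply hd.mono
      intro w hw
      exact ⟨hw.1, hr1.1.trans hw.2.1, hw.2.2⟩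
    · apply hc.mono
      intro w hw
      exact ⟨hw.1, hr1.1.trans_le hw.2.1, hw.2.2⟩
    · intro w h2 h3 h4
      exact hbE w h2 (hr1.1.trans_le h3) h4
    · intro w h2 h3
      rcases h3 with h3 | h3
      · exact hbM w h2 (by rw [h3]; exact hr1.1) (by rw [h3]; exact (hr1.2.trans hzr).le)
      · exact hbM w h2 (by rw [h3]; exact h0) h3.le
  have hlim : Tendsto (fun r1 : ℝ => E * Real.exp (Real.log (M / E) *
      ((Real.sqrt (‖z - z0‖ / r0) + Real.sqrt (r1 / ‖z - z0‖)) / c0 L))) (𝓝[>] 0)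
      (𝓝 (E * Real.exp (Real.log (M / E) *
      ((Real.sqrt (‖z - z0‖ / r0) + Real.sqrt (0 / ‖z - z0‖)) / c0 L)))) := by
    apply Tendsto.mono_left _ nhdsWithin_le_nhds
    apply Continuous.tendsto
    fun_prop
  rw [zero_div, Real.sqrt_zero, add_zero] at hlim
  apply ge_of_tendsto hlim
  filter_upwards [Ioo_mem_nhdsGT hne] with r1 hr1
  exact key r1 hr1

end Pool.Agent.Blowup
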