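import Pool.Agent.Blowup.Slope

/-!
Uniqueness of the blow-up in complex notation.
-/

open Complex Set Filter Topology Metric
open scoped ComplexConjugate

namespace Pool.Agent.Blowup

variable {g : ℝ → ℝ} {L δ : ℝ} {ω : ℂ} {u : ℂ → ℝ}

/-- The complex gradient `u_x - i u_y`. -/
noncomputable def WW (u : ℂ → ℝ) (z : ℂ) : ℂ :=
  ((fderiv ℝ u z 1 : ℝ) : ℂ) - I * ((fderiv ℝ u z I : ℝ) : ℂ)

lemma fderiv_apply_eq (u : ℂ → ℝ) (z v : ℂ) : fderiv ℝ u z v = (WW u z * v).re := by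
  have hv : v = v.re • (1 : ℂ) + v.im • I := by
    apply Complex.ext <;> simp
  conv_lhs => rw [hv]
  rw [map_add, map_smul, map_smul]
  simp [WW, mul_re]
  ring

/-- The function `G`. -/
noncomputable def GG (ω : ℂ) (u : ℂ → ℝ) (z : ℂ) : ℂ :=
  (((ω * z).re : ℝ) : ℂ) ^ 2 - 2 * conj ω * WW u z

lemma WW_eq {ω : ℂ} (hω : ‖ω‖ = 1) (u : ℂ → ℝ) (z : ℂ) :
    WW u z = ω / 2 * ((((ω * z).re : ℝ) : ℂ) ^ 2 - GG ω u z) := by
  have h1 : ω * conj ω = 1 := by
    rw [mul_conj, normSq_eq_norm_sq, hω]; norm_num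
  unfold GG
  linear_combination (-WW u z) * h1

/-- The profile polynomial. -/
noncomputable def PP (ω c z : ℂ) : ℂ := (((ω * z).re : ℝ) : ℂ) ^ 2 - c * (ω * z) ^ 2

lemma PP_sub {ω c : ℂ} (hω : ‖ω‖ = 1) (z z' : ℂ) :
    ‖PP ω c z - PP ω c z'‖ ≤ (1 + ‖c‖) * (‖z - z'‖ * (‖z‖ + ‖z'‖)) := by
  have h1 : PP ω c z - PP ω c z' =
      (((ω * (z - z')).re : ℝ) : ℂ) * ((((ω * z).re : ℝ) : ℂ) + (((ω * z').re : ℝ) : ℂ)) -
        c * (ω ^ 2 * ((z - z') * (z + z'))) := by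
    have : (ω * (z - z')).re = (ω * z).re - (ω * z').re := by rw [mul_sub, sub_re]
    unfold PP
    rw [this]
    push_cast
    ring
  have h2 : ∀ w : ℂ, ‖(((ω * w).re : ℝ) : ℂ)‖ ≤ ‖w‖ := by
    intro w
    rw [norm_real]
    calc ‖(ω * w).re‖ ≤ ‖ω * w‖ := abs_re_le_norm _
      _ = ‖w‖ := by rw [norm_mul, hω, one_mul]
  rw [h1]
  calc _ ≤ ‖(((ω * (z - z')).re : ℝ) : ℂ) *
        ((((ω * z).re : ℝ) : ℂ) + (((ω * z').re : ℝ) : ℂ))‖ +
        ‖c * (ω ^ 2 * ((z - z') * (z + z')))‖ := norm_sub_le _ _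
    _ ≤ ‖z - z'‖ * (‖z‖ + ‖z'‖) + ‖c‖ * (‖z - z'‖ * (‖z‖ + ‖z'‖)) := by
        apply add_le_add
        · rw [norm_mul]
          apply mul_le_mul (h2 _) _ (norm_nonneg _) (norm_nonneg _)
          exact (norm_add_le _ _).trans (add_le_add (h2 _) (h2 _))
        · rw [norm_mul, norm_mul, norm_mul, norm_pow, hω, one_pow, one_mul]
          apply mul_le_mul_of_nonneg_left _ (norm_nonneg _)
          apply mul_le_mul_of_nonneg_left (norm_add_le _ _) (norm_nonneg _)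
    _ = _ := by ring

lemma PP_line {ω : ℂ} (hω : ω ≠ 0) {c : ℂ} {σ : ℝ} (hc : c = gam ω ((σ : ℂ) + I)) (y : ℝ) :
    PP ω c ((y : ℂ) * ((σ : ℂ) + I)) = 0 := by
  by_cases hy : y = 0
  · subst hy; simp [PP]
  · have hne : ω * ((y : ℂ) * ((σ : ℂ) + I)) ≠ 0 :=
      mul_ne_zero hω (mul_ne_zero (by exact_mod_cast hy) (ofReal_add_I_ne_zero σ))
    have h1 : c = gam ω ((y : ℂ) * ((σ : ℂ) + I)) := by rw [gam_smul hy, hc]
    unfold PP
    rw [h1]
    unfold gam
    rw [div_pow, div_mul_cancel₀ _ (pow_ne_zero 2 hne), sub_self]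

/-- The limiting gradient. -/
noncomputable def W0 (ω c : ℂ) (σ : ℝ) (z : ℂ) : ℂ :=
  open scoped Classical in if σ * z.im < z.re then ω / 2 * PP ω c z else 0

lemma GG_eq_QQ {ω : ℂ} (hω : ω ≠ 0) {z : ℂ} (hz : z ≠ 0) :
    GG ω u z = QQ ω (GG ω u) z * (ω * z) ^ 2 := by
  unfold QQ
  rw [div_mul_cancel₀ _ (pow_ne_zero 2 (mul_ne_zero hω hz))]

/-- Uniform convergence of the rescaled gradients. -/
theorem grad_unif (H : GData g L δ ω (GG ω u)) : ∃ (c : ℂ) (σ : ℝ), ∀ R : ℝ, 0 < R →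
    ∀ ε : ℝ, 0 < ε → ∃ r0 > 0, ∀ r : ℝ, 0 < r → r < r0 → ∀ z : ℂ, ‖z‖ ≤ R →
      ‖WW u ((r : ℂ) * z) / (r : ℂ) ^ 2 - W0 ω c σ z‖ ≤ ε := by
  have hδ := H.hδ
  have hω := H.omega_ne
  have hL := H.lip.hL
  obtain ⟨c, σ, hcσ, hconv, hsl⟩ := H.slope
  refine ⟨c, σ, ?_⟩
  intro R hR ε hε
  -- choose the small parameter
  set M : ℝ := (1 + ‖c‖) * (R * (3 + 1) * R) + R ^ 2 with hM
  have hMpos : 0 < M := by positivity
  set e : ℝ := min 1 (ε / M) with he
  have hepos : 0 < e := by positivity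
  have he1 : e ≤ 1 := min_le_left _ _
  have heM : e * M ≤ ε := by
    have : e ≤ ε / M := min_le_right _ _
    calc e * M ≤ ε / M * M := by gcongr
      _ = ε := by field_simp
  obtain ⟨rc, hrc, hconv⟩ := hconv e hepos
  obtain ⟨rs, hrs, hsl⟩ := hsl e hepos
  refine ⟨min (min (rc / (R + 1)) (rs / (R + 1))) (δ / (R + 1)), by positivity, ?_⟩
  intro r hr hrr z hz
  have hR1 : 0 < R + 1 := by linarith
  have hr1 : r * (R + 1) < rc := by
    rw [← lt_div_iff₀ hR1]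
    exact hrr.trans_le ((min_le_left _ _).trans (min_le_left _ _))
  have hr2 : r * (R + 1) < rs := by
    rw [← lt_div_iff₀ hR1]
    exact hrr.trans_le ((min_le_left _ _).trans (min_le_right _ _))
  have hr3 : r * (R + 1) < δ := by
    rw [← lt_div_iff₀ hR1]
    exact hrr.trans_le (min_le_right _ _)
  have hrC : (r : ℂ) ≠ 0 := by exact_mod_cast hr.ne'
  have hrzn : ‖(r : ℂ) * z‖ = r * ‖z‖ := by
    rw [norm_mul, norm_real, Real.norm_of_nonneg hr.le]
  have hrzn' : ‖(r : ℂ) * z‖ < r * (R + 1) := by rw [hrzn]; nlinarith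
  have hrzball : (r : ℂ) * z ∈ ball (0 : ℂ) δ := by
    rw [mem_ball_zero_iff]; linarith
  have hre : ((r : ℂ) * z).re = r * z.re := re_ofReal_mul _ _
  have him : ((r : ℂ) * z).im = r * z.im := im_ofReal_mul _ _
  have hzim : |z.im| ≤ R := (abs_im_le_norm z).trans hz
  have hn2 : ‖ω / 2‖ = 1 / 2 := by
    rw [norm_div, H.hω]; norm_num
  -- values of the rescaled gradient
  have hval_out : (r : ℂ) * z ∉ Dom g → WW u ((r : ℂ) * z) / (r : ℂ) ^ 2 = 0 := by
    intro hout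
    rw [WW_eq H.hω, H.bdry _ hrzball hout, sub_self, mul_zero, zero_div]
  have hval_in : (r : ℂ) * z ∈ Dom g → WW u ((r : ℂ) * z) / (r : ℂ) ^ 2 =
      ω / 2 * (PP ω c z + (c - QQ ω (GG ω u) ((r : ℂ) * z)) * (ω * z) ^ 2) := by
    intro hin
    have hne : (r : ℂ) * z ≠ 0 := by
      intro h0
      rw [h0] at hin
      exact H.lip.zero_notMem hin
    rw [WW_eq H.hω, GG_eq_QQ hω hne]
    have h1 : (ω * ((r : ℂ) * z)).re = r * (ω * z).re := by
      rw [show ω * ((r : ℂ) * z) = (r : ℂ) * (ω * z) by ring, re_ofReal_mul]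
    rw [h1]
    unfold PP
    rw [div_eq_iff (pow_ne_zero 2 hrC)]
    push_cast
    ring
  have hQc : (r : ℂ) * z ∈ Dom g →
      ‖(c - QQ ω (GG ω u) ((r : ℂ) * z)) * (ω * z) ^ 2‖ ≤ e * R ^ 2 := by
    intro hin
    have hne : (r : ℂ) * z ≠ 0 := by
      intro h0
      rw [h0] at hin
      exact H.lip.zero_notMem hin
    have h1 := hconv _ (Dom_subset_CDom hin) hne (by linarith)
    rw [norm_sub_rev] at h1
    rw [norm_mul, norm_pow, norm_mul, H.hω, one_mul]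
    exact mul_le_mul h1 (pow_le_pow_left₀ (norm_nonneg _) hz 2) (by positivity) hepos.le
  -- near the line the profile is small
  have hnear : |z.re - σ * z.im| ≤ e * |z.im| →
      ‖PP ω c z‖ ≤ (1 + ‖c‖) * (R * (3 + 1) * R) * e := by
    intro hn
    have hline := PP_line hω hcσ z.im
    set z' : ℂ := (z.im : ℂ) * ((σ : ℂ) + I) with hz'
    have hdiff : z - z' = ((z.re - σ * z.im : ℝ) : ℂ) := by
      apply Complex.ext
      · simp [hz']; ring
      · simp [hz']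
    have hdn : ‖z - z'‖ ≤ e * R := by
      rw [hdiff, norm_real, Real.norm_eq_abs]
      exact hn.trans (mul_le_mul_of_nonneg_left hzim hepos.le)
    have hz'n : ‖z'‖ ≤ 2 * R := by
      calc ‖z'‖ = ‖z - (z - z')‖ := by rw [sub_sub_cancel]
        _ ≤ ‖z‖ + ‖z - z'‖ := norm_sub_le _ _
        _ ≤ R + e * R := add_le_add hz hdn
        _ ≤ 2 * R := by nlinarith
    have h1 := PP_sub (c := c) H.hω z z'
    rw [hline, sub_zero] at h1
    refine h1.trans ?_
    have h2 : ‖z - z'‖ * (‖z‖ + ‖z'‖) ≤ (e * R) * (R + 2 * R) := by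
      apply mul_le_mul hdn (add_le_add hz hz'n) (by positivity) (by positivity)
    have hc1 : 0 ≤ 1 + ‖c‖ := by positivity
    calc (1 + ‖c‖) * (‖z - z'‖ * (‖z‖ + ‖z'‖)) ≤ (1 + ‖c‖) * ((e * R) * (R + 2 * R)) :=
          mul_le_mul_of_nonneg_left h2 hc1
      _ ≤ (1 + ‖c‖) * (R * (3 + 1) * R) * e := by
          have : (e * R) * (R + 2 * R) ≤ (R * (3 + 1) * R) * e := by nlinarith [sq_nonneg R]
          calc (1 + ‖c‖) * ((e * R) * (R + 2 * R)) ≤ (1 + ‖c‖) * ((R * (3 + 1) * R) * e) :=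
                mul_le_mul_of_nonneg_left this hc1
            _ = _ := by ring
  have hslz := hsl (r * z.im) (by
    rw [abs_mul, abs_of_pos hr]
    nlinarith)
  rw [abs_mul, abs_of_pos hr] at hslz
  have hPP0 : 0 ≤ (1 + ‖c‖) * (R * (3 + 1) * R) * e := by positivity
  have heR : 0 ≤ e * R ^ 2 := by positivity
  have hMe : (1 + ‖c‖) * (R * (3 + 1) * R) * e + e * R ^ 2 ≤ ε := by
    calc _ = e * M := by rw [hM]; ring
      _ ≤ ε := heM
  by_cases hin : (r : ℂ) * z ∈ Dom g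
  · rw [hval_in hin]
    rw [mem_Dom, hre, him] at hin
    by_cases hσ : σ * z.im < z.re
    · have : W0 ω c σ z = ω / 2 * PP ω c z := by unfold W0; rw [if_pos hσ]
      rw [this, ← mul_sub, add_sub_cancel_left, norm_mul, hn2]
      have := hQc (by rw [mem_Dom, hre, him]; exact hin)
      linarith
    · have : W0 ω c σ z = 0 := by unfold W0; rw [if_neg hσ]
      rw [this, sub_zero, norm_mul, hn2]
      push Not at hσ
      have h1 : |z.re - σ * z.im| ≤ e * |z.im| := by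
        rw [abs_of_nonpos (by linarith)]
        have h2 := (abs_le.mp hslz).1
        have h3 : r * (-(z.re - σ * z.im)) ≤ r * (e * |z.im|) := by nlinarith
        exact le_of_mul_le_mul_left h3 hr
      have h4 := hnear h1
      have h5 := hQc (by rw [mem_Dom, hre, him]; exact hin)
      have h6 := norm_add_le (PP ω c z) ((c - QQ ω (GG ω u) ((r : ℂ) * z)) * (ω * z) ^ 2)
      linarith
  · rw [hval_out hin]
    rw [mem_Dom, hre, him, not_lt] at hin
    by_cases hσ : σ * z.im < z.re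
    · have : W0 ω c σ z = ω / 2 * PP ω c z := by unfold W0; rw [if_pos hσ]
      rw [this, zero_sub, norm_neg, norm_mul, hn2]
      have h1 : |z.re - σ * z.im| ≤ e * |z.im| := by
        rw [abs_of_nonneg (by linarith)]
        have h2 := (abs_le.mp hslz).2
        have h3 : r * (z.re - σ * z.im) ≤ r * (e * |z.im|) := by nlinarith
        exact le_of_mul_le_mul_left h3 hr
      have h4 := hnear h1
      linarith [norm_nonneg (PP ω c z)]
    · have : W0 ω c σ z = 0 := by unfold W0; rw [if_neg hσ]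
      rw [this, sub_zero, norm_zero]
      exact hε.le

/-- Uniform Cauchy property of the cubic rescalings. -/
theorem blow_unif (H : GData g L δ ω (GG ω u)) (hu : ∀ z ∈ ball (0 : ℂ) δ, DifferentiableAt ℝ u z)
    (hu0 : u 0 = 0) {R ε : ℝ} (hR : 0 < R) (hε : 0 < ε) :
    ∃ r0 > 0, ∀ r s : ℝ, 0 < r → r < r0 → 0 < s → s < r0 → ∀ z : ℂ, ‖z‖ ≤ R →
      |u ((r : ℂ) * z) / r ^ 3 - u ((s : ℂ) * z) / s ^ 3| ≤ ε := by
  have hδ := H.hδ
  obtain ⟨c, σ, hgrad⟩ := grad_unif H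
  obtain ⟨r0, hr0, hr0'⟩ := hgrad R hR (ε / (2 * R)) (by positivity)
  refine ⟨min r0 (δ / (R + 1)), by positivity, ?_⟩
  intro r s hr hrr hs hss z hz
  have hR1 : 0 < R + 1 := by linarith
  have hball : ∀ t : ℝ, 0 < t → t < min r0 (δ / (R + 1)) → ∀ w ∈ closedBall (0 : ℂ) R,
      (t : ℂ) * w ∈ ball (0 : ℂ) δ := by
    intro t ht htr w hw
    have h1 : t * (R + 1) < δ := by
      rw [← lt_div_iff₀ hR1]
      exact htr.trans_le (min_le_right _ _)
    rw [mem_closedBall_zero_iff] at hw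
    rw [mem_ball_zero_iff, norm_mul, norm_real, Real.norm_of_nonneg ht.le]
    nlinarith
  -- derivative of the rescalings
  have hder : ∀ t : ℝ, 0 < t → t < min r0 (δ / (R + 1)) → ∀ w ∈ closedBall (0 : ℂ) R,
      HasFDerivAt (fun w : ℂ => u ((t : ℂ) * w) / t ^ 3)
        ((t ^ 2)⁻¹ • fderiv ℝ u ((t : ℂ) * w)) w := by
    intro t ht htr w hw
    have h1 := (hu _ (hball t ht htr w hw)).hasFDerivAt
    have h2 : HasFDerivAt (fun w : ℂ => (t : ℂ) * w) (t • ContinuousLinearMap.id ℝ ℂ) w := by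
      have := (hasFDerivAt_id (𝕜 := ℝ) w).const_smul t
      refine this.congr_of_eventuallyEq (Eventually.of_forall fun v => ?_)
      simp
    have h3 := (h1.comp w h2).const_mul ((t ^ 3)⁻¹)
    refine (h3.congr_of_eventuallyEq (Eventually.of_forall fun v => ?_)).congr_fderiv ?_
    · simp only [Function.comp_apply]; rw [div_eq_inv_mul]
    · ext v
      simp only [ContinuousLinearMap.coe_smul', ContinuousLinearMap.coe_comp', Pi.smul_apply,
        Function.comp_apply, ContinuousLinearMap.coe_id', id_eq, smul_eq_mul, map_smul]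
      field_simp
  have hdiff : ∀ w ∈ closedBall (0 : ℂ) R,
      HasFDerivWithinAt (fun w : ℂ => u ((r : ℂ) * w) / r ^ 3 - u ((s : ℂ) * w) / s ^ 3)
        ((r ^ 2)⁻¹ • fderiv ℝ u ((r : ℂ) * w) - (s ^ 2)⁻¹ • fderiv ℝ u ((s : ℂ) * w))
        (closedBall (0 : ℂ) R) w :=
    fun w hw => ((hder r hr hrr w hw).sub (hder s hs hss w hw)).hasFDerivWithinAt
  have hbound : ∀ w ∈ closedBall (0 : ℂ) R,
      ‖(r ^ 2)⁻¹ • fderiv ℝ u ((r : ℂ) * w) - (s ^ 2)⁻¹ • fderiv ℝ u ((s : ℂ) * w)‖ ≤ ε / R := by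
    intro w hw
    apply ContinuousLinearMap.opNorm_le_bound _ (by positivity)
    intro v
    have hwR : ‖w‖ ≤ R := by rwa [mem_closedBall_zero_iff] at hw
    have e1 := hr0' r hr (hrr.trans_le (min_le_left _ _)) w hwR
    have e2 := hr0' s hs (hss.trans_le (min_le_left _ _)) w hwR
    have e3 : ‖WW u ((r : ℂ) * w) / (r : ℂ) ^ 2 - WW u ((s : ℂ) * w) / (s : ℂ) ^ 2‖ ≤ ε / R := by
      calc _ = ‖(WW u ((r : ℂ) * w) / (r : ℂ) ^ 2 - W0 ω c σ w) -
            (WW u ((s : ℂ) * w) / (s : ℂ) ^ 2 - W0 ω c σ w)‖ := by congr 1; ring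
        _ ≤ _ := norm_sub_le _ _
        _ ≤ ε / (2 * R) + ε / (2 * R) := add_le_add e1 e2
        _ = ε / R := by field_simp; norm_num
    have e4 : ((r ^ 2)⁻¹ • fderiv ℝ u ((r : ℂ) * w) - (s ^ 2)⁻¹ • fderiv ℝ u ((s : ℂ) * w)) v =
        ((WW u ((r : ℂ) * w) / (r : ℂ) ^ 2 - WW u ((s : ℂ) * w) / (s : ℂ) ^ 2) * v).re := by
      simp only [ContinuousLinearMap.coe_sub', ContinuousLinearMap.coe_smul', Pi.sub_apply,
        Pi.smul_apply, smul_eq_mul, fderiv_apply_eq]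
      rw [sub_mul, sub_re]
      congr 1
      · rw [show WW u ((r : ℂ) * w) / (r : ℂ) ^ 2 * v =
          (((r ^ 2)⁻¹ : ℝ) : ℂ) * (WW u ((r : ℂ) * w) * v) by push_cast; field_simp,
          re_ofReal_mul]
      · rw [show WW u ((s : ℂ) * w) / (s : ℂ) ^ 2 * v =
          (((s ^ 2)⁻¹ : ℝ) : ℂ) * (WW u ((s : ℂ) * w) * v) by push_cast; field_simp,
          re_ofReal_mul]
    rw [e4]
    calc ‖((WW u ((r : ℂ) * w) / (r : ℂ) ^ 2 - WW u ((s : ℂ) * w) / (s : ℂ) ^ 2) * v).re‖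
        ≤ ‖(WW u ((r : ℂ) * w) / (r : ℂ) ^ 2 - WW u ((s : ℂ) * w) / (s : ℂ) ^ 2) * v‖ :=
          abs_re_le_norm _
      _ ≤ ε / R * ‖v‖ := by
          rw [norm_mul]
          exact mul_le_mul_of_nonneg_right e3 (norm_nonneg _)
  have hzmem : z ∈ closedBall (0 : ℂ) R := by rwa [mem_closedBall_zero_iff]
  have h0mem : (0 : ℂ) ∈ closedBall (0 : ℂ) R := mem_closedBall_self hR.le
  have key := (convex_closedBall (0 : ℂ) R).norm_image_sub_le_of_norm_hasFDerivWithin_le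
    hdiff hbound h0mem hzmem
  rw [mul_zero, mul_zero, hu0, zero_div, zero_div, sub_zero, sub_zero, sub_zero,
    Real.norm_eq_abs] at key
  calc _ ≤ ε / R * ‖z‖ := key
    _ ≤ ε / R * R := by gcongr
    _ = ε := by field_simp

end Pool.Agent.Blowup
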