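import Pool.Agent.Blowup.Equi

/-!
The cluster set of `Q` at the origin is contained in an arc of a cardioid.
-/

open Complex Set Filter Topology Metric
open scoped ComplexConjugate

namespace Pool.Agent.Blowup

variable {g : ℝ → ℝ} {L δ : ℝ} {ω : ℂ} {G : ℂ → ℂ}

/-- The boundary value of `Q` in direction `z`. -/
noncomputable def gam (ω z : ℂ) : ℂ := ((((ω * z).re : ℝ) : ℂ) / (ω * z)) ^ 2

/-- Unit vectors in the closed double cone around the imaginary axis. -/
def KS (L : ℝ) : Set ℂ := {z | ‖z‖ = 1 ∧ |z.re| ≤ L * |z.im|}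

/-- The arc of the cardioid. -/
def GamP (ω : ℂ) (L : ℝ) : Set ℂ := gam ω '' KS L

lemma gam_smul {ω z : ℂ} {t : ℝ} (ht : t ≠ 0) : gam ω ((t : ℂ) * z) = gam ω z := by
  unfold gam
  have h1 : ω * ((t : ℂ) * z) = (t : ℂ) * (ω * z) := by ring
  rw [h1, re_ofReal_mul, ofReal_mul, mul_div_mul_left _ _ (by exact_mod_cast ht)]

lemma isCompact_KS (L : ℝ) : IsCompact (KS L) := by
  apply Metric.isCompact_of_isClosed_isBounded
  · exact (isClosed_eq continuous_norm continuous_const).inter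
      (isClosed_le continuous_re.abs (continuous_const.mul continuous_im.abs))
  · apply (isBounded_closedBall (x := (0 : ℂ)) (r := 1)).subset
    intro z hz
    rw [mem_closedBall_zero_iff]
    exact hz.1.le

lemma continuousOn_gam {ω : ℂ} (hω : ω ≠ 0) : ContinuousOn (gam ω) {z | z ≠ 0} := by
  unfold gam
  apply ContinuousOn.pow
  apply ContinuousOn.div
  · exact (continuous_ofReal.comp (continuous_re.comp (continuous_const.mul continuous_id))).continuousOn
  · exact (continuous_const.mul continuous_id).continuousOn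
  · intro z hz
    exact mul_ne_zero hω hz

lemma KS_ne_zero {z : ℂ} (hz : z ∈ KS L) : z ≠ 0 := by
  intro h
  have := hz.1
  rw [h, norm_zero] at this
  exact zero_ne_one this

lemma isCompact_GamP {ω : ℂ} (hω : ω ≠ 0) (L : ℝ) : IsCompact (GamP ω L) :=
  (isCompact_KS L).image_of_continuousOn ((continuousOn_gam hω).mono fun _ hz => KS_ne_zero hz)

lemma gam_mem_GamP {ω z : ℂ} (hz : z ≠ 0) (h : |z.re| ≤ L * |z.im|) : gam ω z ∈ GamP ω L := by
  have hn : 0 < ‖z‖ := norm_pos_iff.mpr hz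
  refine ⟨((‖z‖⁻¹ : ℝ) : ℂ) * z, ⟨?_, ?_⟩, gam_smul (inv_pos.mpr hn).ne'⟩
  · rw [norm_mul, norm_real, Real.norm_of_nonneg (inv_pos.mpr hn).le, inv_mul_cancel₀ hn.ne']
  · rw [re_ofReal_mul, im_ofReal_mul, abs_mul, abs_mul]
    have := mul_le_mul_of_nonneg_left h (abs_nonneg (‖z‖⁻¹))
    linarith

lemma GamP_nonempty (hL : 0 ≤ L) (ω : ℂ) : (GamP ω L).Nonempty :=
  ⟨_, gam_mem_GamP (z := I) I_ne_zero (by simpa using hL)⟩

lemma GData.omega_ne (H : GData g L δ ω G) : ω ≠ 0 := by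
  rw [← norm_pos_iff, H.hω]; exact one_pos

lemma GData.QQ_bdry (H : GData g L δ ω G) {z : ℂ} (hz : z ∈ ball (0 : ℂ) δ) (hzD : z ∉ Dom g) :
    QQ ω G z = gam ω z := by
  unfold QQ gam
  rw [H.bdry z hz hzD, div_pow]

lemma LipFun.cone_of_bdry (hg : LipFun g L) {z : ℂ} (hz : z.re = g z.im) :
    |z.re| ≤ L * |z.im| := by
  rw [hz]; exact hg.abs_g_le _

lemma GData.QQ_bdry_mem (H : GData g L δ ω G) {z : ℂ} (hz : z ∈ ball (0 : ℂ) δ)
    (hzg : z.re = g z.im) (hz0 : z ≠ 0) : QQ ω G z ∈ GamP ω L := by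
  rw [H.QQ_bdry hz (not_mem_Dom_of_eq hzg)]
  exact gam_mem_GamP hz0 (H.lip.cone_of_bdry hzg)

lemma GData.continuousOn_QQ (H : GData g L δ ω G) :
    ContinuousOn (QQ ω G) (ball (0 : ℂ) δ \ {0}) := by
  unfold QQ
  apply ContinuousOn.div (H.cont.mono sdiff_subset)
  · exact ((continuous_const.mul continuous_id).pow 2).continuousOn
  · intro z hz
    exact pow_ne_zero 2 (mul_ne_zero H.omega_ne hz.2)

lemma GData.differentiableOn_QQ (H : GData g L δ ω G) :
    DifferentiableOn ℂ (QQ ω G) (Dom g ∩ ball (0 : ℂ) δ) := by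
  unfold QQ
  apply DifferentiableOn.div H.diff
  · exact ((differentiable_const _).mul differentiable_id).pow 2 |>.differentiableOn
  · intro z hz
    apply pow_ne_zero 2 (mul_ne_zero H.omega_ne _)
    rintro rfl
    exact H.lip.zero_notMem hz.1

/-- The cluster set of `Q` at the origin within the domain. -/
def Clu (g : ℝ → ℝ) (ω : ℂ) (G : ℂ → ℂ) : Set ℂ :=
  {c | MapClusterPt c (𝓝[Dom g] 0) (QQ ω G)}

lemma isClosed_Clu : IsClosed (Clu g ω G) := isClosed_setOfPred_clusterPt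

lemma GData.norm_QQ_le (H : GData g L δ ω G) : ∃ C : ℝ, 1 ≤ C ∧
    ∀ z ∈ CDom g, z ≠ 0 → ‖z‖ ≤ δ / 2 → ‖QQ ω G z‖ ≤ C := by
  obtain ⟨C, hC1, hC⟩ := H.growth
  refine ⟨C, hC1, fun z hz hz0 hzδ => ?_⟩
  unfold QQ
  rw [norm_div, norm_pow, norm_mul, H.hω, one_mul, div_le_iff₀ (by positivity)]
  exact hC z hz hzδ

lemma GData.Clu_bounded (H : GData g L δ ω G) : ∃ C : ℝ, ∀ c ∈ Clu g ω G, ‖c‖ ≤ C := by
  obtain ⟨C, _, hC⟩ := H.norm_QQ_le
  refine ⟨C, fun c hc => ?_⟩
  have hδ := H.hδ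
  have hev : ∀ᶠ z in 𝓝[Dom g] (0 : ℂ), QQ ω G z ∈ closedBall (0 : ℂ) C := by
    have h1 : ball (0 : ℂ) (δ / 2) ∈ 𝓝 (0 : ℂ) := ball_mem_nhds _ (by positivity)
    filter_upwards [self_mem_nhdsWithin, mem_nhdsWithin_of_mem_nhds h1] with z hz1 hz2
    rw [mem_closedBall_zero_iff]
    rw [mem_ball_zero_iff] at hz2
    apply hC z (Dom_subset_CDom hz1) _ hz2.le
    rintro rfl
    exact H.lip.zero_notMem hz1
  have h2 : c ∈ closedBall (0 : ℂ) C := by
    have h3 : ClusterPt c (𝓟 (closedBall (0 : ℂ) C)) := by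
      apply ClusterPt.mono hc
      rw [le_principal_iff, mem_map]
      exact hev
    rw [← mem_closure_iff_clusterPt, isClosed_closedBall.closure_eq] at h3
    exact h3
  rwa [mem_closedBall_zero_iff] at h2

/-- Points outside the cluster set stay far from it, relative to the arc. -/
lemma GData.star (H : GData g L δ ω G) {w c : ℂ} (hw : w ∉ Clu g ω G) (hc : c ∈ Clu g ω G) :
    infDist w (GamP ω L) ≤ ‖c - w‖ := by
  have hδ := H.hδ
  have hL := H.lip.hL
  have hc0 := c0_pos hL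
  set d : ℝ := infDist w (GamP ω L) with hd
  by_contra hcon
  push Not at hcon
  have hdpos : 0 < d := (norm_nonneg _).trans_lt hcon
  -- `Q` avoids a neighbourhood of `w`
  have h1 : ∃ ε > 0, ∃ r > 0, ∀ z ∈ Dom g, ‖z‖ < r → ε ≤ ‖QQ ω G z - w‖ := by
    unfold Clu at hw
    rw [mem_ofPred_eq, mapClusterPt_iff_frequently] at hw
    push Not at hw
    obtain ⟨s, hs, hev⟩ := hw
    obtain ⟨ε, hε, hball⟩ := Metric.mem_nhds_iff.mp hs
    rw [eventually_nhdsWithin_iff, Metric.eventually_nhds_iff] at hev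
    obtain ⟨r, hr, hev⟩ := hev
    refine ⟨ε, hε, r, hr, fun z hz hzr => ?_⟩
    by_contra hlt
    push Not at hlt
    apply hev (by rwa [dist_zero_right]) hz
    apply hball
    rwa [mem_ball, dist_eq_norm]
  obtain ⟨ε, hε, r, hr, hεr⟩ := h1
  set r0 : ℝ := min (r / 2) (δ / 2) with hr0
  have hr0pos : 0 < r0 := by positivity
  have hr0r : r0 < r := (min_le_left _ _).trans_lt (by linarith)
  have hr0δ : r0 < δ := (min_le_right _ _).trans_lt (by linarith)
  have hbd : ∀ z : ℂ, z.re = g z.im → z ≠ 0 → ‖z‖ ≤ r0 → d ≤ ‖QQ ω G z - w‖ := by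
    intro z hz hz0 hzr
    have := H.QQ_bdry_mem (by rw [mem_ball_zero_iff]; linarith) hz hz0
    calc d ≤ dist w (QQ ω G z) := infDist_le_dist_of_mem this
      _ = ‖QQ ω G z - w‖ := by rw [dist_comm, dist_eq_norm]
  set m : ℝ := min ε d with hm
  have hmpos : 0 < m := lt_min hε hdpos
  have hlow : ∀ z ∈ CDom g, z ≠ 0 → ‖z‖ ≤ r0 → m ≤ ‖QQ ω G z - w‖ := by
    intro z hz hz0 hzr
    by_cases hzD : z ∈ Dom g
    · exact (min_le_left _ _).trans (hεr z hzD (by linarith))
    · exact (min_le_right _ _).trans (hbd z (eq_of_mem_CDom_of_notMem hz hzD) hz0 hzr)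
  have hne0 : ∀ z : ℂ, 0 < ‖z - 0‖ → z ≠ 0 := by
    intro z hz
    rw [sub_zero] at hz
    exact norm_pos_iff.mp hz
  -- two-constants estimate for `1 / (Q - w)`
  have key : ∀ z ∈ Dom g, ‖z‖ < r0 → ‖(QQ ω G z - w)⁻¹‖ ≤
      d⁻¹ * Real.exp (Real.log (m⁻¹ / d⁻¹) * (Real.sqrt (‖z‖ / r0) / c0 L)) := by
    intro z hz hzr
    have := H.lip.disc_bound (z0 := 0) H.lip.zero_notMem hr0pos
      (h := fun z => (QQ ω G z - w)⁻¹) (E := d⁻¹) (M := m⁻¹) ?_ ?_ (inv_pos.mpr hdpos) ?_ ?_ ?_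
      hz (by rwa [sub_zero])
    · simpa only [sub_zero] using this
    · apply DifferentiableOn.inv
      · apply DifferentiableOn.sub_const
        apply H.differentiableOn_QQ.mono
        intro v hv
        refine ⟨hv.1, ?_⟩
        have := hv.2.2
        rw [sub_zero] at this
        rw [mem_ball_zero_iff]; linarith
      · intro v hv h0
        have h3 := hv.2.2
        rw [sub_zero] at h3
        have h4 := hlow v (Dom_subset_CDom hv.1) (hne0 v hv.2.1) h3.le
        rw [h0, norm_zero] at h4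
        linarith
    · apply ContinuousOn.inv₀
      · apply ContinuousOn.sub _ continuousOn_const
        apply H.continuousOn_QQ.mono
        intro v hv
        have h3 := hv.2.2
        rw [sub_zero] at h3
        refine ⟨?_, hne0 v hv.2.1⟩
        rw [mem_ball_zero_iff]; linarith
      · intro v hv h0
        have h3 := hv.2.2
        rw [sub_zero] at h3
        have h4 := hlow v hv.1 (hne0 v hv.2.1) h3
        rw [h0, norm_zero] at h4
        linarith
    · exact inv_anti₀ hmpos (min_le_right _ _)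
    · intro v hv hv0 hvr
      rw [sub_zero] at hvr
      rw [norm_inv]
      exact inv_anti₀ hdpos (hbd v hv (hne0 v hv0) hvr)
    · intro v hv hv0 hvr
      rw [sub_zero] at hvr
      rw [norm_inv]
      exact inv_anti₀ hmpos (hlow v hv (hne0 v hv0) hvr)
  -- let `z → 0`
  obtain ⟨d', hd'1, hd'2⟩ := exists_between hcon
  have hd'pos : 0 < d' := (norm_nonneg _).trans_lt hd'1
  have hlim : Tendsto (fun z : ℂ =>
      d⁻¹ * Real.exp (Real.log (m⁻¹ / d⁻¹) * (Real.sqrt (‖z‖ / r0) / c0 L))) (𝓝 0)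
      (𝓝 (d⁻¹ * Real.exp (Real.log (m⁻¹ / d⁻¹) * (Real.sqrt (‖(0 : ℂ)‖ / r0) / c0 L)))) := by
    apply Continuous.tendsto
    fun_prop
  rw [norm_zero, zero_div, Real.sqrt_zero, zero_div, mul_zero, Real.exp_zero, mul_one] at hlim
  have hev1 : ∀ᶠ z in 𝓝[Dom g] (0 : ℂ),
      d⁻¹ * Real.exp (Real.log (m⁻¹ / d⁻¹) * (Real.sqrt (‖z‖ / r0) / c0 L)) < d'⁻¹ :=
    (hlim.mono_left nhdsWithin_le_nhds).eventually_lt_const (inv_strictAnti₀ hd'pos hd'2)
  have hev2 : ∀ᶠ z in 𝓝[Dom g] (0 : ℂ), ‖z‖ < r0 := by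
    have : ball (0 : ℂ) r0 ∈ 𝓝 (0 : ℂ) := ball_mem_nhds _ hr0pos
    filter_upwards [mem_nhdsWithin_of_mem_nhds this] with z hz
    rwa [mem_ball_zero_iff] at hz
  have hev : ∀ᶠ z in 𝓝[Dom g] (0 : ℂ), d' < ‖QQ ω G z - w‖ := by
    filter_upwards [hev1, hev2, self_mem_nhdsWithin] with z h3 h4 h5
    have h6 := (key z h5 h4).trans_lt h3
    rw [norm_inv] at h6
    have h7 : 0 < ‖QQ ω G z - w‖ := by
      have := hlow z (Dom_subset_CDom h5) (by rintro rfl; exact H.lip.zero_notMem h5) h4.le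
      linarith
    exact (inv_lt_inv₀ h7 hd'pos).mp h6
  have hfreq : ∃ᶠ z in 𝓝[Dom g] (0 : ℂ), QQ ω G z ∈ ball c (d' - ‖c - w‖) := by
    have hc' : MapClusterPt c (𝓝[Dom g] 0) (QQ ω G) := hc
    rw [mapClusterPt_iff_frequently] at hc'
    exact hc' _ (ball_mem_nhds _ (by linarith))
  obtain ⟨z, hz1, hz2⟩ := (hfreq.and_eventually hev).exists
  rw [mem_ball, dist_eq_norm] at hz1
  have h8 : ‖QQ ω G z - w‖ ≤ ‖QQ ω G z - c‖ + ‖c - w‖ := by
    calc ‖QQ ω G z - w‖ = ‖(QQ ω G z - c) + (c - w)‖ := by congr 1; ring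
      _ ≤ _ := norm_add_le _ _
  linarith

lemma GData.interior_Clu (H : GData g L δ ω G) {c : ℂ} (hc : c ∈ Clu g ω G)
    (hcG : c ∉ GamP ω L) : Clu g ω G ∈ 𝓝 c := by
  have hcl : IsClosed (GamP ω L) := (isCompact_GamP H.omega_ne L).isClosed
  have hd : 0 < infDist c (GamP ω L) :=
    (hcl.notMem_iff_infDist_pos (GamP_nonempty H.lip.hL ω)).mp hcG
  rw [Metric.mem_nhds_iff]
  refine ⟨infDist c (GamP ω L) / 2, by positivity, ?_⟩
  intro w hw
  by_contra hwC
  have h1 := H.star hwC hc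
  rw [mem_ball, dist_eq_norm, norm_sub_rev] at hw
  have h2 : infDist c (GamP ω L) ≤ infDist w (GamP ω L) + dist c w := infDist_le_infDist_add_dist
  rw [dist_eq_norm] at h2
  linarith

/-- A path avoiding the arc cannot leave the cluster set. -/
lemma GData.path_Clu (H : GData g L δ ω G) (γ : unitInterval → ℂ) (hγ : Continuous γ)
    (hav : ∀ t, γ t ∉ GamP ω L) (h0 : γ 0 ∈ Clu g ω G) : γ 1 ∈ Clu g ω G := by
  have hclopen : IsClopen (γ ⁻¹' Clu g ω G) := by
    refine ⟨isClosed_Clu.preimage hγ, ?_⟩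
    rw [isOpen_iff_mem_nhds]
    intro t ht
    exact hγ.continuousAt.preimage_mem_nhds (H.interior_Clu ht (hav t))
  rcases isClopen_iff.mp hclopen with h | h
  · exfalso
    have : (0 : unitInterval) ∈ γ ⁻¹' Clu g ω G := h0
    rw [h] at this
    exact this
  · have : (1 : unitInterval) ∈ γ ⁻¹' Clu g ω G := by rw [h]; trivial
    exact this

/-- The defining function of the cardioid. -/
noncomputable def FF (w : ℂ) : ℝ := 2 * ‖w‖ ^ 2 - ‖w‖ - w.re

lemma FF_sq (q : ℂ) : FF (q ^ 2) = 2 * (‖q‖ ^ 2 - q.re) * (‖q‖ ^ 2 + q.re) := by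
  unfold FF
  have h1 : ‖q ^ 2‖ = ‖q‖ ^ 2 := norm_pow _ _
  have h2 : (q ^ 2).re = q.re ^ 2 - q.im ^ 2 := by rw [pow_two, mul_re]; ring
  have h3 : ‖q‖ ^ 2 = q.re ^ 2 + q.im ^ 2 := by
    rw [← Complex.normSq_eq_norm_sq, Complex.normSq_apply]; ring
  rw [h1, h2]
  nlinarith [h3]

/-- The parametrisation `p ↦ ((1 + p) / 2)²`. -/
noncomputable def par (p : ℂ) : ℂ := ((1 + p) / 2) ^ 2

lemma FF_par (p : ℂ) : FF (par p) = (‖p‖ ^ 2 - 1) / 2 * (‖(1 + p) / 2‖ ^ 2 + (1 + p.re) / 2) := by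
  unfold par
  rw [FF_sq]
  have h1 : ((1 + p) / 2).re = (1 + p.re) / 2 := by
    rw [show (2 : ℂ) = ((2 : ℝ) : ℂ) by norm_num, div_ofReal_re]; simp
  have h2 : ((1 + p) / 2).im = p.im / 2 := by
    rw [show (2 : ℂ) = ((2 : ℝ) : ℂ) by norm_num, div_ofReal_im]; simp
  have h3 : ‖(1 + p) / 2‖ ^ 2 = ((1 + p.re) / 2) ^ 2 + (p.im / 2) ^ 2 := by
    rw [← Complex.normSq_eq_norm_sq, Complex.normSq_apply, h1, h2]; ring
  have h4 : ‖p‖ ^ 2 = p.re ^ 2 + p.im ^ 2 := by
    rw [← Complex.normSq_eq_norm_sq, Complex.normSq_apply]; ring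
  rw [h1, h3, h4]
  ring

lemma FF_par_neg {p : ℂ} (hp : ‖p‖ < 1) : FF (par p) < 0 := by
  rw [FF_par]
  have h1 : ‖p‖ ^ 2 < 1 := by nlinarith [norm_nonneg p]
  have h2 : -‖p‖ ≤ p.re := by
    have := abs_re_le_norm p
    exact neg_le_of_abs_le this
  have h3 : 0 < ‖(1 + p) / 2‖ ^ 2 + (1 + p.re) / 2 := by
    have : 0 ≤ ‖(1 + p) / 2‖ ^ 2 := by positivity
    linarith
  nlinarith

lemma FF_par_of_norm_eq {p : ℂ} (hp : ‖p‖ = 1) : FF (par p) = 0 := by
  rw [FF_par, hp]; ring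

lemma gam_eq_par {ω z : ℂ} (hω : ω ≠ 0) (hz : z ≠ 0) :
    gam ω z = par (conj (ω * z) / (ω * z)) := by
  unfold gam par
  congr 1
  have hne : ω * z ≠ 0 := mul_ne_zero hω hz
  rw [re_eq_add_conj]
  field_simp

lemma norm_conj_div {w : ℂ} (hw : w ≠ 0) : ‖conj w / w‖ = 1 := by
  rw [norm_div, RCLike.norm_conj, div_self (norm_ne_zero_iff.mpr hw)]

lemma FF_of_mem_GamP {ω : ℂ} (hω : ω ≠ 0) {c : ℂ} (hc : c ∈ GamP ω L) : FF c = 0 := by
  obtain ⟨z, hz, rfl⟩ := hc
  rw [gam_eq_par hω (KS_ne_zero hz)]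
  exact FF_par_of_norm_eq (norm_conj_div (mul_ne_zero hω (KS_ne_zero hz)))

/-- The parametrisation is injective on the unit circle. -/
lemma par_inj {p q : ℂ} (hp : ‖p‖ = 1) (hq : ‖q‖ = 1) (h : par p = par q) : p = q := by
  unfold par at h
  rcases sq_eq_sq_iff_eq_or_eq_neg.mp h with h1 | h1
  · linear_combination 2 * h1
  · -- `p + q = -2`
    have h2 : p + q = -2 := by linear_combination 2 * h1
    have h3 : p.re + q.re = -2 := by
      have := congrArg Complex.re h2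
      simpa using this
    have hpr : -1 ≤ p.re := by
      have := neg_le_of_abs_le (abs_re_le_norm p); rw [hp] at this; exact this
    have hqr : -1 ≤ q.re := by
      have := neg_le_of_abs_le (abs_re_le_norm q); rw [hq] at this; exact this
    have hp1 : p.re = -1 := by linarith
    have hq1 : q.re = -1 := by linarith
    have hpi : p.im = 0 := by
      have h4 : ‖p‖ ^ 2 = p.re ^ 2 + p.im ^ 2 := by
        rw [← Complex.normSq_eq_norm_sq, Complex.normSq_apply]; ring
      rw [hp, hp1] at h4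
      nlinarith
    have hqi : q.im = 0 := by
      have h4 : ‖q‖ ^ 2 = q.re ^ 2 + q.im ^ 2 := by
        rw [← Complex.normSq_eq_norm_sq, Complex.normSq_apply]; ring
      rw [hq, hq1] at h4
      nlinarith
    exact Complex.ext (by rw [hp1, hq1]) (by rw [hpi, hqi])

/-- The value in the direction of the positive real axis is not on the arc. -/
lemma gap_notMem {ω : ℂ} (hω : ω ≠ 0) : par (conj ω / ω) ∉ GamP ω L := by
  rintro ⟨z, hz, hzeq⟩
  have hz0 := KS_ne_zero hz
  rw [gam_eq_par hω hz0] at hzeq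
  have h1 := par_inj (norm_conj_div (mul_ne_zero hω hz0)) (norm_conj_div hω) hzeq
  have hcω : conj ω ≠ 0 := by simpa using hω
  rw [map_mul] at h1
  have h2 : conj z = z := by
    have h3 : conj ω * conj z * ω = conj ω * (ω * z) := by
      rw [div_eq_div_iff (mul_ne_zero hω hz0) hω] at h1
      exact h1
    have h4 : (conj ω * ω) * conj z = (conj ω * ω) * z := by linear_combination h3
    exact mul_left_cancel₀ (mul_ne_zero hcω hω) h4
  have h5 : z.im = 0 := by
    have := congrArg Complex.im h2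
    rw [conj_im] at this
    linarith
  have h6 := hz.2
  rw [h5, abs_zero, mul_zero] at h6
  have h7 : z.re = 0 := abs_nonpos_iff.mp h6
  exact hz0 (Complex.ext h7 h5)

lemma FF_real_mul {s : ℝ} (hs : 0 ≤ s) (w : ℂ) :
    FF ((s : ℂ) * w) = s * (FF w + 2 * (s - 1) * ‖w‖ ^ 2) := by
  unfold FF
  rw [norm_mul, norm_real, Real.norm_of_nonneg hs, re_ofReal_mul]
  ring

/-- The cluster set does not meet the outside of the cardioid, nor the missing arc. -/
lemma GData.step1 (H : GData g L δ ω G) {w : ℂ} (hw : 0 ≤ FF w) (hwG : w ∉ GamP ω L) :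
    w ∉ Clu g ω G := by
  intro hwC
  obtain ⟨C, hC⟩ := H.Clu_bounded
  by_cases hw0 : w = 0
  · subst hw0
    set R : ℝ := |C| + 1 with hR
    have hRpos : 0 < R := by positivity
    have h1 := H.path_Clu (fun t => (((-(t : ℝ) * R) : ℝ) : ℂ)) (by fun_prop) ?_ (by simpa using hwC)
    · have h2 := hC _ h1
      simp only [Set.Icc.coe_one, norm_real] at h2
      rw [Real.norm_eq_abs, neg_mul, abs_neg, one_mul, abs_of_pos hRpos] at h2
      linarith [le_abs_self C]
    · intro t ht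
      by_cases ht0 : (t : ℝ) = 0
      · apply hwG
        simpa [ht0] using ht
      · have htpos : 0 < (t : ℝ) := lt_of_le_of_ne t.2.1 (Ne.symm ht0)
        have h3 := FF_of_mem_GamP H.omega_ne ht
        unfold FF at h3
        rw [norm_real, ofReal_re, Real.norm_eq_abs, neg_mul, abs_neg,
          abs_of_pos (mul_pos htpos hRpos)] at h3
        have : 0 < (t : ℝ) * R := mul_pos htpos hRpos
        nlinarith
  · have hwn : 0 < ‖w‖ := norm_pos_iff.mpr hw0
    set R : ℝ := (|C| + 1) / ‖w‖ with hR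
    have hRpos : 0 < R := by positivity
    have h1 := H.path_Clu (fun t => (((1 + (t : ℝ) * R) : ℝ) : ℂ) * w) (by fun_prop) ?_
      (by simpa using hwC)
    · have h2 := hC _ h1
      simp only [Set.Icc.coe_one, norm_mul, norm_real] at h2
      rw [Real.norm_eq_abs, one_mul, abs_of_pos (by positivity), add_mul, one_mul, hR,
        div_mul_cancel₀ _ hwn.ne'] at h2
      linarith [le_abs_self C]
    · intro t ht
      by_cases ht0 : (t : ℝ) = 0
      · apply hwG
        simpa [ht0] using ht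
      · have htpos : 0 < (t : ℝ) := lt_of_le_of_ne t.2.1 (Ne.symm ht0)
        have h3 := FF_of_mem_GamP H.omega_ne ht
        have h4 : 0 < (t : ℝ) * R := mul_pos htpos hRpos
        rw [FF_real_mul (by positivity)] at h3
        have h5 : 0 < FF w + 2 * (1 + (t : ℝ) * R - 1) * ‖w‖ ^ 2 := by
          have : 0 < 2 * (1 + (t : ℝ) * R - 1) * ‖w‖ ^ 2 := by
            have : 0 < 1 + (t : ℝ) * R - 1 := by linarith
            positivity
          linarith
        have h6 : 0 < (1 + (t : ℝ) * R) * (FF w + 2 * (1 + (t : ℝ) * R - 1) * ‖w‖ ^ 2) :=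
          mul_pos (by positivity) h5
        linarith

/-- **The cluster set of `Q` at the origin is contained in the arc.** -/
theorem GData.Clu_subset (H : GData g L δ ω G) : Clu g ω G ⊆ GamP ω L := by
  intro w hwC
  by_contra hwG
  rcases le_or_gt 0 (FF w) with h | h
  · exact H.step1 h hwG hwC
  · have hw0 : w ≠ 0 := by
      rintro rfl
      unfold FF at h
      simp at h
    set p : ℂ := 2 * csqrt w - 1 with hp
    have hq : (1 + p) / 2 = csqrt w := by rw [hp]; ring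
    have hpar : par p = w := by
      unfold par
      rw [hq, csqrt_sq hw0]
    have hpnorm : ‖p‖ < 1 := by
      rw [← hpar, FF_par] at h
      have h2 : (1 + p.re) / 2 = (csqrt w).re := by
        rw [← hq, show (2 : ℂ) = ((2 : ℝ) : ℂ) by norm_num, div_ofReal_re]; simp
      have h3 : 0 < ‖(1 + p) / 2‖ ^ 2 + (1 + p.re) / 2 := by
        rw [h2, hq]
        have h4 := re_csqrt_nonneg w
        have h5 : 0 < ‖csqrt w‖ ^ 2 := by
          have := norm_pos_iff.mpr (csqrt_ne_zero w)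
          positivity
        linarith
      have h6 : ‖p‖ ^ 2 < 1 := by
        by_contra hcon
        push Not at hcon
        have := mul_nonneg (by linarith : 0 ≤ (‖p‖ ^ 2 - 1) / 2) h3.le
        linarith
      nlinarith [norm_nonneg p]
    set e : ℂ := conj ω / ω with he
    have hen : ‖e‖ = 1 := norm_conj_div H.omega_ne
    have h1 := H.path_Clu (fun t => par ((1 - ((t : ℝ) : ℂ)) * p + ((t : ℝ) : ℂ) * e))
      (by unfold par; fun_prop) ?_ (by simpa [hpar] using hwC)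
    · simp only [Set.Icc.coe_one, ofReal_one, sub_self, zero_mul, one_mul, zero_add] at h1
      exact H.step1 (FF_par_of_norm_eq hen).ge (gap_notMem H.omega_ne) h1
    · intro t ht
      by_cases ht1 : (t : ℝ) = 1
      · simp only [ht1, ofReal_one, sub_self, zero_mul, one_mul, zero_add] at ht
        exact gap_notMem H.omega_ne ht
      · have htlt : (t : ℝ) < 1 := lt_of_le_of_ne t.2.2 ht1
        have h7 : ‖(1 - ((t : ℝ) : ℂ)) * p + ((t : ℝ) : ℂ) * e‖ < 1 := by
          have h8 : (1 - ((t : ℝ) : ℂ)) = (((1 - (t : ℝ)) : ℝ) : ℂ) := by push_cast; ring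
          calc ‖(1 - ((t : ℝ) : ℂ)) * p + ((t : ℝ) : ℂ) * e‖
              ≤ ‖(1 - ((t : ℝ) : ℂ)) * p‖ + ‖((t : ℝ) : ℂ) * e‖ := norm_add_le _ _
            _ = (1 - (t : ℝ)) * ‖p‖ + (t : ℝ) := by
                rw [h8, norm_mul, norm_mul, norm_real, norm_real, hen, mul_one,
                  Real.norm_of_nonneg (by linarith), Real.norm_of_nonneg t.2.1]
            _ < 1 := by nlinarith
        have h9 := FF_par_neg h7
        rw [FF_of_mem_GamP H.omega_ne ht] at h9
        exact lt_irrefl _ h9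

lemma continuous_FF : Continuous FF := by
  unfold FF
  fun_prop

/-- Near the origin, `Q` is close to the arc, in the sense that `FF ∘ Q` is small. -/
theorem GData.FF_small (H : GData g L δ ω G) {ε : ℝ} (hε : 0 < ε) :
    ∀ᶠ z in 𝓝[Dom g] (0 : ℂ), |FF (QQ ω G z)| < ε := by
  by_contra hcon
  rw [not_eventually] at hcon
  obtain ⟨C, _, hC⟩ := H.norm_QQ_le
  have hδ := H.hδ
  set K : Set ℂ := closedBall (0 : ℂ) C ∩ {w | ε ≤ |FF w|} with hK
  have hKc : IsCompact K := (isCompact_closedBall _ _).inter_right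
    (isClosed_le continuous_const continuous_FF.abs)
  have hev : ∀ᶠ z in 𝓝[Dom g] (0 : ℂ), QQ ω G z ∈ closedBall (0 : ℂ) C := by
    have h1 : ball (0 : ℂ) (δ / 2) ∈ 𝓝 (0 : ℂ) := ball_mem_nhds _ (by positivity)
    filter_upwards [self_mem_nhdsWithin, mem_nhdsWithin_of_mem_nhds h1] with z hz1 hz2
    rw [mem_closedBall_zero_iff]
    rw [mem_ball_zero_iff] at hz2
    apply hC z (Dom_subset_CDom hz1) _ hz2.le
    rintro rfl
    exact H.lip.zero_notMem hz1
  have hfreq : ∃ᶠ z in 𝓝[Dom g] (0 : ℂ), QQ ω G z ∈ K := by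
    refine (hcon.and_eventually hev).mono ?_
    rintro z ⟨h1, h2⟩
    exact ⟨h2, not_lt.mp h1⟩
  obtain ⟨c, hcK, hc⟩ := hKc.exists_mapClusterPt_of_frequently hfreq
  have h1 := FF_of_mem_GamP H.omega_ne (H.Clu_subset hc)
  have h2 := hcK.2
  rw [mem_ofPred_eq, h1, abs_zero] at h2
  linarith

end Pool.Agent.Blowup
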