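import Mathlib

/-!
The principal square root and its real part on a cone.
-/

open Complex Set Filter Topology Metric

namespace Pool.Agent.Blowup

/-- The principal square root. -/
noncomputable def csqrt (y : ℂ) : ℂ := exp (log y / 2)

lemma csqrt_ne_zero (y : ℂ) : csqrt y ≠ 0 := exp_ne_zero _

lemma csqrt_sq {y : ℂ} (hy : y ≠ 0) : csqrt y ^ 2 = y := by
  unfold csqrt
  rw [← exp_nat_mul]
  have : ((2 : ℕ) : ℂ) * (log y / 2) = log y := by push_cast; ring
  rw [this, exp_log hy]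

lemma norm_csqrt_sq {y : ℂ} (hy : y ≠ 0) : ‖csqrt y‖ ^ 2 = ‖y‖ := by
  rw [← norm_pow, csqrt_sq hy]

lemma norm_csqrt {y : ℂ} (hy : y ≠ 0) : ‖csqrt y‖ = Real.sqrt ‖y‖ := by
  rw [← norm_csqrt_sq hy, Real.sqrt_sq (norm_nonneg _)]

lemma im_log_half (y : ℂ) : (log y / 2).im = arg y / 2 := by
  rw [show (2 : ℂ) = ((2 : ℝ) : ℂ) by norm_num, div_ofReal_im, log_im]

lemma re_csqrt_nonneg (y : ℂ) : 0 ≤ (csqrt y).re := by
  unfold csqrt
  rw [exp_re]
  apply mul_nonneg (Real.exp_pos _).le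
  apply Real.cos_nonneg_of_neg_pi_div_two_le_of_le
  · rw [im_log_half]; linarith [neg_pi_lt_arg y]
  · rw [im_log_half]; linarith [arg_le_pi y]

lemma re_csqrt_pos {y : ℂ} (hy : y ∈ slitPlane) : 0 < (csqrt y).re := by
  unfold csqrt
  rw [exp_re]
  apply mul_pos (Real.exp_pos _)
  have h1 : arg y < Real.pi := lt_of_le_of_ne (arg_le_pi y) (mem_slitPlane_iff_arg.mp hy).1
  apply Real.cos_pos_of_mem_Ioo
  rw [im_log_half]
  constructor
  · linarith [neg_pi_lt_arg y]
  · linarith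

lemma differentiableAt_csqrt {y : ℂ} (hy : y ∈ slitPlane) : DifferentiableAt ℂ csqrt y :=
  ((differentiableAt_log hy).div_const 2).cexp

/-- A square root with positive real part is the principal one. -/
lemma csqrt_eq_of_sq {y s : ℂ} (h : s ^ 2 = y) (hs : 0 < s.re) : csqrt y = s := by
  have hs0 : s ≠ 0 := by
    intro h0
    rw [h0] at hs
    simp at hs
  have hy : y ≠ 0 := by
    rw [← h]
    exact pow_ne_zero 2 hs0
  have h1 : csqrt y ^ 2 = s ^ 2 := by rw [csqrt_sq hy, h]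
  rcases sq_eq_sq_iff_eq_or_eq_neg.mp h1 with h2 | h2
  · exact h2
  · exfalso
    have h3 := re_csqrt_nonneg y
    rw [h2] at h3
    simp at h3
    linarith

/-- The closed cone around the positive real axis with opening parameter `L`; it is the
complement of the interior of a thin cone around the negative real axis. -/
def cone (L : ℝ) : Set ℂ := {y | -(L * |y.im|) ≤ y.re}

lemma mem_cone {L : ℝ} {y : ℂ} : y ∈ cone L ↔ -(L * |y.im|) ≤ y.re := Iff.rfl

lemma cone_subset_slitPlane {L : ℝ} {y : ℂ} (hy : y ∈ cone L) (h0 : y ≠ 0) : y ∈ slitPlane := by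
  rw [mem_slitPlane_iff]
  by_cases him : y.im = 0
  · left
    rw [mem_cone, him] at hy
    simp at hy
    rcases lt_or_eq_of_le hy with h | h
    · exact h
    · exfalso
      exact h0 (Complex.ext h.symm him)
  · right
    exact him

/-- The constant in the lower bound for the real part of the square root on the cone. -/
noncomputable def c0 (L : ℝ) : ℝ := 1 / (2 * (1 + L))

lemma c0_pos {L : ℝ} (hL : 0 ≤ L) : 0 < c0 L := by unfold c0; positivity

lemma c0_le_half {L : ℝ} (hL : 0 ≤ L) : c0 L ≤ 1 / 2 := by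
  unfold c0
  rw [div_le_div_iff₀ (by positivity) (by norm_num)]
  linarith

lemma le_re_csqrt {L : ℝ} (hL : 0 ≤ L) {y : ℂ} (hy : y ∈ cone L) (h0 : y ≠ 0) :
    c0 L * Real.sqrt ‖y‖ ≤ (csqrt y).re := by
  have hc := c0_pos hL
  have hre := re_csqrt_nonneg y
  have hny : 0 < ‖y‖ := norm_pos_iff.mpr h0
  apply le_of_sq_le_sq _ hre
  rw [mul_pow, Real.sq_sqrt hny.le]
  -- (re s)^2 = (|y| + re y)/2
  have h1 : (csqrt y).re ^ 2 + (csqrt y).im ^ 2 = ‖y‖ := by
    rw [← norm_csqrt_sq h0, ← Complex.normSq_eq_norm_sq, Complex.normSq_apply]; ring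
  have h2 : (csqrt y).re ^ 2 - (csqrt y).im ^ 2 = y.re := by
    have := congrArg Complex.re (csqrt_sq h0)
    rw [pow_two, mul_re] at this
    linarith [this]
  have h3 : (csqrt y).re ^ 2 = (‖y‖ + y.re) / 2 := by linarith
  rw [h3]
  -- lower bound
  have h4 : ‖y‖ ^ 2 = y.re ^ 2 + y.im ^ 2 := by
    rw [← Complex.normSq_eq_norm_sq, Complex.normSq_apply]; ring
  have hc2 : c0 L ^ 2 = 1 / (4 * (1 + L) ^ 2) := by
    unfold c0; rw [div_pow]; ring
  rw [hc2]
  by_cases hx : 0 ≤ y.re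
  · have h5 : 1 / (4 * (1 + L) ^ 2) ≤ 1 / 2 := by
      rw [div_le_div_iff₀ (by positivity) (by norm_num)]
      nlinarith
    nlinarith
  · push Not at hx
    rw [mem_cone] at hy
    have h6 : y.re ^ 2 ≤ L ^ 2 * y.im ^ 2 := by
      have : (-y.re) ^ 2 ≤ (L * |y.im|) ^ 2 := by
        apply pow_le_pow_left₀ (by linarith)
        linarith
      rw [mul_pow, sq_abs] at this
      linarith
    have h7 : ‖y‖ ^ 2 ≤ (1 + L) ^ 2 * y.im ^ 2 := by
      rw [h4]
      nlinarith [sq_nonneg y.im, mul_nonneg hL (sq_nonneg y.im)]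
    have h8 : (‖y‖ + y.re) * (‖y‖ - y.re) = y.im ^ 2 := by ring_nf; linarith [h4]
    have h9 : -y.re ≤ ‖y‖ := by
      have := Complex.abs_re_le_norm y
      rw [abs_of_neg hx] at this
      exact this
    have h10 : 0 ≤ ‖y‖ + y.re := by linarith
    have h11 : y.im ^ 2 ≤ (‖y‖ + y.re) * (2 * ‖y‖) := by
      rw [← h8]
      apply mul_le_mul_of_nonneg_left _ h10
      linarith
    have h12 : ‖y‖ ^ 2 ≤ (1 + L) ^ 2 * ((‖y‖ + y.re) * (2 * ‖y‖)) :=
      h7.trans (mul_le_mul_of_nonneg_left h11 (by positivity))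
    have h13 : ‖y‖ ≤ (1 + L) ^ 2 * ((‖y‖ + y.re) * 2) := by
      have : ‖y‖ * ‖y‖ ≤ ((1 + L) ^ 2 * ((‖y‖ + y.re) * 2)) * ‖y‖ := by
        calc ‖y‖ * ‖y‖ = ‖y‖ ^ 2 := by ring
          _ ≤ _ := h12
          _ = _ := by ring
      exact le_of_mul_le_mul_right this hny
    rw [div_mul_eq_mul_div, one_mul, div_le_div_iff₀ (by positivity) (by norm_num)]
    nlinarith

lemma inv_mem_cone {L : ℝ} {y : ℂ} (hy : y ∈ cone L) : y⁻¹ ∈ cone L := by
  rw [mem_cone] at *
  rw [inv_re, inv_im, abs_div, abs_neg, abs_of_nonneg (normSq_nonneg y), ← mul_div_assoc,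
    ← neg_div]
  exact div_le_div_of_nonneg_right hy (normSq_nonneg y)

lemma smul_mem_cone {L : ℝ} {y : ℂ} (hy : y ∈ cone L) {t : ℝ} (ht : 0 ≤ t) :
    (t : ℂ) * y ∈ cone L := by
  rw [mem_cone] at *
  rw [re_ofReal_mul, im_ofReal_mul, abs_mul, abs_of_nonneg ht]
  nlinarith

end Pool.Agent.Blowup
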