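import Pool.Agent.Blowup.Osc

/-!
Convergence of `Q` at the origin.
-/

open Complex Set Filter Topology Metric
open scoped ComplexConjugate

namespace Pool.Agent.Blowup

variable {g : ℝ → ℝ} {L δ : ℝ} {ω : ℂ} {G : ℂ → ℂ}

/-- The chart `w ↦ i (1 - 1/√w)`; it is real on the cardioid. -/
noncomputable def mm (w : ℂ) : ℂ := I * (1 - (csqrt w)⁻¹)

lemma differentiableAt_mm {w : ℂ} (hw : w ∈ slitPlane) : DifferentiableAt ℂ mm w := by
  unfold mm
  exact ((differentiableAt_const _).sub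
    ((differentiableAt_csqrt hw).inv (csqrt_ne_zero w))).const_mul _

lemma aux_real {ζ : ℂ} (h : ζ.re ≠ 0) :
    I * (1 - ζ / ((ζ.re : ℝ) : ℂ)) = ((ζ.im / ζ.re : ℝ) : ℂ) := by
  have hrC : ((ζ.re : ℝ) : ℂ) ≠ 0 := by exact_mod_cast h
  rw [ofReal_div, eq_div_iff hrC]
  have h1 : I * (1 - ζ / ((ζ.re : ℝ) : ℂ)) * ((ζ.re : ℝ) : ℂ) = I * (((ζ.re : ℝ) : ℂ) - ζ) := by
    field_simp
  rw [h1]
  apply Complex.ext <;> simp

lemma mm_gam_im {ω z : ℂ} (h : (ω * z).re ≠ 0) : (mm (gam ω z)).im = 0 := by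
  have hne : ω * z ≠ 0 := by
    intro h0
    rw [h0] at h
    exact h rfl
  have hs : csqrt (gam ω z) = (((ω * z).re : ℝ) : ℂ) / (ω * z) := by
    apply csqrt_eq_of_sq rfl
    rw [div_re]
    simp only [ofReal_re, ofReal_im, zero_mul, zero_div, add_zero]
    rw [← pow_two]
    exact div_pos (by positivity) (normSq_pos.mpr hne)
  unfold mm
  rw [hs, inv_div, aux_real h, ofReal_im]

lemma mm_inv_lip {w w' : ℂ} {B : ℝ} (hw : w ≠ 0) (hw' : w' ≠ 0) (hwB : ‖w‖ ≤ B)
    (hwB' : ‖w'‖ ≤ B) : ‖w - w'‖ ≤ 2 * Real.sqrt B ^ 3 * ‖mm w - mm w'‖ := by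
  set s := csqrt w with hs
  set s' := csqrt w' with hs'
  have hs0 : s ≠ 0 := csqrt_ne_zero w
  have hs0' : s' ≠ 0 := csqrt_ne_zero w'
  have h1 : w - w' = (s * s') * (s + s') * (-I) * (mm w - mm w') := by
    have e1 : s ^ 2 = w := csqrt_sq hw
    have e2 : s' ^ 2 = w' := csqrt_sq hw'
    have e3 : mm w - mm w' = I * (s'⁻¹ - s⁻¹) := by
      unfold mm; rw [← hs, ← hs']; ring
    rw [e3, ← e1, ← e2]
    have : (s * s') * (s + s') * (-I) * (I * (s'⁻¹ - s⁻¹)) =
      -(I * I) * ((s + s') * ((s * s') * (s'⁻¹ - s⁻¹))) := by ring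
    rw [this, I_mul_I]
    field_simp
    ring
  have hB : 0 ≤ B := (norm_nonneg _).trans hwB
  have hns : ‖s‖ ≤ Real.sqrt B := by
    rw [hs, norm_csqrt hw]; exact Real.sqrt_le_sqrt hwB
  have hns' : ‖s'‖ ≤ Real.sqrt B := by
    rw [hs', norm_csqrt hw']; exact Real.sqrt_le_sqrt hwB'
  have hb := Real.sqrt_nonneg B
  rw [h1, norm_mul, norm_mul, norm_mul, norm_mul, norm_neg, norm_I, mul_one]
  apply mul_le_mul_of_nonneg_right _ (norm_nonneg _)
  have hsum : ‖s + s'‖ ≤ Real.sqrt B + Real.sqrt B := (norm_add_le _ _).trans (add_le_add hns hns')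
  calc ‖s‖ * ‖s'‖ * ‖s + s'‖ ≤ Real.sqrt B * Real.sqrt B * (Real.sqrt B + Real.sqrt B) := by
        gcongr
    _ = 2 * Real.sqrt B ^ 3 := by ring

lemma mm_lip {c : ℂ} {η : ℝ} (hη : closedBall c η ⊆ slitPlane) :
    ∃ K : ℝ, 0 < K ∧ ∀ w ∈ closedBall c η, ∀ w' ∈ closedBall c η,
      ‖mm w - mm w'‖ ≤ K * ‖w - w'‖ := by
  have hd : DifferentiableOn ℂ mm slitPlane := fun w hw =>
    (differentiableAt_mm hw).differentiableWithinAt
  have hdc : ContinuousOn (deriv mm) (closedBall c η) :=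
    ((hd.deriv isOpen_slitPlane).continuousOn).mono hη
  obtain ⟨K, hK⟩ := (isCompact_closedBall c η).exists_bound_of_continuousOn hdc
  refine ⟨max K 1, by positivity, ?_⟩
  intro w hw w' hw'
  have h1 := (convex_closedBall c η).norm_image_sub_le_of_norm_deriv_le
    (f := mm) (C := K) (fun v hv => differentiableAt_mm (hη hv)) hK hw' hw
  exact h1.trans (mul_le_mul_of_nonneg_right (le_max_left _ _) (norm_nonneg _))

/-- Derivative bound from a bound on the imaginary part. -/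
lemma deriv_bound_im {f : ℂ → ℂ} {z0 : ℂ} {R e : ℝ} (hR : 0 < R) (he : 0 < e)
    (hd : DifferentiableOn ℂ f (ball z0 R)) (hb : ∀ w ∈ ball z0 R, |(f w).im| ≤ e) :
    ‖deriv f z0‖ ≤ 8 * e / R := by
  set F : ℂ → ℂ := fun w => -I * (f (z0 + w) - f z0) with hF
  have hmem : ∀ w ∈ ball (0 : ℂ) R, z0 + w ∈ ball z0 R := by
    intro w hw
    rw [mem_ball_zero_iff] at hw
    rw [mem_ball, dist_eq_norm, add_sub_cancel_left]
    exact hw
  have hFd : DifferentiableOn ℂ F (ball 0 R) := by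
    apply DifferentiableOn.const_mul
    apply DifferentiableOn.sub_const
    apply hd.comp (differentiableOn_id.const_add z0)
    exact hmem
  have hFm : MapsTo F (ball 0 R) {z | z.re ≤ 2 * e} := by
    intro w hw
    have h1 : (F w).re = (f (z0 + w)).im - (f z0).im := by
      simp only [hF, neg_mul, neg_re, mul_re, I_re, I_im, sub_re, sub_im]
      ring
    rw [mem_ofPred_eq, h1]
    have h2 := (abs_le.mp (hb _ (hmem w hw))).2
    have h3 := (abs_le.mp (hb z0 (mem_ball_self hR))).1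
    linarith
  have hF0 : F 0 = 0 := by simp [hF]
  have key : ∀ w ∈ sphere z0 (R / 2), ‖f w - f z0‖ ≤ 4 * e := by
    intro w hw
    rw [mem_sphere, dist_eq_norm] at hw
    have hw' : w - z0 ∈ ball (0 : ℂ) R := by
      rw [mem_ball_zero_iff, hw]; linarith
    have h4 := borelCaratheodory_zero (by positivity : 0 < 2 * e) hFd hFm hR hw' hF0
    have h5 : ‖F (w - z0)‖ = ‖f w - f z0‖ := by
      simp only [hF]
      rw [add_sub_cancel, norm_mul, norm_neg, norm_I, one_mul]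
    rw [h5, hw] at h4
    refine h4.trans (le_of_eq ?_)
    field_simp
    ring
  have hcl : closedBall z0 (R / 2) ⊆ ball z0 R := closedBall_subset_ball (by linarith)
  have hdc : DiffContOnCl ℂ (fun w => f w - f z0) (ball z0 (R / 2)) := by
    apply DifferentiableOn.diffContOnCl
    exact (hd.sub_const _).mono (closure_ball_subset_closedBall.trans hcl)
  have h6 := norm_deriv_le_of_forall_mem_sphere_norm_le (by positivity) hdc key
  have h7 : deriv (fun w => f w - f z0) z0 = deriv f z0 := by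
    rw [deriv_sub_const]
  rw [h7] at h6
  refine h6.trans (le_of_eq ?_)
  field_simp
  ring

/-- There is a boundary point at every distance from the origin. -/
lemma LipFun.exists_bdry (hg : LipFun g L) {ρ : ℝ} (hρ : 0 < ρ) :
    ∃ z : ℂ, z.re = g z.im ∧ ‖z‖ = ρ := by
  have hcont : Continuous fun y : ℝ => ‖((g y : ℝ) : ℂ) + (y : ℂ) * I‖ := by
    have := hg.continuous
    fun_prop
  have h1 : ρ ∈ Icc ‖((g 0 : ℝ) : ℂ) + ((0 : ℝ) : ℂ) * I‖ ‖((g ρ : ℝ) : ℂ) + (ρ : ℂ) * I‖ := by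
    constructor
    · rw [hg.zero]; simpa using hρ.le
    · have h2 : ((((g ρ : ℝ) : ℂ) + (ρ : ℂ) * I)).im = ρ := by simp
      have h3 := abs_im_le_norm (((g ρ : ℝ) : ℂ) + (ρ : ℂ) * I)
      rw [h2, abs_of_pos hρ] at h3
      exact h3
  obtain ⟨y, _, hy⟩ := intermediate_value_Icc hρ.le hcont.continuousOn h1
  refine ⟨((g y : ℝ) : ℂ) + (y : ℂ) * I, by simp, hy⟩

lemma LipFun.real_mem_Dom (hg : LipFun g L) {ρ : ℝ} (hρ : 0 < ρ) : (ρ : ℂ) ∈ Dom g := by
  rw [mem_Dom, ofReal_im, ofReal_re, hg.zero]; exact hρ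

/-- Decay of the imaginary part of `mm ∘ Q` in an annulus. -/
lemma GData.annulus_im (H : GData g L δ ω G) {r1 r0 : ℝ} (hr1 : 0 < r1) (hr10 : r1 < r0)
    (hr0 : r0 < δ) {e : ℝ} (he : 0 ≤ e)
    (hslit : ∀ z ∈ CDom g, r1 ≤ ‖z‖ → ‖z‖ ≤ r0 → QQ ω G z ∈ slitPlane)
    (him : ∀ z ∈ CDom g, r1 ≤ ‖z‖ → ‖z‖ ≤ r0 → |(mm (QQ ω G z)).im| ≤ e)
    {z : ℂ} (hz : z ∈ Dom g) (hz1 : r1 < ‖z‖) (hz0 : ‖z‖ < r0) :
    |(mm (QQ ω G z)).im| ≤ e * ((Real.sqrt (‖z‖ / r0) + Real.sqrt (r1 / ‖z‖)) / c0 L) := by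
  -- the argument for both signs
  have key : ∀ σ : ℝ, |σ| = 1 → σ * (mm (QQ ω G z)).im ≤
      e * ((Real.sqrt (‖z‖ / r0) + Real.sqrt (r1 / ‖z‖)) / c0 L) := by
    intro σ hσ
    set h : ℂ → ℂ := fun w => exp (-((σ : ℂ) * I) * mm (QQ ω G w)) with hh
    have hnorm : ∀ w, ‖h w‖ = Real.exp (σ * (mm (QQ ω G w)).im) := by
      intro w
      simp only [hh]
      rw [norm_exp]
      congr 1
      simp [mul_re]
    have hne : ∀ w : ℂ, r1 ≤ ‖w - 0‖ → w ≠ 0 := by
      rintro w hw rfl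
      rw [sub_zero, norm_zero] at hw
      linarith
    have hb := H.lip.annulus_bound (z0 := 0) H.lip.zero_notMem hr1 hr10 (h := h) (E := 1)
      (M := Real.exp e) ?_ ?_ one_pos (Real.one_le_exp he) ?_ ?_ hz (by rwa [sub_zero])
      (by rwa [sub_zero])
    · rw [hnorm, one_mul, sub_zero, div_one, Real.log_exp] at hb
      exact Real.exp_le_exp.mp hb
    · intro w hw
      have hw1 := hw.2.1
      have hw2 := hw.2.2
      rw [sub_zero] at hw1 hw2
      have hQd : DifferentiableAt ℂ (QQ ω G) w := by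
        apply H.differentiableOn_QQ.differentiableAt
        apply (H.lip.isOpen_Dom.inter isOpen_ball).mem_nhds
        exact ⟨hw.1, by rw [mem_ball_zero_iff]; linarith⟩
      have hm := differentiableAt_mm (hslit w (Dom_subset_CDom hw.1) hw1.le hw2.le)
      exact ((hm.comp w hQd).const_mul _).cexp.differentiableWithinAt
    · have hQc : ContinuousOn (QQ ω G) (CDom g ∩ {z | r1 ≤ ‖z - 0‖ ∧ ‖z - 0‖ ≤ r0}) := by
        apply H.continuousOn_QQ.mono
        intro w hw
        refine ⟨?_, hne w hw.2.1⟩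
        have := hw.2.2
        rw [sub_zero] at this
        rw [mem_ball_zero_iff]
        linarith
      have hmc : ContinuousOn mm slitPlane := fun w hw =>
        (differentiableAt_mm hw).continuousAt.continuousWithinAt
      have hcomp : ContinuousOn (fun w => mm (QQ ω G w))
          (CDom g ∩ {z | r1 ≤ ‖z - 0‖ ∧ ‖z - 0‖ ≤ r0}) := by
        apply hmc.comp hQc
        intro w hw
        have hw1 := hw.2.1
        have hw2 := hw.2.2
        rw [sub_zero] at hw1 hw2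
        exact hslit w hw.1 hw1 hw2
      exact (continuousOn_const.mul hcomp).cexp
    · intro w hw hw1 hw2
      have hwne := hne w hw1
      rw [sub_zero] at hw1 hw2
      have hwC : w ∈ CDom g := by rw [mem_CDom]; exact hw.ge
      have hQ : QQ ω G w = gam ω w :=
        H.QQ_bdry (by rw [mem_ball_zero_iff]; linarith) (not_mem_Dom_of_eq hw)
      have hsl := hslit w hwC hw1 hw2
      have hre : (ω * w).re ≠ 0 := by
        intro h0
        rw [hQ] at hsl
        unfold gam at hsl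
        rw [h0] at hsl
        simp at hsl
      rw [hnorm, hQ, mm_gam_im hre, mul_zero, Real.exp_zero]
    · intro w hw hw1
      rw [sub_zero] at hw1
      rw [hnorm]
      apply Real.exp_le_exp.mpr
      have hwn : r1 ≤ ‖w‖ ∧ ‖w‖ ≤ r0 := by
        rcases hw1 with h1 | h1 <;> rw [h1] <;> constructor <;> linarith
      calc σ * (mm (QQ ω G w)).im ≤ |σ * (mm (QQ ω G w)).im| := le_abs_self _
        _ = |(mm (QQ ω G w)).im| := by rw [abs_mul, hσ, one_mul]
        _ ≤ e := him w hw hwn.1 hwn.2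
  rw [abs_le]
  constructor
  · have := key (-1) (by simp)
    linarith
  · have := key 1 (by simp)
    linarith

end Pool.Agent.Blowup
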