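import Pool.Agent.Blowup.Conv

/-!
Convergence of `Q` at the origin: the bootstrap argument.
-/

open Complex Set Filter Topology Metric
open scoped ComplexConjugate

namespace Pool.Agent.Blowup

variable {g : ℝ → ℝ} {L δ : ℝ} {ω : ℂ} {G : ℂ → ℂ}

lemma hasDerivAt_sqrt_div {r0 x : ℝ} (hr0 : 0 < r0) (hx : 0 < x) :
    HasDerivAt (fun x => 2 * Real.sqrt (x / r0)) (Real.sqrt (x / r0) / x) x := by
  have h1 : HasDerivAt (fun x : ℝ => x / r0) (1 / r0) x := (hasDerivAt_id x).div_const r0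
  have h2 := (h1.sqrt (by positivity : x / r0 ≠ 0)).const_mul 2
  refine h2.congr_deriv ?_
  have hs : Real.sqrt (x / r0) * Real.sqrt (x / r0) = x / r0 := Real.mul_self_sqrt (by positivity)
  have hspos : 0 < Real.sqrt (x / r0) := Real.sqrt_pos.mpr (by positivity)
  rw [eq_div_iff hx.ne']
  field_simp
  nlinarith [hs, mul_div_cancel₀ x hr0.ne']

lemma hasDerivAt_sqrt_inv {r1 x : ℝ} (hr1 : 0 < r1) (hx : 0 < x) :
    HasDerivAt (fun x => -(2 * Real.sqrt (r1 / x))) (Real.sqrt (r1 / x) / x) x := by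
  have h1 : HasDerivAt (fun x : ℝ => r1 / x) (-r1 / x ^ 2) x := by
    have := (hasDerivAt_inv hx.ne').const_mul r1
    refine (this.congr_deriv ?_).congr_of_eventuallyEq (Eventually.of_forall fun y => ?_)
    · field_simp
    · simp only [div_eq_mul_inv]
  have h2 := ((h1.sqrt (by positivity : r1 / x ≠ 0)).const_mul 2).neg
  refine h2.congr_deriv ?_
  have hs : Real.sqrt (r1 / x) * Real.sqrt (r1 / x) = r1 / x := Real.mul_self_sqrt (by positivity)
  have hspos : 0 < Real.sqrt (r1 / x) := Real.sqrt_pos.mpr (by positivity)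
  have hs' : Real.sqrt (r1 / x) * Real.sqrt (r1 / x) * x = r1 := by
    rw [hs]; field_simp
  rw [eq_div_iff hx.ne']
  field_simp
  nlinarith [hs']

lemma int_bound {f f' : ℝ → ℂ} {A r1 r0 a b : ℝ} (hA : 0 ≤ A) (h1 : 0 < r1) (ha : r1 ≤ a)
    (hb : b ≤ r0) (hab : a ≤ b) (hf : ∀ x ∈ Icc a b, HasDerivAt f (f' x) x)
    (hbound : ∀ x ∈ Icc a b, ‖f' x‖ ≤ A * ((Real.sqrt (x / r0) + Real.sqrt (r1 / x)) / x)) :
    ‖f b - f a‖ ≤ 4 * A := by
  have hapos : 0 < a := h1.trans_le ha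
  have hbpos : 0 < b := hapos.trans_le hab
  have hr0 : 0 < r0 := hbpos.trans_le hb
  set B : ℝ → ℝ := fun x => A * (2 * Real.sqrt (x / r0) + -(2 * Real.sqrt (r1 / x))) -
    A * (2 * Real.sqrt (a / r0) + -(2 * Real.sqrt (r1 / a))) with hB
  have hBd : ∀ x ∈ Icc a b, HasDerivAt B
      (A * ((Real.sqrt (x / r0) + Real.sqrt (r1 / x)) / x)) x := by
    intro x hx
    have hxpos : 0 < x := hapos.trans_le hx.1
    have h2 := (((hasDerivAt_sqrt_div hr0 hxpos).add (hasDerivAt_sqrt_inv h1 hxpos)).const_mul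
      A).sub_const (A * (2 * Real.sqrt (a / r0) + -(2 * Real.sqrt (r1 / a))))
    refine h2.congr_deriv ?_
    rw [add_div]
  have key := image_norm_le_of_norm_deriv_right_le_deriv_boundary' (f := fun x => f x - f a)
    (f' := f') (a := a) (b := b) (B := B)
    (B' := fun x => A * ((Real.sqrt (x / r0) + Real.sqrt (r1 / x)) / x))
    (fun x hx => ((hf x hx).continuousAt.continuousWithinAt).sub continuousWithinAt_const)
    (fun x hx => ((hf x ⟨hx.1, hx.2.le⟩).sub_const (f a)).hasDerivWithinAt)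
    (by simp [hB])
    (fun x hx => (hBd x hx).continuousAt.continuousWithinAt)
    (fun x hx => (hBd x ⟨hx.1, hx.2.le⟩).hasDerivWithinAt)
    (fun x hx => hbound x ⟨hx.1, hx.2.le⟩) (right_mem_Icc.mpr hab)
  refine key.trans ?_
  have e1 : Real.sqrt (b / r0) ≤ 1 := by
    rw [Real.sqrt_le_one]
    rwa [div_le_one hr0]
  have e2 : Real.sqrt (r1 / a) ≤ 1 := by
    rw [Real.sqrt_le_one]
    rwa [div_le_one hapos]
  have e3 := Real.sqrt_nonneg (r1 / b)
  have e4 := Real.sqrt_nonneg (a / r0)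
  simp only [hB]
  nlinarith

lemma mem_slitPlane_of_mem_GamP {ω : ℂ} (hω : ω ≠ 0) {c : ℂ} (hc : c ∈ GamP ω L)
    (hc0 : c ≠ 0) : c ∈ slitPlane := by
  rw [mem_slitPlane_iff]
  by_contra hcon
  push Not at hcon
  obtain ⟨h1, h2⟩ := hcon
  have h3 := FF_of_mem_GamP hω hc
  have h4 : ‖c‖ = -c.re := by
    have : c = ((c.re : ℝ) : ℂ) := Complex.ext (by simp) (by simp [h2])
    rw [this, norm_real, Real.norm_of_nonpos h1, ofReal_re]
  have h5 : 0 < ‖c‖ := norm_pos_iff.mpr hc0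
  unfold FF at h3
  rw [h4] at h3 h5
  nlinarith

/-- One step of the bootstrap: closeness on `[r1, r0]` implies better closeness at `r1`. -/
lemma GData.step (H : GData g L δ ω G) {c : ℂ} {η : ℝ} (hη : closedBall c η ⊆ slitPlane) :
    ∃ K : ℝ, 0 < K ∧ ∀ ε : ℝ, 0 < ε → ε ≤ η / 2 → ∃ ra > 0, ∀ r0 : ℝ, 0 < r0 → r0 < ra →
      ‖QQ ω G (r0 : ℂ) - c‖ ≤ 2 * ε → ∀ r1 : ℝ, 0 < r1 → r1 ≤ r0 →
        (∀ ρ ∈ Icc r1 r0, ‖QQ ω G (ρ : ℂ) - c‖ ≤ η / 2) → ‖QQ ω G (r1 : ℂ) - c‖ ≤ K * ε := by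
  have hL := H.lip.hL
  have hδ := H.hδ
  have hc0 := c0_pos hL
  obtain ⟨C, hC1, hC⟩ := H.norm_QQ_le
  obtain ⟨K1, hK1, hlip⟩ := mm_lip hη
  set κ : ℝ := 1 / (2 * (1 + L)) with hκ
  have hκpos : 0 < κ := by positivity
  have hκle : κ ≤ 1 / 2 := by
    rw [hκ, div_le_div_iff₀ (by positivity) (by norm_num)]; linarith
  set b3 : ℝ := 2 * Real.sqrt C ^ 3 with hb3
  have hb3pos : 0 < b3 := by
    have : 0 < Real.sqrt C := Real.sqrt_pos.mpr (by linarith)
    positivity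
  set KK : ℝ := b3 * ((128 / (c0 L * κ) + 2) * K1) + 3 with hKK
  refine ⟨KK, by positivity, ?_⟩
  intro ε hε hεη
  obtain ⟨ro, hro, hosc⟩ := H.osc hε
  obtain ⟨rr, hrr, hrad⟩ := H.radial hε
  refine ⟨min (min ro rr) (δ / 2), by positivity, ?_⟩
  intro r0 hr0 hr0a hr0c r1 hr1 hr10 hclose
  have hr0o : r0 < ro := hr0a.trans_le ((min_le_left _ _).trans (min_le_left _ _))
  have hr0r : r0 < rr := hr0a.trans_le ((min_le_left _ _).trans (min_le_right _ _))
  have hr0δ : r0 < δ / 2 := hr0a.trans_le (min_le_right _ _)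
  have hKK3 : 3 ≤ KK := by
    have : 0 ≤ b3 * ((128 / (c0 L * κ) + 2) * K1) := by positivity
    linarith
  by_cases hcase : r0 / 4 ≤ r1
  · have h1 := hrad r0 hr0 hr0r r1 hcase hr10
    have h2 : ‖QQ ω G (r1 : ℂ) - c‖ ≤ ‖QQ ω G (r1 : ℂ) - QQ ω G (r0 : ℂ)‖ +
        ‖QQ ω G (r0 : ℂ) - c‖ := by
      calc ‖QQ ω G (r1 : ℂ) - c‖ = ‖(QQ ω G (r1 : ℂ) - QQ ω G (r0 : ℂ)) +
          (QQ ω G (r0 : ℂ) - c)‖ := by congr 1; ring
        _ ≤ _ := norm_add_le _ _
    nlinarith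
  · push Not at hcase
    have hr1lt : r1 < r0 := by linarith
    -- closeness in the whole annulus
    have hball : ∀ z ∈ CDom g, r1 ≤ ‖z‖ → ‖z‖ ≤ r0 → QQ ω G z ∈ closedBall c η := by
      intro z hz hz1 hz0
      rw [mem_closedBall, dist_eq_norm]
      have hzne : z ≠ 0 := norm_pos_iff.mp (hr1.trans_le hz1)
      have h1 := hosc z hz hzne (by linarith)
      have h2 := hclose ‖z‖ ⟨hz1, hz0⟩
      calc ‖QQ ω G z - c‖ = ‖(QQ ω G z - QQ ω G ((‖z‖ : ℝ) : ℂ)) +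
          (QQ ω G ((‖z‖ : ℝ) : ℂ) - c)‖ := by congr 1; ring
        _ ≤ _ := norm_add_le _ _
        _ ≤ ε + η / 2 := add_le_add h1 h2
        _ ≤ η := by linarith
    have hslit : ∀ z ∈ CDom g, r1 ≤ ‖z‖ → ‖z‖ ≤ r0 → QQ ω G z ∈ slitPlane :=
      fun z hz hz1 hz0 => hη (hball z hz hz1 hz0)
    set e : ℝ := K1 * (2 * ε) with he
    have hepos : 0 < e := by positivity
    have him : ∀ z ∈ CDom g, r1 ≤ ‖z‖ → ‖z‖ ≤ r0 → |(mm (QQ ω G z)).im| ≤ e := by
      intro z hz hz1 hz0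
      have hzpos : 0 < ‖z‖ := hr1.trans_le hz1
      have hzne : z ≠ 0 := norm_pos_iff.mp hzpos
      obtain ⟨zb, hzb1, hzb2⟩ := H.lip.exists_bdry hzpos
      have hzbne : zb ≠ 0 := by
        rw [← norm_pos_iff, hzb2]; exact hzpos
      have hzbC : zb ∈ CDom g := by rw [mem_CDom]; exact hzb1.ge
      have hzbQ : QQ ω G zb = gam ω zb :=
        H.QQ_bdry (by rw [mem_ball_zero_iff, hzb2]; linarith) (not_mem_Dom_of_eq hzb1)
      have hzbs : QQ ω G zb ∈ slitPlane := hslit zb hzbC (by rw [hzb2]; exact hz1)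
        (by rw [hzb2]; exact hz0)
      have hre : (ω * zb).re ≠ 0 := by
        intro h0
        rw [hzbQ] at hzbs
        unfold gam at hzbs
        rw [h0] at hzbs
        simp at hzbs
      have him0 : (mm (QQ ω G zb)).im = 0 := by rw [hzbQ, mm_gam_im hre]
      have h1 := hosc z hz hzne (by linarith)
      have h2 := hosc zb hzbC hzbne (by rw [hzb2]; linarith)
      rw [hzb2] at h2
      have h3 : ‖QQ ω G z - QQ ω G zb‖ ≤ 2 * ε := by
        calc ‖QQ ω G z - QQ ω G zb‖ = ‖(QQ ω G z - QQ ω G ((‖z‖ : ℝ) : ℂ)) -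
            (QQ ω G zb - QQ ω G ((‖z‖ : ℝ) : ℂ))‖ := by congr 1; ring
          _ ≤ _ := norm_sub_le _ _
          _ ≤ ε + ε := add_le_add h1 h2
          _ = 2 * ε := by ring
      have h4 := hlip _ (hball z hz hz1 hz0) _ (hball zb hzbC (by rw [hzb2]; exact hz1)
        (by rw [hzb2]; exact hz0))
      calc |(mm (QQ ω G z)).im| = |(mm (QQ ω G z) - mm (QQ ω G zb)).im| := by
            rw [sub_im, him0, sub_zero]
        _ ≤ ‖mm (QQ ω G z) - mm (QQ ω G zb)‖ := abs_im_le_norm _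
        _ ≤ K1 * ‖QQ ω G z - QQ ω G zb‖ := h4
        _ ≤ e := mul_le_mul_of_nonneg_left h3 hK1.le
    -- the function on the central ray
    set f : ℂ → ℂ := fun z => mm (QQ ω G z) with hf
    have hfd : ∀ z ∈ Dom g, r1 ≤ ‖z‖ → ‖z‖ ≤ r0 → DifferentiableAt ℂ f z := by
      intro z hz hz1 hz0
      have hQd : DifferentiableAt ℂ (QQ ω G) z := by
        apply H.differentiableOn_QQ.differentiableAt
        apply (H.lip.isOpen_Dom.inter isOpen_ball).mem_nhds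
        exact ⟨hz, by rw [mem_ball_zero_iff]; linarith⟩
      exact (differentiableAt_mm (hslit z (Dom_subset_CDom hz) hz1 hz0)).comp z hQd
    set A : ℝ := 16 * e / (c0 L * κ) with hA
    have hApos : 0 < A := by positivity
    have hder : ∀ ρ ∈ Icc (2 * r1) (r0 / 2), HasDerivAt (fun x : ℝ => f (x : ℂ))
        (deriv f (ρ : ℂ)) ρ := by
      intro ρ hρ
      have hρpos : 0 < ρ := by linarith [hρ.1]
      have h1 := hfd (ρ : ℂ) (H.lip.real_mem_Dom hρpos)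
        (by rw [norm_real, Real.norm_of_nonneg hρpos.le]; linarith [hρ.1])
        (by rw [norm_real, Real.norm_of_nonneg hρpos.le]; linarith [hρ.2])
      exact h1.hasDerivAt.comp_ofReal
    have hbound : ∀ ρ ∈ Icc (2 * r1) (r0 / 2), ‖deriv f (ρ : ℂ)‖ ≤
        A * ((Real.sqrt (ρ / r0) + Real.sqrt (r1 / ρ)) / ρ) := by
      intro ρ hρ
      have hρpos : 0 < ρ := by linarith [hρ.1]
      have hκρ : 0 < κ * ρ := by positivity
      have hballD : ball (ρ : ℂ) (κ * ρ) ⊆ Dom g := by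
        apply H.lip.ball_subset_Dom
        rw [ofReal_re, ofReal_im, H.lip.zero, sub_zero, hκ]
        have : (1 + L) * (1 / (2 * (1 + L)) * ρ) = ρ / 2 := by field_simp
        rw [this]; linarith
      have hwn : ∀ w ∈ ball (ρ : ℂ) (κ * ρ), ρ / 2 < ‖w‖ ∧ ‖w‖ < 2 * ρ := by
        intro w hw
        rw [mem_ball, dist_eq_norm] at hw
        have hρn : ‖(ρ : ℂ)‖ = ρ := by rw [norm_real, Real.norm_of_nonneg hρpos.le]
        have h1 := norm_sub_norm_le (ρ : ℂ) ((ρ : ℂ) - w)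
        rw [sub_sub_cancel, norm_sub_rev, hρn] at h1
        have h2 : ‖w‖ ≤ ‖w - (ρ : ℂ)‖ + ‖(ρ : ℂ)‖ := by
          calc ‖w‖ = ‖(w - (ρ : ℂ)) + (ρ : ℂ)‖ := by rw [sub_add_cancel]
            _ ≤ _ := norm_add_le _ _
        rw [hρn] at h2
        constructor <;> nlinarith
      have hwn' : ∀ w ∈ ball (ρ : ℂ) (κ * ρ), r1 < ‖w‖ ∧ ‖w‖ < r0 := by
        intro w hw
        obtain ⟨h1, h2⟩ := hwn w hw
        exact ⟨by linarith [hρ.1], by linarith [hρ.2]⟩
      have hEpos : 0 < 2 * e / c0 L * (Real.sqrt (ρ / r0) + Real.sqrt (r1 / ρ)) := by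
        have : 0 < Real.sqrt (ρ / r0) := Real.sqrt_pos.mpr (by positivity)
        have : 0 ≤ Real.sqrt (r1 / ρ) := Real.sqrt_nonneg _
        positivity
      have h3 := deriv_bound_im (f := f) hκρ hEpos
        (fun w hw => (hfd w (hballD hw) (hwn' w hw).1.le (hwn' w hw).2.le).differentiableWithinAt)
        (by
          intro w hw
          obtain ⟨h4, h5⟩ := hwn' w hw
          obtain ⟨h6, h7⟩ := hwn w hw
          have h8 := H.annulus_im hr1 hr1lt (by linarith) hepos.le hslit him (hballD hw) h4 h5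
          refine h8.trans ?_
          have hwpos : 0 < ‖w‖ := by linarith
          have h9 : Real.sqrt (‖w‖ / r0) ≤ 2 * Real.sqrt (ρ / r0) := by
            rw [show (2 : ℝ) = Real.sqrt 4 by
              rw [show (4 : ℝ) = 2 ^ 2 by norm_num, Real.sqrt_sq (by norm_num)],
              ← Real.sqrt_mul (by norm_num)]
            apply Real.sqrt_le_sqrt
            rw [← mul_div_assoc]
            apply div_le_div_of_nonneg_right _ hr0.le
            linarith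
          have h10 : Real.sqrt (r1 / ‖w‖) ≤ 2 * Real.sqrt (r1 / ρ) := by
            rw [show (2 : ℝ) = Real.sqrt 4 by
              rw [show (4 : ℝ) = 2 ^ 2 by norm_num, Real.sqrt_sq (by norm_num)],
              ← Real.sqrt_mul (by norm_num)]
            apply Real.sqrt_le_sqrt
            rw [← mul_div_assoc, div_le_div_iff₀ hwpos hρpos]
            nlinarith
          calc e * ((Real.sqrt (‖w‖ / r0) + Real.sqrt (r1 / ‖w‖)) / c0 L)
              ≤ e * ((2 * Real.sqrt (ρ / r0) + 2 * Real.sqrt (r1 / ρ)) / c0 L) := by gcongr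
            _ = 2 * e / c0 L * (Real.sqrt (ρ / r0) + Real.sqrt (r1 / ρ)) := by ring)
      refine h3.trans (le_of_eq ?_)
      rw [hA]
      field_simp
      norm_num
    have hint := int_bound hApos.le hr1 (by linarith : r1 ≤ 2 * r1) (by linarith : r0 / 2 ≤ r0)
      (by linarith) hder hbound
    -- the two end pieces
    have hball' : ∀ ρ ∈ Icc r1 r0, QQ ω G (ρ : ℂ) ∈ closedBall c η := by
      intro ρ hρ
      rw [mem_closedBall, dist_eq_norm]
      exact (hclose ρ hρ).trans (by linarith)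
    have hend1 : ‖f ((2 * r1 : ℝ) : ℂ) - f (r1 : ℂ)‖ ≤ K1 * ε := by
      refine (hlip _ (hball' (2 * r1) ⟨by linarith, by linarith⟩) _
        (hball' r1 ⟨le_rfl, hr10⟩)).trans ?_
      apply mul_le_mul_of_nonneg_left _ hK1.le
      rw [norm_sub_rev]
      exact hrad (2 * r1) (by linarith) (by linarith) r1 (by linarith) (by linarith)
    have hend2 : ‖f (r0 : ℂ) - f ((r0 / 2 : ℝ) : ℂ)‖ ≤ K1 * ε := by
      refine (hlip _ (hball' r0 ⟨hr10, le_rfl⟩) _
        (hball' (r0 / 2) ⟨by linarith, by linarith⟩)).trans ?_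
      apply mul_le_mul_of_nonneg_left _ hK1.le
      rw [norm_sub_rev]
      exact hrad r0 hr0 hr0r (r0 / 2) (by linarith) (by linarith)
    have htot : ‖f (r1 : ℂ) - f (r0 : ℂ)‖ ≤ 4 * A + 2 * (K1 * ε) := by
      rw [norm_sub_rev]
      calc ‖f (r0 : ℂ) - f (r1 : ℂ)‖ = ‖(f (r0 : ℂ) - f ((r0 / 2 : ℝ) : ℂ)) +
            (f ((r0 / 2 : ℝ) : ℂ) - f ((2 * r1 : ℝ) : ℂ)) +
            (f ((2 * r1 : ℝ) : ℂ) - f (r1 : ℂ))‖ := by congr 1; ring
        _ ≤ ‖f (r0 : ℂ) - f ((r0 / 2 : ℝ) : ℂ)‖ +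
            ‖f ((r0 / 2 : ℝ) : ℂ) - f ((2 * r1 : ℝ) : ℂ)‖ +
            ‖f ((2 * r1 : ℝ) : ℂ) - f (r1 : ℂ)‖ := norm_add₃_le
        _ ≤ K1 * ε + 4 * A + K1 * ε := add_le_add (add_le_add hend2 hint) hend1
        _ = 4 * A + 2 * (K1 * ε) := by ring
    have hQ0 : ∀ ρ ∈ Icc r1 r0, QQ ω G (ρ : ℂ) ≠ 0 := by
      intro ρ hρ
      exact slitPlane_ne_zero (hη (hball' ρ hρ))
    have hQC : ∀ ρ ∈ Icc r1 r0, ‖QQ ω G (ρ : ℂ)‖ ≤ C := by
      intro ρ hρ
      have hρpos : 0 < ρ := hr1.trans_le hρ.1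
      apply hC _ (Dom_subset_CDom (H.lip.real_mem_Dom hρpos))
      · exact_mod_cast hρpos.ne'
      · rw [norm_real, Real.norm_of_nonneg hρpos.le]; linarith [hρ.2]
    have hfin := mm_inv_lip (hQ0 r1 ⟨le_rfl, hr10⟩) (hQ0 r0 ⟨hr10, le_rfl⟩)
      (hQC r1 ⟨le_rfl, hr10⟩) (hQC r0 ⟨hr10, le_rfl⟩)
    have h2 : ‖QQ ω G (r1 : ℂ) - c‖ ≤ ‖QQ ω G (r1 : ℂ) - QQ ω G (r0 : ℂ)‖ +
        ‖QQ ω G (r0 : ℂ) - c‖ := by
      calc ‖QQ ω G (r1 : ℂ) - c‖ = ‖(QQ ω G (r1 : ℂ) - QQ ω G (r0 : ℂ)) +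
          (QQ ω G (r0 : ℂ) - c)‖ := by congr 1; ring
        _ ≤ _ := norm_add_le _ _
    have h4 : 4 * A + 2 * (K1 * ε) = ((128 / (c0 L * κ) + 2) * K1) * ε := by
      rw [hA, he]; field_simp; ring
    calc ‖QQ ω G (r1 : ℂ) - c‖ ≤ b3 * (4 * A + 2 * (K1 * ε)) + 2 * ε := by
          refine h2.trans (add_le_add (hfin.trans ?_) hr0c)
          exact mul_le_mul_of_nonneg_left htot hb3pos.le
      _ = (b3 * ((128 / (c0 L * κ) + 2) * K1) + 2) * ε := by rw [h4]; ring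
      _ ≤ KK * ε := by
          apply mul_le_mul_of_nonneg_right _ hε.le
          linarith

end Pool.Agent.Blowup
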