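import Pool.Agent.Blowup.Conv2

/-!
Convergence of `Q` at the origin: conclusion.
-/

open Complex Set Filter Topology Metric
open scoped ComplexConjugate

namespace Pool.Agent.Blowup

variable {g : ℝ → ℝ} {L δ : ℝ} {ω : ℂ} {G : ℂ → ℂ}

/-- If a nonzero value is a cluster value, then `Q` converges to it along the central ray. -/
lemma GData.boot (H : GData g L δ ω G) {c : ℂ} (hc : c ∈ Clu g ω G) (hc0 : c ≠ 0)
    {εt : ℝ} (hεt : 0 < εt) :
    ∃ r0 > 0, ∀ r : ℝ, 0 < r → r ≤ r0 → ‖QQ ω G (r : ℂ) - c‖ ≤ εt := by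
  have hδ := H.hδ
  have hcG := H.Clu_subset hc
  have hslit := mem_slitPlane_of_mem_GamP H.omega_ne hcG hc0
  obtain ⟨η, hη0, hη⟩ := Metric.nhds_basis_closedBall.mem_iff.mp (isOpen_slitPlane.mem_nhds hslit)
  obtain ⟨K, hK, hstep⟩ := H.step hη
  set ε : ℝ := min (η / 8) (min (η / (4 * K)) (εt / K)) with hε
  have hεpos : 0 < ε := by positivity
  have hε1 : ε ≤ η / 8 := min_le_left _ _
  have hε2 : K * ε ≤ η / 4 := by
    have h1 : ε ≤ η / (4 * K) := (min_le_right _ _).trans (min_le_left _ _)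
    calc K * ε ≤ K * (η / (4 * K)) := by gcongr
      _ = η / 4 := by field_simp
  have hε3 : K * ε ≤ εt := by
    have h1 : ε ≤ εt / K := (min_le_right _ _).trans (min_le_right _ _)
    calc K * ε ≤ K * (εt / K) := by gcongr
      _ = εt := by field_simp
  obtain ⟨ra, hra, hstep⟩ := hstep ε hεpos (by linarith)
  obtain ⟨ro, hro, hosc⟩ := H.osc hεpos
  -- a good starting radius
  obtain ⟨r0, hr0, hr0a, hr0δ, hr0c⟩ : ∃ r0 : ℝ, 0 < r0 ∧ r0 < ra ∧ r0 < δ ∧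
      ‖QQ ω G (r0 : ℂ) - c‖ ≤ 2 * ε := by
    have hc' : MapClusterPt c (𝓝[Dom g] 0) (QQ ω G) := hc
    rw [mapClusterPt_iff_frequently] at hc'
    have h1 := hc' _ (ball_mem_nhds c hεpos)
    have h2 : ∀ᶠ z in 𝓝[Dom g] (0 : ℂ), ‖z‖ < min (min ra ro) δ := by
      have : ball (0 : ℂ) (min (min ra ro) δ) ∈ 𝓝 (0 : ℂ) := ball_mem_nhds _ (by positivity)
      filter_upwards [mem_nhdsWithin_of_mem_nhds this] with z hz
      rwa [mem_ball_zero_iff] at hz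
    obtain ⟨z, ⟨hz1, hz2⟩, hz3⟩ := ((h1.and_eventually h2).and_eventually
      (self_mem_nhdsWithin (s := Dom g) (a := (0 : ℂ)))).exists
    have hzne : z ≠ 0 := by rintro rfl; exact H.lip.zero_notMem hz3
    rw [mem_ball, dist_eq_norm] at hz1
    have hz4 : ‖z‖ < ra := hz2.trans_le ((min_le_left _ _).trans (min_le_left _ _))
    have hz5 : ‖z‖ < ro := hz2.trans_le ((min_le_left _ _).trans (min_le_right _ _))
    have hz6 : ‖z‖ < δ := hz2.trans_le (min_le_right _ _)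
    refine ⟨‖z‖, norm_pos_iff.mpr hzne, hz4, hz6, ?_⟩
    have h3 := hosc z (Dom_subset_CDom hz3) hzne hz5
    rw [norm_sub_rev] at h3
    calc ‖QQ ω G ((‖z‖ : ℝ) : ℂ) - c‖ = ‖(QQ ω G ((‖z‖ : ℝ) : ℂ) - QQ ω G z) +
        (QQ ω G z - c)‖ := by congr 1; ring
      _ ≤ _ := norm_add_le _ _
      _ ≤ 2 * ε := by linarith
  refine ⟨r0, hr0, ?_⟩
  -- continuity on the ray
  have hcont : ∀ ρ : ℝ, 0 < ρ → ρ ≤ r0 → ContinuousAt (fun ρ : ℝ => ‖QQ ω G (ρ : ℂ) - c‖) ρ := by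
    intro ρ hρ hρ0
    have h1 : ContinuousAt (QQ ω G) (ρ : ℂ) := by
      apply H.continuousOn_QQ.continuousAt
      apply (isOpen_ball.sdiff isClosed_singleton).mem_nhds
      refine ⟨?_, ?_⟩
      · rw [mem_ball_zero_iff, norm_real, Real.norm_of_nonneg hρ.le]; linarith
      · simpa using hρ.ne'
    exact ((h1.comp (f := fun ρ : ℝ => (ρ : ℂ)) continuous_ofReal.continuousAt).sub
      continuousAt_const).norm
  intro r1 hr1 hr10
  by_contra hcon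
  push Not at hcon
  have hKε : ‖QQ ω G (r1 : ℂ) - c‖ > K * ε := lt_of_le_of_lt hε3 hcon
  have hex : ∃ ρ ∈ Icc r1 r0, η / 2 < ‖QQ ω G (ρ : ℂ) - c‖ := by
    by_contra hno
    push Not at hno
    have := hstep r0 hr0 hr0a hr0c r1 hr1 hr10 hno
    linarith
  obtain ⟨ρ2, hρ2, hρ2'⟩ := hex
  set S : Set ℝ := Icc r1 r0 ∩ {ρ | η / 2 ≤ ‖QQ ω G (ρ : ℂ) - c‖} with hS
  have hcontOn : ContinuousOn (fun ρ : ℝ => ‖QQ ω G (ρ : ℂ) - c‖) (Icc r1 r0) := fun ρ hρ =>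
    (hcont ρ (hr1.trans_le hρ.1) hρ.2).continuousWithinAt
  have hSc : IsCompact S := by
    apply isCompact_Icc.of_isClosed_subset _ inter_subset_left
    have := hcontOn.preimage_isClosed_of_isClosed isClosed_Icc (isClosed_Ici (a := η / 2))
    exact this
  obtain ⟨ρ3, hρ3⟩ := hSc.exists_isGreatest ⟨ρ2, hρ2, hρ2'.le⟩
  have hρ3S := hρ3.1
  have hρ3max : ∀ ρ ∈ Icc r1 r0, ρ3 < ρ → ‖QQ ω G (ρ : ℂ) - c‖ < η / 2 := by
    intro ρ hρ hlt
    by_contra hge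
    push Not at hge
    have := hρ3.2 ⟨hρ, hge⟩
    linarith
  have hρ3lt : ρ3 < r0 := by
    rcases lt_or_eq_of_le hρ3S.1.2 with h | h
    · exact h
    · exfalso
      have h5 := hρ3S.2
      rw [mem_ofPred_eq, h] at h5
      linarith
  have hρ3pos : 0 < ρ3 := hr1.trans_le hρ3S.1.1
  have hρ3le : ‖QQ ω G (ρ3 : ℂ) - c‖ ≤ η / 2 := by
    have h6 : Tendsto (fun ρ : ℝ => ‖QQ ω G (ρ : ℂ) - c‖) (𝓝[>] ρ3)
        (𝓝 ‖QQ ω G (ρ3 : ℂ) - c‖) :=
      (hcont ρ3 hρ3pos hρ3lt.le).tendsto.mono_left nhdsWithin_le_nhds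
    apply le_of_tendsto h6
    filter_upwards [Ioo_mem_nhdsGT hρ3lt] with ρ hρ
    exact (hρ3max ρ ⟨hρ3S.1.1.trans hρ.1.le, hρ.2.le⟩ hρ.1).le
  have hfin := hstep r0 hr0 hr0a hr0c ρ3 hρ3pos hρ3lt.le (by
    intro ρ hρ
    rcases eq_or_lt_of_le hρ.1 with h | h
    · rw [← h]; exact hρ3le
    · exact (hρ3max ρ ⟨hρ3S.1.1.trans hρ.1, hρ.2⟩ h).le)
  have h7 := hρ3S.2
  rw [mem_ofPred_eq] at h7
  linarith

/-- **Convergence of `Q` at the origin.** -/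
theorem GData.conv (H : GData g L δ ω G) : ∃ c ∈ GamP ω L, ∀ ε : ℝ, 0 < ε →
    ∃ r > 0, ∀ z ∈ CDom g, z ≠ 0 → ‖z‖ < r → ‖QQ ω G z - c‖ ≤ ε := by
  have hδ := H.hδ
  -- convergence on the ray suffices
  have hred : ∀ c : ℂ, (∀ ε : ℝ, 0 < ε → ∃ r0 > 0, ∀ r : ℝ, 0 < r → r ≤ r0 →
      ‖QQ ω G (r : ℂ) - c‖ ≤ ε) → ∀ ε : ℝ, 0 < ε →
      ∃ r > 0, ∀ z ∈ CDom g, z ≠ 0 → ‖z‖ < r → ‖QQ ω G z - c‖ ≤ ε := by
    intro c hc ε hε
    obtain ⟨r0, hr0, h0⟩ := hc (ε / 2) (by positivity)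
    obtain ⟨ro, hro, hosc⟩ := H.osc (by positivity : 0 < ε / 2)
    refine ⟨min r0 ro, by positivity, ?_⟩
    intro z hz hzne hzr
    have h1 := hosc z hz hzne (hzr.trans_le (min_le_right _ _))
    have h2 := h0 ‖z‖ (norm_pos_iff.mpr hzne) (hzr.trans_le (min_le_left _ _)).le
    calc ‖QQ ω G z - c‖ = ‖(QQ ω G z - QQ ω G ((‖z‖ : ℝ) : ℂ)) +
        (QQ ω G ((‖z‖ : ℝ) : ℂ) - c)‖ := by congr 1; ring
      _ ≤ _ := norm_add_le _ _
      _ ≤ ε := by linarith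
  by_cases hex : ∃ c ∈ Clu g ω G, c ≠ 0
  · obtain ⟨c, hc, hc0⟩ := hex
    exact ⟨c, H.Clu_subset hc, hred c fun ε hε => H.boot hc hc0 hε⟩
  · push Not at hex
    -- the only cluster value is zero
    obtain ⟨C, _, hC⟩ := H.norm_QQ_le
    have hev : ∀ᶠ z in 𝓝[Dom g] (0 : ℂ), QQ ω G z ∈ closedBall (0 : ℂ) C := by
      have h1 : ball (0 : ℂ) (δ / 2) ∈ 𝓝 (0 : ℂ) := ball_mem_nhds _ (by positivity)
      filter_upwards [self_mem_nhdsWithin, mem_nhdsWithin_of_mem_nhds h1] with z hz1 hz2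
      rw [mem_closedBall_zero_iff]
      rw [mem_ball_zero_iff] at hz2
      apply hC z (Dom_subset_CDom hz1) _ hz2.le
      rintro rfl
      exact H.lip.zero_notMem hz1
    have hlim : Tendsto (QQ ω G) (𝓝[Dom g] 0) (𝓝 0) :=
      (isCompact_closedBall (0 : ℂ) C).tendsto_nhds_of_unique_mapClusterPt hev
        (fun y _ hy => hex y hy)
    have hne : (𝓝[Dom g] (0 : ℂ)).NeBot := by
      rw [← mem_closure_iff_nhdsWithin_neBot]
      apply LipFun.CDom_subset_closure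
      rw [mem_CDom]
      simp [H.lip.zero]
    have h0C : (0 : ℂ) ∈ Clu g ω G := hlim.mapClusterPt
    refine ⟨0, H.Clu_subset h0C, hred 0 ?_⟩
    intro ε hε
    rw [Metric.tendsto_nhdsWithin_nhds] at hlim
    obtain ⟨r, hr, hr'⟩ := hlim ε hε
    refine ⟨r / 2, by positivity, ?_⟩
    intro ρ hρ hρr
    have := hr' (H.lip.real_mem_Dom hρ) (by
      rw [dist_zero_right, norm_real, Real.norm_of_nonneg hρ.le]; linarith)
    rw [dist_eq_norm] at this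
    exact this.le

end Pool.Agent.Blowup
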