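import Pool.Agent.Blowup.Growth

/-!
Scale invariant Hoelder continuity at the boundary.
-/

open Complex Set Filter Topology Metric

namespace Pool.Agent.Blowup

/-- The normalised function `G z / (ω z)²`. -/
noncomputable def QQ (ω : ℂ) (G : ℂ → ℂ) (z : ℂ) : ℂ := G z / (ω * z) ^ 2

variable {g : ℝ → ℝ} {L δ : ℝ} {ω : ℂ} {G : ℂ → ℂ}

lemma GData.bdry_sub (H : GData g L δ ω G) {z z0 : ℂ} (hz : z ∈ ball (0 : ℂ) δ)
    (hzD : z ∉ Dom g) (hz0 : z0 ∈ ball (0 : ℂ) δ) (hz0D : z0 ∉ Dom g) :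
    ‖G z - G z0‖ ≤ ‖z - z0‖ * (‖z‖ + ‖z0‖) := by
  rw [H.bdry z hz hzD, H.bdry z0 hz0 hz0D, ← ofReal_pow, ← ofReal_pow, ← ofReal_sub, norm_real]
  have h1 : (ω * z).re ^ 2 - (ω * z0).re ^ 2 =
      (ω * (z - z0)).re * ((ω * z).re + (ω * z0).re) := by
    have : (ω * (z - z0)).re = (ω * z).re - (ω * z0).re := by rw [mul_sub, sub_re]
    rw [this]; ring
  rw [h1, norm_mul]
  have h2 : ∀ w : ℂ, ‖(ω * w).re‖ ≤ ‖w‖ := by
    intro w
    calc ‖(ω * w).re‖ ≤ ‖ω * w‖ := abs_re_le_norm _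
      _ = ‖w‖ := by rw [norm_mul, H.hω, one_mul]
  apply mul_le_mul (h2 _) _ (norm_nonneg _) (norm_nonneg _)
  exact (norm_add_le _ _).trans (add_le_add (h2 _) (h2 _))

lemma GData.equi_G (H : GData g L δ ω G) : ∃ K : ℝ, 3 ≤ K ∧ ∀ z0 : ℂ, z0.re = g z0.im → z0 ≠ 0 →
    ‖z0‖ ≤ δ / 8 → ∀ z ∈ CDom g, ‖z - z0‖ ≤ th L * ‖z0‖ →
      ‖G z - G z0‖ ≤ K * ‖z0‖ ^ 2 * Real.sqrt (‖z - z0‖ / ‖z0‖) := by
  obtain ⟨C, hC1, hC⟩ := H.growth
  have hδ := H.hδ
  have hth := th_pos H.lip.hL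
  have hth1 := th_le H.lip.hL
  have hK3 : 3 ≤ Real.sqrt (3 * (4 * C + 3) / th L) := by
    apply Real.le_sqrt_of_sq_le
    rw [le_div_iff₀ hth]
    nlinarith
  refine ⟨Real.sqrt (3 * (4 * C + 3) / th L), hK3, ?_⟩
  intro z0 hz0 hz0ne hz0δ z hz hzz0
  set r : ℝ := ‖z0‖ with hr
  have hrpos : 0 < r := norm_pos_iff.mpr hz0ne
  have hz0D : z0 ∉ Dom g := not_mem_Dom_of_eq hz0
  have hz0ball : z0 ∈ ball (0 : ℂ) δ := by rw [mem_ball_zero_iff, ← hr]; linarith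
  by_cases hzD : z ∈ Dom g
  · have hne : z ≠ z0 := fun h => hz0D (h ▸ hzD)
    have hpos : 0 < ‖z - z0‖ := norm_pos_iff.mpr (sub_ne_zero.mpr hne)
    set ρ : ℝ := ‖z - z0‖ / th L with hρ
    have hρpos : 0 < ρ := div_pos hpos hth
    have hρr : ρ ≤ r := by rw [hρ, div_le_iff₀ hth]; linarith
    have hw2 : ∀ w : ℂ, ‖w - z0‖ ≤ ρ → ‖w‖ ≤ 2 * r := by
      intro w hw
      calc ‖w‖ = ‖(w - z0) + z0‖ := by rw [sub_add_cancel]
        _ ≤ ‖w - z0‖ + ‖z0‖ := norm_add_le _ _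
        _ ≤ 2 * r := by linarith
    have hE : 0 < 3 * r * ρ := by positivity
    have key : ‖(fun w => G w - G z0) z‖ ≤ Real.sqrt ((3 * r * ρ) * ((4 * C + 3) * r ^ 2)) := by
      apply H.lip.disc_bound_sqrt (z0 := z0) hz0D hρpos (h := fun w => G w - G z0) _ _ hE _ _ _
        hzD (by rw [hρ, mul_div_cancel₀ _ hth.ne'])
      · apply DifferentiableOn.sub_const
        apply H.diff.mono
        intro w hw
        refine ⟨hw.1, ?_⟩
        have := hw2 w hw.2.2.le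
        rw [mem_ball_zero_iff]
        linarith
      · apply ContinuousOn.sub _ continuousOn_const
        apply H.cont.mono
        intro w hw
        have := hw2 w hw.2.2
        rw [mem_ball_zero_iff]
        linarith
      · nlinarith
      · intro w hw _ hwr
        have hw3 := hw2 w hwr
        refine (H.bdry_sub (by rw [mem_ball_zero_iff]; linarith) (not_mem_Dom_of_eq hw)
          hz0ball hz0D).trans ?_
        calc ‖w - z0‖ * (‖w‖ + ‖z0‖) ≤ ρ * (2 * r + r) := by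
              apply mul_le_mul hwr (by linarith) (by positivity) hρpos.le
          _ = 3 * r * ρ := by ring
      · intro w hw _ hwr
        have hw3 := hw2 w hwr
        have h1 := hC w hw (by linarith)
        have h2 := H.norm_bdry hz0ball hz0D
        have h3 : ‖w‖ ^ 2 ≤ (2 * r) ^ 2 := pow_le_pow_left₀ (norm_nonneg _) hw3 2
        calc ‖G w - G z0‖ ≤ ‖G w‖ + ‖G z0‖ := norm_sub_le _ _
          _ ≤ C * (2 * r) ^ 2 + r ^ 2 := by
              apply add_le_add _ h2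
              exact h1.trans (mul_le_mul_of_nonneg_left h3 (by linarith))
          _ ≤ (4 * C + 3) * r ^ 2 := by nlinarith [sq_nonneg r]
    refine key.trans (le_of_eq ?_)
    rw [show (3 * r * ρ) * ((4 * C + 3) * r ^ 2) =
      (3 * (4 * C + 3) / th L) * ((r ^ 2) ^ 2 * (‖z - z0‖ / r)) by
        rw [hρ]; field_simp]
    rw [Real.sqrt_mul (by positivity), Real.sqrt_mul (by positivity),
      Real.sqrt_sq (by positivity), mul_assoc]
  · have hz0' := eq_of_mem_CDom_of_notMem hz hzD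
    have hzn : ‖z‖ ≤ 2 * r := by
      calc ‖z‖ = ‖(z - z0) + z0‖ := by rw [sub_add_cancel]
        _ ≤ ‖z - z0‖ + ‖z0‖ := norm_add_le _ _
        _ ≤ 2 * r := by nlinarith
    have h1 := H.bdry_sub (by rw [mem_ball_zero_iff]; linarith) hzD hz0ball hz0D
    have hratio : ‖z - z0‖ / r ≤ 1 := by
      rw [div_le_one hrpos]; nlinarith
    have hratio0 : 0 ≤ ‖z - z0‖ / r := by positivity
    have h2 : ‖z - z0‖ / r ≤ Real.sqrt (‖z - z0‖ / r) := by
      apply Real.le_sqrt_of_sq_le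
      nlinarith
    calc ‖G z - G z0‖ ≤ ‖z - z0‖ * (‖z‖ + ‖z0‖) := h1
      _ ≤ ‖z - z0‖ * (2 * r + r) := by
          apply mul_le_mul_of_nonneg_left _ (norm_nonneg _)
          linarith
      _ = 3 * r ^ 2 * (‖z - z0‖ / r) := by field_simp; ring
      _ ≤ 3 * r ^ 2 * Real.sqrt (‖z - z0‖ / r) :=
          mul_le_mul_of_nonneg_left h2 (by positivity)
      _ ≤ Real.sqrt (3 * (4 * C + 3) / th L) * r ^ 2 * Real.sqrt (‖z - z0‖ / r) := by
          apply mul_le_mul_of_nonneg_right _ (Real.sqrt_nonneg _)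
          exact mul_le_mul_of_nonneg_right hK3 (sq_nonneg _)

/-- Scale invariant Hoelder continuity of `Q` at boundary points. -/
theorem GData.equi_Q (H : GData g L δ ω G) : ∃ K : ℝ, 0 < K ∧ ∀ z0 : ℂ, z0.re = g z0.im →
    z0 ≠ 0 → ‖z0‖ ≤ δ / 8 → ∀ z ∈ CDom g, ‖z - z0‖ ≤ th L * ‖z0‖ →
      ‖QQ ω G z - QQ ω G z0‖ ≤ K * Real.sqrt (‖z - z0‖ / ‖z0‖) := by
  obtain ⟨K, hK3, hK⟩ := H.equi_G
  have hδ := H.hδ
  have hth := th_pos H.lip.hL
  have hth1 := th_le H.lip.hL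
  refine ⟨4 * K + 12, by linarith, ?_⟩
  intro z0 hz0 hz0ne hz0δ z hz hzz0
  have h1 := hK z0 hz0 hz0ne hz0δ z hz hzz0
  set r : ℝ := ‖z0‖ with hr
  have hrpos : 0 < r := norm_pos_iff.mpr hz0ne
  have hz0D : z0 ∉ Dom g := not_mem_Dom_of_eq hz0
  have hz0ball : z0 ∈ ball (0 : ℂ) δ := by rw [mem_ball_zero_iff, ← hr]; linarith
  have hzlow : r / 2 ≤ ‖z‖ := by
    have := norm_sub_norm_le z0 (z0 - z)
    rw [sub_sub_cancel] at this
    rw [norm_sub_rev] at hzz0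
    nlinarith
  have hzup : ‖z‖ ≤ 2 * r := by
    calc ‖z‖ = ‖(z - z0) + z0‖ := by rw [sub_add_cancel]
      _ ≤ ‖z - z0‖ + ‖z0‖ := norm_add_le _ _
      _ ≤ 2 * r := by nlinarith
  have hzpos : 0 < ‖z‖ := by linarith
  have hzne : z ≠ 0 := norm_pos_iff.mp hzpos
  have hωne : ω ≠ 0 := by
    rw [← norm_pos_iff, H.hω]; exact one_pos
  set s : ℝ := Real.sqrt (‖z - z0‖ / r) with hs
  have hs0 : 0 ≤ s := Real.sqrt_nonneg _
  have hratio : ‖z - z0‖ / r ≤ 1 := by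
    rw [div_le_one hrpos]; nlinarith
  have hratio0 : 0 ≤ ‖z - z0‖ / r := by positivity
  have h2 : ‖z - z0‖ / r ≤ s := by
    apply Real.le_sqrt_of_sq_le
    nlinarith
  have hsplit : QQ ω G z - QQ ω G z0 = (G z - G z0) / (ω * z) ^ 2 +
      G z0 * ((z0 - z) * (z0 + z)) / ((ω * z) ^ 2 * z0 ^ 2) := by
    unfold QQ
    field_simp
    ring
  rw [hsplit]
  have hnz : ‖(ω * z) ^ 2‖ = ‖z‖ ^ 2 := by rw [norm_pow, norm_mul, H.hω, one_mul]
  have hz2 : r ^ 2 / 4 ≤ ‖z‖ ^ 2 := by nlinarith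
  have hA : ‖(G z - G z0) / (ω * z) ^ 2‖ ≤ 4 * K * s := by
    rw [norm_div, hnz, div_le_iff₀ (by positivity)]
    refine h1.trans ?_
    calc K * r ^ 2 * s = 4 * K * s * (r ^ 2 / 4) := by ring
      _ ≤ 4 * K * s * ‖z‖ ^ 2 := by
          apply mul_le_mul_of_nonneg_left hz2
          have : 0 ≤ K := by linarith
          positivity
  have hB : ‖G z0 * ((z0 - z) * (z0 + z)) / ((ω * z) ^ 2 * z0 ^ 2)‖ ≤ 12 * s := by
    have hG := H.norm_bdry hz0ball hz0D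
    have hsum : ‖z0 + z‖ ≤ 3 * r := (norm_add_le _ _).trans (by linarith)
    rw [norm_div, norm_mul, norm_mul, norm_mul, hnz, norm_pow, ← hr,
      div_le_iff₀ (by positivity)]
    rw [norm_sub_rev z0 z]
    have h3 : ‖z - z0‖ ≤ s * r := by rwa [div_le_iff₀ hrpos] at h2
    calc ‖G z0‖ * (‖z - z0‖ * ‖z0 + z‖) ≤ r ^ 2 * ((s * r) * (3 * r)) := by
          apply mul_le_mul hG _ (by positivity) (by positivity)
          exact mul_le_mul h3 hsum (norm_nonneg _) (by positivity)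
      _ = 12 * s * (r ^ 2 / 4 * r ^ 2) := by ring
      _ ≤ 12 * s * (‖z‖ ^ 2 * r ^ 2) := by
          apply mul_le_mul_of_nonneg_left _ (by positivity)
          exact mul_le_mul_of_nonneg_right hz2 (sq_nonneg _)
  calc _ ≤ 4 * K * s + 12 * s := (norm_add_le _ _).trans (add_le_add hA hB)
    _ = (4 * K + 12) * s := by ring

end Pool.Agent.Blowup
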