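import Pool.Agent.Blowup.Annulus

/-!
The quadratic growth bound.
-/

open Complex Set Filter Topology Metric

namespace Pool.Agent.Blowup

/-- The complex-analytic data attached to the free boundary problem. -/
structure GData (g : ℝ → ℝ) (L δ : ℝ) (ω : ℂ) (G : ℂ → ℂ) : Prop where
  lip : LipFun g L
  hδ : 0 < δ
  hω : ‖ω‖ = 1
  cont : ContinuousOn G (ball 0 δ)
  diff : DifferentiableOn ℂ G (Dom g ∩ ball 0 δ)
  bdry : ∀ z ∈ ball (0 : ℂ) δ, z ∉ Dom g → G z = (((ω * z).re : ℝ) : ℂ) ^ 2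

variable {g : ℝ → ℝ} {L δ : ℝ} {ω : ℂ} {G : ℂ → ℂ}

lemma LipFun.zero_notMem (hg : LipFun g L) : (0 : ℂ) ∉ Dom g := by
  rw [mem_Dom]
  simp [hg.zero]

lemma not_mem_Dom_of_eq {z : ℂ} (h : z.re = g z.im) : z ∉ Dom g := by
  rw [mem_Dom, h]; exact lt_irrefl _

lemma eq_of_mem_CDom_of_notMem {z : ℂ} (h : z ∈ CDom g) (h' : z ∉ Dom g) : z.re = g z.im :=
  le_antisymm (not_lt.mp h') h

lemma GData.norm_bdry (H : GData g L δ ω G) {z : ℂ} (hz : z ∈ ball (0 : ℂ) δ) (hzD : z ∉ Dom g) :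
    ‖G z‖ ≤ ‖z‖ ^ 2 := by
  rw [H.bdry z hz hzD, norm_pow, norm_real]
  apply pow_le_pow_left₀ (norm_nonneg _)
  calc ‖(ω * z).re‖ ≤ ‖ω * z‖ := abs_re_le_norm _
    _ = ‖z‖ := by rw [norm_mul, H.hω, one_mul]

/-- The contraction factor. -/
noncomputable def th (L : ℝ) : ℝ := c0 L ^ 2 / 4

lemma th_pos {L : ℝ} (hL : 0 ≤ L) : 0 < th L := by
  unfold th; have := c0_pos hL; positivity

lemma th_le {L : ℝ} (hL : 0 ≤ L) : th L ≤ 1 / 16 := by
  unfold th
  have h1 := c0_pos hL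
  have h2 := c0_le_half hL
  nlinarith

lemma sqrt_th_div {L : ℝ} (hL : 0 ≤ L) : Real.sqrt (th L) / c0 L = 1 / 2 := by
  have h1 := c0_pos hL
  have h2 : Real.sqrt (th L) = c0 L / 2 := by
    unfold th
    rw [show c0 L ^ 2 / 4 = (c0 L / 2) ^ 2 by ring, Real.sqrt_sq (by positivity)]
  rw [h2]
  field_simp

/-- The two-constants estimate in the form `√(E M)`. -/
lemma LipFun.disc_bound_sqrt (hg : LipFun g L) {z0 : ℂ} (hz0 : z0 ∉ Dom g) {r0 : ℝ} (h0 : 0 < r0)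
    {h : ℂ → ℂ}
    (hd : DifferentiableOn ℂ h (Dom g ∩ {z | 0 < ‖z - z0‖ ∧ ‖z - z0‖ < r0}))
    (hc : ContinuousOn h (CDom g ∩ {z | 0 < ‖z - z0‖ ∧ ‖z - z0‖ ≤ r0}))
    {E M : ℝ} (hE : 0 < E) (hEM : E ≤ M)
    (hbE : ∀ z : ℂ, z.re = g z.im → 0 < ‖z - z0‖ → ‖z - z0‖ ≤ r0 → ‖h z‖ ≤ E)
    (hbM : ∀ z ∈ CDom g, 0 < ‖z - z0‖ → ‖z - z0‖ ≤ r0 → ‖h z‖ ≤ M)
    {z : ℂ} (hz : z ∈ Dom g) (hzr : ‖z - z0‖ ≤ th L * r0) :
    ‖h z‖ ≤ Real.sqrt (E * M) := by
  have hth := th_pos hg.hL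
  have hth1 := th_le hg.hL
  have hc0 := c0_pos hg.hL
  have hM : 0 < M := hE.trans_le hEM
  have hzr' : ‖z - z0‖ < r0 := by nlinarith
  refine (hg.disc_bound hz0 h0 hd hc hE hEM hbE hbM hz hzr').trans ?_
  have h1 : Real.sqrt (‖z - z0‖ / r0) / c0 L ≤ 1 / 2 := by
    rw [← sqrt_th_div hg.hL]
    apply div_le_div_of_nonneg_right _ hc0.le
    apply Real.sqrt_le_sqrt
    rwa [div_le_iff₀ h0]
  have h2 : 0 ≤ Real.log (M / E) := Real.log_nonneg (by rwa [le_div_iff₀ hE, one_mul])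
  have h3 : Real.exp (Real.log (M / E) * (Real.sqrt (‖z - z0‖ / r0) / c0 L)) ≤
      Real.sqrt (M / E) := by
    have h4 : Real.sqrt (M / E) = Real.exp (Real.log (M / E) * (1 / 2)) := by
      rw [Real.sqrt_eq_rpow, Real.rpow_def_of_pos (div_pos hM hE)]
    rw [h4]
    apply Real.exp_le_exp.mpr
    exact mul_le_mul_of_nonneg_left h1 h2
  calc E * Real.exp (Real.log (M / E) * (Real.sqrt (‖z - z0‖ / r0) / c0 L))
      ≤ E * Real.sqrt (M / E) := mul_le_mul_of_nonneg_left h3 hE.le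
    _ = Real.sqrt (E * M) := by
        rw [show E * M = E ^ 2 * (M / E) by field_simp, Real.sqrt_mul (by positivity),
          Real.sqrt_sq hE.le]

lemma GData.growth_step (H : GData g L δ ω G) {r A : ℝ} (hr : 0 < r) (hrδ : r < δ) (hA : 1 ≤ A)
    (hb : ∀ z ∈ CDom g, ‖z‖ ≤ r → ‖G z‖ ≤ A * r ^ 2) :
    ∀ z ∈ CDom g, ‖z‖ ≤ th L * r → ‖G z‖ ≤ Real.sqrt A * r ^ 2 := by
  intro z hz hzr
  have hth := th_pos H.lip.hL
  have hth1 := th_le H.lip.hL
  have hsA : 1 ≤ Real.sqrt A := by rw [Real.one_le_sqrt]; exact hA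
  have hzr' : ‖z‖ ≤ r := by nlinarith
  by_cases hzD : z ∈ Dom g
  · have key : ‖G z‖ ≤ Real.sqrt (r ^ 2 * (A * r ^ 2)) := by
      apply H.lip.disc_bound_sqrt (z0 := 0) H.lip.zero_notMem hr (h := G) _ _ (by positivity)
        _ _ _ hzD (by simpa using hzr)
      · apply H.diff.mono
        intro w hw
        refine ⟨hw.1, ?_⟩
        have := hw.2.2
        rw [sub_zero] at this
        rw [mem_ball_zero_iff]
        linarith
      · apply H.cont.mono
        intro w hw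
        have := hw.2.2
        rw [sub_zero] at this
        rw [mem_ball_zero_iff]
        linarith
      · nlinarith [sq_nonneg r]
      · intro w hw _ hwr
        rw [sub_zero] at hwr
        refine (H.norm_bdry (by rw [mem_ball_zero_iff]; linarith) (not_mem_Dom_of_eq hw)).trans ?_
        exact pow_le_pow_left₀ (norm_nonneg _) hwr 2
      · intro w hw _ hwr
        rw [sub_zero] at hwr
        exact hb w hw hwr
    refine key.trans (le_of_eq ?_)
    rw [show r ^ 2 * (A * r ^ 2) = (r ^ 2) ^ 2 * A by ring, Real.sqrt_mul (by positivity),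
      Real.sqrt_sq (by positivity), mul_comm]
  · refine (H.norm_bdry (by rw [mem_ball_zero_iff]; linarith) hzD).trans ?_
    have h1 : ‖z‖ ^ 2 ≤ r ^ 2 := pow_le_pow_left₀ (norm_nonneg _) hzr' 2
    have h2 : 0 ≤ r ^ 2 := sq_nonneg r
    nlinarith

/-- Quadratic growth of `G` at the origin. -/
theorem GData.growth (H : GData g L δ ω G) :
    ∃ C : ℝ, 1 ≤ C ∧ ∀ z ∈ CDom g, ‖z‖ ≤ δ / 2 → ‖G z‖ ≤ C * ‖z‖ ^ 2 := by
  have hδ := H.hδ
  have hth := th_pos H.lip.hL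
  have hth1 := th_le H.lip.hL
  set r0 : ℝ := δ / 2 with hr0
  have hr0pos : 0 < r0 := by positivity
  set t : ℝ := th L with ht
  obtain ⟨B, hB⟩ := (isCompact_closedBall (0 : ℂ) r0).exists_bound_of_continuousOn
    (H.cont.mono (closedBall_subset_ball (by linarith)))
  set A : ℝ := max (max (B / r0 ^ 2) ((t⁻¹) ^ 4)) 1 with hAdef
  have hA1 : 1 ≤ A := le_max_right _ _
  have hAB : B ≤ A * r0 ^ 2 := by
    rw [← div_le_iff₀ (by positivity)]
    exact (le_max_left _ _).trans (le_max_left _ _)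
  have hAt : (t⁻¹) ^ 2 ≤ Real.sqrt A := by
    apply Real.le_sqrt_of_sq_le
    rw [← pow_mul]
    exact (le_max_right _ _).trans (le_max_left _ _)
  have hind : ∀ k : ℕ, ∀ z ∈ CDom g, ‖z‖ ≤ t ^ k * r0 → ‖G z‖ ≤ A * (t ^ k * r0) ^ 2 := by
    intro k
    induction k with
    | zero =>
      intro z _ hzr
      rw [pow_zero, one_mul] at *
      exact (hB z (by rw [mem_closedBall_zero_iff]; exact hzr)).trans hAB
    | succ k ih =>
      intro z hz hzr
      have hrk : 0 < t ^ k * r0 := by positivity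
      have hrk1 : t ^ k * r0 < δ := by
        have : t ^ k ≤ 1 := pow_le_one₀ hth.le (by linarith)
        nlinarith
      have h1 := H.growth_step hrk hrk1 hA1 ih z hz (by rw [pow_succ] at hzr; linarith)
      refine h1.trans ?_
      have h2 : Real.sqrt A ≤ A * t ^ 2 := by
        have h3 : Real.sqrt A * Real.sqrt A = A := Real.mul_self_sqrt (by linarith)
        have h4 : 1 ≤ Real.sqrt A * t ^ 2 := by
          have := mul_le_mul_of_nonneg_right hAt (sq_nonneg t)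
          rwa [← mul_pow, inv_mul_cancel₀ hth.ne', one_pow] at this
        calc Real.sqrt A = Real.sqrt A * 1 := (mul_one _).symm
          _ ≤ Real.sqrt A * (Real.sqrt A * t ^ 2) :=
              mul_le_mul_of_nonneg_left h4 (Real.sqrt_nonneg _)
          _ = A * t ^ 2 := by rw [← mul_assoc, h3]
      calc Real.sqrt A * (t ^ k * r0) ^ 2 ≤ A * t ^ 2 * (t ^ k * r0) ^ 2 :=
            mul_le_mul_of_nonneg_right h2 (sq_nonneg _)
        _ = A * (t ^ (k + 1) * r0) ^ 2 := by ring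
  refine ⟨A * (t⁻¹) ^ 2, ?_, ?_⟩
  · have : 1 ≤ t⁻¹ := by
      rw [one_le_inv₀ hth]; linarith
    nlinarith [pow_le_pow_left₀ (by norm_num : (0 : ℝ) ≤ 1) this 2]
  · intro z hz hzr
    by_cases hz0 : z = 0
    · subst hz0
      refine (H.norm_bdry (by rw [mem_ball_zero_iff, norm_zero]; exact hδ)
        H.lip.zero_notMem).trans ?_
      simp
    · have hzpos : 0 < ‖z‖ := norm_pos_iff.mpr hz0
      obtain ⟨n, hn1, hn2⟩ := exists_nat_pow_near_of_lt_one (x := ‖z‖ / r0) (y := t)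
        (by positivity) (by rwa [div_le_one hr0pos]) hth (by linarith)
      rw [lt_div_iff₀ hr0pos] at hn1
      rw [div_le_iff₀ hr0pos] at hn2
      have h1 := hind n z hz hn2
      refine h1.trans ?_
      rw [mul_assoc]
      apply mul_le_mul_of_nonneg_left _ (by linarith)
      have h2 : t ^ n * r0 ≤ t⁻¹ * ‖z‖ := by
        rw [← div_eq_inv_mul, le_div_iff₀ hth]
        calc t ^ n * r0 * t = t ^ (n + 1) * r0 := by ring
          _ ≤ ‖z‖ := hn1.le
      calc (t ^ n * r0) ^ 2 ≤ (t⁻¹ * ‖z‖) ^ 2 := pow_le_pow_left₀ (by positivity) h2 2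
        _ = t⁻¹ ^ 2 * ‖z‖ ^ 2 := by ring

end Pool.Agent.Blowup
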