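import Pool.Agent.Blowup.Slow

/-!
The oscillation of `Q` at each small scale is small, up to the boundary.
-/

open Complex Set Filter Topology Metric
open scoped ComplexConjugate

namespace Pool.Agent.Blowup

variable {g : ℝ → ℝ} {L δ : ℝ} {ω : ℂ} {G : ℂ → ℂ}

lemma LipFun.ball_subset_Dom (hg : LipFun g L) {p : ℂ} {R : ℝ}
    (h : (1 + L) * R ≤ p.re - g p.im) : ball p R ⊆ Dom g := by
  intro w hw
  rw [mem_ball, dist_eq_norm] at hw
  rw [mem_Dom]
  have hL := hg.hL
  have h1 : |(w - p).re| ≤ ‖w - p‖ := abs_re_le_norm _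
  have h2 : |(w - p).im| ≤ ‖w - p‖ := abs_im_le_norm _
  rw [sub_re] at h1
  rw [sub_im] at h2
  have h3 := (abs_le.mp (hg.lip w.im p.im)).2
  have h4 := (abs_le.mp h1).1
  have h5 : L * |w.im - p.im| ≤ L * ‖w - p‖ := mul_le_mul_of_nonneg_left h2 hL
  nlinarith

lemma LipFun.height_le (hg : LipFun g L) (p : ℂ) : p.re - g p.im ≤ (1 + L) * ‖p‖ := by
  have h1 := le_trans (le_abs_self _) (abs_re_le_norm p)
  have h2 := (abs_le.mp (hg.abs_g_le p.im)).1
  have h3 : L * |p.im| ≤ L * ‖p‖ := mul_le_mul_of_nonneg_left (abs_im_le_norm p) hg.hL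
  nlinarith

/-- Control of `Q` along paths that stay away from the boundary. -/
theorem GData.path_bound (H : GData g L δ ω G) {κ ε : ℝ} (hκ : 0 < κ) (hκ1 : κ ≤ 1)
    (hε : 0 < ε) :
    ∃ r1 > 0, ∀ r : ℝ, 0 < r → r < r1 → ∀ z : ℂ, ‖z‖ ≤ 2 * r → κ * r ≤ z.re - g z.im →
      ‖QQ ω G z - QQ ω G (r : ℂ)‖ ≤ ε := by
  have hL := H.lip.hL
  have hδ := H.hδ
  set K : ℝ := 4 + 3 * L with hK
  set B : ℝ := K + 2 with hB
  have hKpos : 0 < K := by positivity
  have hBpos : 0 < B := by positivity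
  set κ' : ℝ := κ / ((1 + L) * B) with hκ'
  have hκ'pos : 0 < κ' := by positivity
  have hκ'1 : κ' ≤ 1 := by
    rw [hκ', div_le_one (by positivity)]
    nlinarith
  set ε' : ℝ := ε * κ / ((1 + L) * (2 * K + 6)) with hε'
  have hε'pos : 0 < ε' := by positivity
  obtain ⟨rs, hrs, hslow⟩ := H.slow hκ'pos hκ'1 hε'pos
  refine ⟨min (rs / (2 * B)) (δ / (2 * B)), by positivity, ?_⟩
  intro r hr hrr1 z hz hzκ
  have hr1 : r < rs / (2 * B) := hrr1.trans_le (min_le_left _ _)
  have hr2 : r < δ / (2 * B) := hrr1.trans_le (min_le_right _ _)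
  have hBr1 : B * r < rs := by
    rw [lt_div_iff₀ (by positivity)] at hr1
    nlinarith
  have hBr2 : B * r < δ := by
    rw [lt_div_iff₀ (by positivity)] at hr2
    nlinarith
  set M : ℝ := ε' * (1 + L) / (κ * r) with hM
  -- good points
  have hgood : ∀ p : ℂ, κ * r ≤ p.re - g p.im → ‖p‖ ≤ B * r →
      DifferentiableAt ℂ (QQ ω G) p ∧ ‖deriv (QQ ω G) p‖ ≤ M := by
    intro p hp hpB
    have hκr : 0 < κ * r := by positivity
    have hpD : p ∈ Dom g := by rw [mem_Dom]; linarith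
    have hheight := H.lip.height_le p
    have hpn : κ * r / (1 + L) ≤ ‖p‖ := by
      rw [div_le_iff₀ (by positivity)]; linarith
    have hppos : 0 < ‖p‖ := lt_of_lt_of_le (by positivity) hpn
    have hball : ball p (κ' * ‖p‖) ⊆ Dom g := by
      apply H.lip.ball_subset_Dom
      calc (1 + L) * (κ' * ‖p‖) ≤ (1 + L) * (κ' * (B * r)) := by gcongr
        _ = κ * r := by rw [hκ']; field_simp
        _ ≤ _ := hp
    have h1 := hslow p hpD (hpB.trans_lt hBr1) hball
    constructor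
    · apply (H.differentiableOn_QQ).differentiableAt
      apply (H.lip.isOpen_Dom.inter isOpen_ball).mem_nhds
      refine ⟨hpD, ?_⟩
      rw [mem_ball_zero_iff]
      exact hpB.trans_lt hBr2
    · rw [hM, le_div_iff₀ hκr]
      have h2 : κ * r ≤ (1 + L) * ‖p‖ := by linarith
      calc ‖deriv (QQ ω G) p‖ * (κ * r) ≤ ‖deriv (QQ ω G) p‖ * ((1 + L) * ‖p‖) :=
            mul_le_mul_of_nonneg_left h2 (norm_nonneg _)
        _ = (‖deriv (QQ ω G) p‖ * ‖p‖) * (1 + L) := by ring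
        _ ≤ ε' * (1 + L) := mul_le_mul_of_nonneg_right h1 (by positivity)
  -- segments of good points
  have hseg : ∀ a b : ℂ, (∀ t : ℝ, 0 ≤ t → t ≤ 1 →
      κ * r ≤ (a + (t : ℂ) * (b - a)).re - g (a + (t : ℂ) * (b - a)).im ∧
      ‖a + (t : ℂ) * (b - a)‖ ≤ B * r) → ‖QQ ω G b - QQ ω G a‖ ≤ M * ‖b - a‖ := by
    intro a b hab
    have h1 : ∀ p ∈ segment ℝ a b, DifferentiableAt ℂ (QQ ω G) p ∧ ‖deriv (QQ ω G) p‖ ≤ M := by
      intro p hp
      rw [segment_eq_image'] at hp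
      obtain ⟨t, ht, rfl⟩ := hp
      obtain ⟨h2, h3⟩ := hab t ht.1 ht.2
      have h4 : a + t • (b - a) = a + (t : ℂ) * (b - a) := by
        rw [Complex.real_smul]
      simp only [h4]
      exact hgood _ h2 h3
    exact (convex_segment a b).norm_image_sub_le_of_norm_deriv_le (fun p hp => (h1 p hp).1)
      (fun p hp => (h1 p hp).2) (left_mem_segment ℝ a b) (right_mem_segment ℝ a b)
  have hzre : |z.re| ≤ 2 * r := (abs_re_le_norm z).trans hz
  have hzim : |z.im| ≤ 2 * r := (abs_im_le_norm z).trans hz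
  have hzre' := abs_le.mp hzre
  have hzim' := abs_le.mp hzim
  set p1 : ℂ := z + ((K * r : ℝ) : ℂ) with hp1
  set p2 : ℂ := ((z.re + K * r : ℝ) : ℂ) with hp2
  have s1 : ‖QQ ω G p1 - QQ ω G z‖ ≤ M * (K * r) := by
    have h1 : ‖p1 - z‖ = K * r := by
      rw [hp1, add_sub_cancel_left, norm_real, Real.norm_of_nonneg (by positivity)]
    rw [← h1]
    apply hseg
    intro t ht0 ht1
    have h2 : z + (t : ℂ) * (p1 - z) = z + ((t * (K * r) : ℝ) : ℂ) := by
      rw [hp1]; push_cast; ring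
    rw [h2]
    constructor
    · simp only [add_re, ofReal_re, add_im, ofReal_im, add_zero]
      have : 0 ≤ t * (K * r) := by positivity
      linarith
    · calc ‖z + ((t * (K * r) : ℝ) : ℂ)‖ ≤ ‖z‖ + ‖((t * (K * r) : ℝ) : ℂ)‖ := norm_add_le _ _
        _ = ‖z‖ + t * (K * r) := by rw [norm_real, Real.norm_of_nonneg (by positivity)]
        _ ≤ 2 * r + 1 * (K * r) := by gcongr
        _ = B * r := by rw [hB]; ring
  have s2 : ‖QQ ω G p2 - QQ ω G p1‖ ≤ M * (2 * r) := by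
    have h0 : p2 - p1 = -((z.im : ℂ) * I) := by
      apply Complex.ext <;> simp [hp1, hp2]
    have h1 : ‖p2 - p1‖ ≤ 2 * r := by
      rw [h0, norm_neg, norm_mul, norm_real, norm_I, mul_one]
      exact hzim
    have h3 : ‖QQ ω G p2 - QQ ω G p1‖ ≤ M * ‖p2 - p1‖ := by
      apply hseg
      intro t ht0 ht1
      have hre : (p1 + (t : ℂ) * (p2 - p1)).re = z.re + K * r := by
        rw [h0, hp1]; simp
      have him : (p1 + (t : ℂ) * (p2 - p1)).im = (1 - t) * z.im := by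
        rw [h0, hp1]; simp; ring
      rw [hre, him]
      have h4 : |(1 - t) * z.im| ≤ 2 * r := by
        rw [abs_mul, abs_of_nonneg (by linarith : 0 ≤ 1 - t)]
        nlinarith [abs_nonneg z.im]
      constructor
      · have h5 := (abs_le.mp (H.lip.abs_g_le ((1 - t) * z.im))).2
        have h6 : L * |(1 - t) * z.im| ≤ L * (2 * r) := mul_le_mul_of_nonneg_left h4 hL
        have h7 : κ * r ≤ 1 * r := by gcongr
        rw [hK]
        nlinarith
      · have h8 : p1 + (t : ℂ) * (p2 - p1) =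
            ((1 - t : ℝ) : ℂ) * z + ((K * r + t * z.re : ℝ) : ℂ) := by
          apply Complex.ext
          · rw [hre]; simp; ring
          · rw [him]; simp
        rw [h8]
        calc ‖((1 - t : ℝ) : ℂ) * z + ((K * r + t * z.re : ℝ) : ℂ)‖
            ≤ ‖((1 - t : ℝ) : ℂ) * z‖ + ‖((K * r + t * z.re : ℝ) : ℂ)‖ := norm_add_le _ _
          _ ≤ (1 - t) * (2 * r) + (K * r + t * (2 * r)) := by
              apply add_le_add
              · rw [norm_mul, norm_real, Real.norm_of_nonneg (by linarith : 0 ≤ 1 - t)]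
                exact mul_le_mul_of_nonneg_left hz (by linarith)
              · rw [norm_real]
                calc ‖K * r + t * z.re‖ ≤ ‖K * r‖ + ‖t * z.re‖ := norm_add_le _ _
                  _ ≤ K * r + t * (2 * r) := by
                      apply add_le_add
                      · rw [Real.norm_of_nonneg (by positivity)]
                      · rw [norm_mul, Real.norm_of_nonneg ht0]
                        exact mul_le_mul_of_nonneg_left hzre ht0
          _ = B * r := by rw [hB]; ring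
    have hM0 : 0 ≤ M := by positivity
    exact h3.trans (mul_le_mul_of_nonneg_left h1 hM0)
  have s3 : ‖QQ ω G (r : ℂ) - QQ ω G p2‖ ≤ M * ((K + 2) * r) := by
    have h0 : (r : ℂ) - p2 = ((r - (z.re + K * r) : ℝ) : ℂ) := by rw [hp2]; push_cast; ring
    have h1 : ‖(r : ℂ) - p2‖ ≤ (K + 2) * r := by
      rw [h0, norm_real, Real.norm_eq_abs, abs_le]
      constructor <;> nlinarith
    have h3 : ‖QQ ω G (r : ℂ) - QQ ω G p2‖ ≤ M * ‖(r : ℂ) - p2‖ := by
      apply hseg
      intro t ht0 ht1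
      have h4 : p2 + (t : ℂ) * ((r : ℂ) - p2) =
          (((1 - t) * (z.re + K * r) + t * r : ℝ) : ℂ) := by
        rw [hp2]; push_cast; ring
      rw [h4, ofReal_re, ofReal_im, H.lip.zero, norm_real]
      have h5 : r ≤ z.re + K * r := by rw [hK]; nlinarith
      have h6 : z.re + K * r ≤ B * r := by rw [hB]; nlinarith
      have h7 : κ * r ≤ 1 * r := by gcongr
      constructor
      · nlinarith
      · rw [Real.norm_of_nonneg (by nlinarith)]
        nlinarith
    have hM0 : 0 ≤ M := by positivity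
    exact h3.trans (mul_le_mul_of_nonneg_left h1 hM0)
  have hsum : ‖QQ ω G z - QQ ω G (r : ℂ)‖ ≤ M * (K * r) + M * (2 * r) + M * ((K + 2) * r) := by
    have h1 : QQ ω G (r : ℂ) - QQ ω G z = (QQ ω G p1 - QQ ω G z) + (QQ ω G p2 - QQ ω G p1) +
      (QQ ω G (r : ℂ) - QQ ω G p2) := by ring
    rw [norm_sub_rev, h1]
    exact (norm_add₃_le).trans (add_le_add (add_le_add s1 s2) s3)
  refine hsum.trans ?_
  have h1 : M * (K * r) + M * (2 * r) + M * ((K + 2) * r) = ε' * (1 + L) * (2 * K + 4) / κ := by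
    rw [hM]; field_simp; ring
  rw [h1, hε', div_le_iff₀ hκ]
  have h2 : ε * κ / ((1 + L) * (2 * K + 6)) * (1 + L) * (2 * K + 4) =
    ε * κ * ((2 * K + 4) / (2 * K + 6)) := by field_simp
  rw [h2]
  have h3 : (2 * K + 4) / (2 * K + 6) ≤ 1 := by
    rw [div_le_one (by positivity)]; linarith
  calc ε * κ * ((2 * K + 4) / (2 * K + 6)) ≤ ε * κ * 1 := by gcongr
    _ = ε * κ := mul_one _

/-- Small oscillation at each small scale. -/
theorem GData.osc (H : GData g L δ ω G) {ε : ℝ} (hε : 0 < ε) :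
    ∃ r1 > 0, ∀ z ∈ CDom g, z ≠ 0 → ‖z‖ < r1 →
      ‖QQ ω G z - QQ ω G ((‖z‖ : ℝ) : ℂ)‖ ≤ ε := by
  have hL := H.lip.hL
  have hδ := H.hδ
  have hth := th_pos hL
  have hth1 := th_le hL
  obtain ⟨K4, hK4, hequi⟩ := H.equi_Q
  set κ : ℝ := min (th L / 2) ((ε / (4 * K4)) ^ 2 / 2) with hκ
  have hκpos : 0 < κ := by positivity
  have hκth : 2 * κ ≤ th L := by
    have := min_le_left (th L / 2) ((ε / (4 * K4)) ^ 2 / 2)
    rw [← hκ] at this
    linarith
  have hκK : K4 * Real.sqrt (2 * κ) ≤ ε / 4 := by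
    have h1 : 2 * κ ≤ (ε / (4 * K4)) ^ 2 := by
      have := min_le_right (th L / 2) ((ε / (4 * K4)) ^ 2 / 2)
      rw [← hκ] at this
      linarith
    have h2 : Real.sqrt (2 * κ) ≤ ε / (4 * K4) := by
      rw [← Real.sqrt_sq (by positivity : 0 ≤ ε / (4 * K4))]
      exact Real.sqrt_le_sqrt h1
    calc K4 * Real.sqrt (2 * κ) ≤ K4 * (ε / (4 * K4)) := by gcongr
      _ = ε / 4 := by field_simp
  have hκ1 : κ ≤ 1 / 32 := by linarith
  obtain ⟨r1, hr1, hpath⟩ := H.path_bound hκpos (by linarith) (by positivity : 0 < ε / 2)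
  refine ⟨min r1 (δ / 16), by positivity, ?_⟩
  intro z hz hz0 hzr
  set r : ℝ := ‖z‖ with hr
  have hrpos : 0 < r := norm_pos_iff.mpr hz0
  have hrr1 : r < r1 := hzr.trans_le (min_le_left _ _)
  have hrδ : r < δ / 16 := hzr.trans_le (min_le_right _ _)
  by_cases hcase : κ * r ≤ z.re - g z.im
  · have := hpath r hrpos hrr1 z (by linarith) hcase
    linarith
  · push Not at hcase
    set t : ℝ := z.re - g z.im with ht
    have ht0 : 0 ≤ t := by rw [mem_CDom] at hz; linarith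
    set z0 : ℂ := z - (t : ℂ) with hz0def
    have hz0re : z0.re = g z0.im := by
      rw [hz0def, sub_re, sub_im, ofReal_re, ofReal_im, sub_zero, ht]; ring
    have hzz0 : ‖z - z0‖ = t := by
      rw [hz0def, sub_sub_cancel, norm_real, Real.norm_of_nonneg ht0]
    have hz0low : r / 2 ≤ ‖z0‖ := by
      have := norm_sub_norm_le z z0
      rw [hzz0, ← hr] at this
      nlinarith
    have hz0up : ‖z0‖ ≤ (1 + κ) * r := by
      calc ‖z0‖ ≤ ‖z‖ + ‖(t : ℂ)‖ := norm_sub_le _ _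
        _ = r + t := by rw [norm_real, Real.norm_of_nonneg ht0]
        _ ≤ (1 + κ) * r := by nlinarith
    have hz0pos : 0 < ‖z0‖ := by linarith
    have hz0ne : z0 ≠ 0 := norm_pos_iff.mp hz0pos
    set z1 : ℂ := z0 + ((κ * r : ℝ) : ℂ) with hz1
    have hκr : 0 < κ * r := by positivity
    have hz1z0 : ‖z1 - z0‖ = κ * r := by
      rw [hz1, add_sub_cancel_left, norm_real, Real.norm_of_nonneg hκr.le]
    have hz1h : z1.re - g z1.im = κ * r := by
      rw [hz1, add_re, add_im, ofReal_re, ofReal_im, add_zero, hz0re]; ring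
    have hz1C : z1 ∈ CDom g := by rw [mem_CDom]; linarith
    have hz1n : ‖z1‖ ≤ 2 * r := by
      calc ‖z1‖ ≤ ‖z0‖ + ‖((κ * r : ℝ) : ℂ)‖ := norm_add_le _ _
        _ = ‖z0‖ + κ * r := by rw [norm_real, Real.norm_of_nonneg hκr.le]
        _ ≤ 2 * r := by nlinarith
    have hz0δ : ‖z0‖ ≤ δ / 8 := by nlinarith
    have hsq : ∀ a : ℝ, a ≤ κ * r → Real.sqrt (a / ‖z0‖) ≤ Real.sqrt (2 * κ) := by
      intro a ha
      apply Real.sqrt_le_sqrt
      rw [div_le_iff₀ hz0pos]
      nlinarith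
    have e1 : ‖QQ ω G z - QQ ω G z0‖ ≤ ε / 4 := by
      refine (hequi z0 hz0re hz0ne hz0δ z hz (by rw [hzz0]; nlinarith)).trans ?_
      rw [hzz0]
      exact (mul_le_mul_of_nonneg_left (hsq t hcase.le) hK4.le).trans hκK
    have e2 : ‖QQ ω G z1 - QQ ω G z0‖ ≤ ε / 4 := by
      refine (hequi z0 hz0re hz0ne hz0δ z1 hz1C (by rw [hz1z0]; nlinarith)).trans ?_
      rw [hz1z0]
      exact (mul_le_mul_of_nonneg_left (hsq _ le_rfl) hK4.le).trans hκK
    have e3 : ‖QQ ω G z1 - QQ ω G (r : ℂ)‖ ≤ ε / 2 :=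
      hpath r hrpos hrr1 z1 hz1n hz1h.ge
    have h1 : QQ ω G z - QQ ω G (r : ℂ) = (QQ ω G z - QQ ω G z0) + (QQ ω G z0 - QQ ω G z1) +
      (QQ ω G z1 - QQ ω G (r : ℂ)) := by ring
    rw [h1]
    rw [norm_sub_rev] at e2
    have := norm_add₃_le (a := QQ ω G z - QQ ω G z0) (b := QQ ω G z0 - QQ ω G z1)
      (c := QQ ω G z1 - QQ ω G (r : ℂ))
    linarith

/-- Slow variation along the central ray. -/
theorem GData.radial (H : GData g L δ ω G) {ε : ℝ} (hε : 0 < ε) :
    ∃ r1 > 0, ∀ r : ℝ, 0 < r → r < r1 → ∀ ρ : ℝ, r / 4 ≤ ρ → ρ ≤ r →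
      ‖QQ ω G (ρ : ℂ) - QQ ω G (r : ℂ)‖ ≤ ε := by
  obtain ⟨r1, hr1, hpath⟩ := H.path_bound (κ := 1 / 4) (by norm_num) (by norm_num) hε
  refine ⟨r1, hr1, fun r hr hrr1 ρ hρ1 hρ2 => ?_⟩
  apply hpath r hr hrr1
  · rw [norm_real, Real.norm_of_nonneg (by linarith)]
    linarith
  · rw [ofReal_re, ofReal_im, H.lip.zero]
    linarith

end Pool.Agent.Blowup
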