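import Pool.Agent.Blowup.Weak

/-!
Reduction of the free boundary problem on `EuclideanSpace ℝ (Fin 2)` to complex analytic data.
-/

open Complex Set Filter Topology Metric MeasureTheory
open scoped ComplexConjugate

namespace Pool.Agent.Blowup

/-- The complex data of a solution. -/
theorem gdata_of_weak {g : ℝ → ℝ} {L δ : ℝ} {ω : ℂ} {u : ℂ → ℝ} (hg : LipFun g L) (hδ : 0 < δ)
    (hω : ‖ω‖ = 1) (hu : ContDiffOn ℝ 1 u (ball 0 δ))
    (hweak : ∀ φ : ℂ → ℝ, ContDiff ℝ 1 φ → HasCompactSupport φ → tsupport φ ⊆ Dom g ∩ ball 0 δ →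
      ∫ z, (fderiv ℝ u z 1 * fderiv ℝ φ z 1 + fderiv ℝ u z I * fderiv ℝ φ z I) =
        -∫ z, (ω * z).re * φ z)
    (hzero : ∀ z ∈ ball (0 : ℂ) δ, z.re < g z.im → u z = 0) :
    GData g L δ ω (GG ω u) ∧ u 0 = 0 := by
  have hdu : ContinuousOn (fun z => fderiv ℝ u z) (ball 0 δ) :=
    hu.continuousOn_fderiv_of_isOpen isOpen_ball (by simp)
  have hduv : ∀ v, ContinuousOn (fun z => fderiv ℝ u z v) (ball 0 δ) := fun v =>
    hdu.clm_apply continuousOn_const
  have hgc : Continuous g := by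
    have : LipschitzWith L.toNNReal g := by
      apply LipschitzWith.of_dist_le_mul
      intro s t
      rw [Real.dist_eq, Real.dist_eq, Real.coe_toNNReal _ hg.hL]
      exact hg.lip s t
    exact this.continuous
  have hopen : IsOpen ({z : ℂ | z.re < g z.im} ∩ ball 0 δ) :=
    (isOpen_lt continuous_re (hgc.comp continuous_im)).inter isOpen_ball
  -- points of the exterior
  have hext : ∀ z ∈ ({z : ℂ | z.re < g z.im} ∩ ball 0 δ), fderiv ℝ u z = 0 := by
    intro z hz
    have h1 : u =ᶠ[𝓝 z] fun _ => (0 : ℝ) := by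
      filter_upwards [hopen.mem_nhds hz] with w hw
      exact hzero w hw.2 hw.1
    rw [h1.fderiv_eq]
    simp
  -- approximations
  have happ : ∀ z ∈ ball (0 : ℂ) δ, z ∉ Dom g →
      ∃ᶠ w in 𝓝[ball 0 δ] z, w ∈ ({z : ℂ | z.re < g z.im} ∩ ball 0 δ) := by
    intro z hz hzD
    have h1 : Tendsto (fun t : ℝ => z - (t : ℂ)) (𝓝[>] 0) (𝓝[ball 0 δ] z) := by
      have hc : Tendsto (fun t : ℝ => z - (t : ℂ)) (𝓝[>] 0) (𝓝 z) := by
        have : Continuous fun t : ℝ => z - (t : ℂ) := by fun_prop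
        have h2 := this.tendsto 0
        simp only [ofReal_zero, sub_zero] at h2
        exact h2.mono_left nhdsWithin_le_nhds
      exact tendsto_nhdsWithin_iff.mpr ⟨hc, hc (isOpen_ball.mem_nhds hz)⟩
    have h3 : ∀ᶠ t : ℝ in 𝓝[>] 0, z - (t : ℂ) ∈ ({z : ℂ | z.re < g z.im} ∩ ball 0 δ) := by
      have h4 : ∀ᶠ t : ℝ in 𝓝[>] 0, z - (t : ℂ) ∈ ball (0 : ℂ) δ :=
        h1 self_mem_nhdsWithin
      filter_upwards [h4, self_mem_nhdsWithin] with t ht ht0
      refine ⟨?_, ht⟩
      have h5 : z.re ≤ g z.im := not_lt.mp hzD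
      have ht0' : 0 < t := ht0
      simp only [mem_ofPred_eq, sub_re, ofReal_re, sub_im, ofReal_im, sub_zero]
      linarith
    exact h1.frequently h3.frequently
  have hWW : ∀ z ∈ ball (0 : ℂ) δ, z ∉ Dom g → ∀ v, fderiv ℝ u z v = 0 := by
    intro z hz hzD v
    have h1 : Tendsto (fun w => fderiv ℝ u w v) (𝓝[ball 0 δ] z) (𝓝 (fderiv ℝ u z v)) :=
      hduv v z hz
    have h2 : ∃ᶠ w in 𝓝[ball 0 δ] z, fderiv ℝ u w v ∈ ({0} : Set ℝ) :=
      (happ z hz hzD).mono fun w hw => by
        rw [hext w hw]; simp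
    have h3 := isClosed_singleton.mem_of_frequently_of_tendsto h2 h1
    exact h3
  have hval : ∀ z ∈ ball (0 : ℂ) δ, z ∉ Dom g → u z = 0 := by
    intro z hz hzD
    have h1 : Tendsto u (𝓝[ball 0 δ] z) (𝓝 (u z)) := hu.continuousOn z hz
    have h2 : ∃ᶠ w in 𝓝[ball 0 δ] z, u w ∈ ({0} : Set ℝ) :=
      (happ z hz hzD).mono fun w hw => hzero w hw.2 hw.1
    exact isClosed_singleton.mem_of_frequently_of_tendsto h2 h1
  refine ⟨⟨hg, hδ, hω, ?_, ?_, ?_⟩, hval 0 (mem_ball_self hδ) hg.zero_notMem⟩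
  · unfold GG WW
    apply ContinuousOn.sub
    · exact (Continuous.continuousOn (by fun_prop))
    · apply ContinuousOn.mul continuousOn_const
      exact (continuous_ofReal.comp_continuousOn (hduv 1)).sub
        (continuousOn_const.mul (continuous_ofReal.comp_continuousOn (hduv I)))
  · exact holo_of_weak (hg.isOpen_Dom.inter isOpen_ball) (hu.mono inter_subset_right) hweak
  · intro z hz hzD
    unfold GG WW
    rw [hWW z hz hzD, hWW z hz hzD]
    simp

/-- The Euclidean plane. -/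
abbrev E2 := EuclideanSpace ℝ (Fin 2)

/-- The isometry `y ↦ y₁ + i y₀`. -/
noncomputable def swapIso : E2 ≃ₗᵢ[ℝ] ℂ where
  toFun y := ⟨y 1, y 0⟩
  invFun z := !₂[z.im, z.re]
  map_add' x y := by apply Complex.ext <;> simp
  map_smul' c x := by apply Complex.ext <;> simp
  left_inv y := by
    ext i; fin_cases i <;> simp
  right_inv z := by apply Complex.ext <;> simp
  norm_map' y := by
    rw [EuclideanSpace.norm_eq, Complex.norm_def, Complex.normSq_apply, Fin.sum_univ_two]
    simp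
    ring_nf

@[simp] lemma swapIso_re (y : E2) : (swapIso y).re = y 1 := rfl
@[simp] lemma swapIso_im (y : E2) : (swapIso y).im = y 0 := rfl

/-- Orthonormal invariance of the pairing of functionals. -/
lemma sum_pairing (T : E2 ≃ₗᵢ[ℝ] ℂ) (A B : ℂ →L[ℝ] ℝ) :
    ∑ i : Fin 2, A (T (EuclideanSpace.single i (1 : ℝ))) * B (T (EuclideanSpace.single i (1 : ℝ))) =
      A 1 * B 1 + A I * B I := by
  set a := (InnerProductSpace.toDual ℝ ℂ).symm A with ha
  set b := (InnerProductSpace.toDual ℝ ℂ).symm B with hb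
  have hA : ∀ v, A v = inner ℝ a v := by
    intro v; rw [ha, InnerProductSpace.toDual_symm_apply]
  have hB : ∀ v, B v = inner ℝ b v := by
    intro v; rw [hb, InnerProductSpace.toDual_symm_apply]
  have h1 := ((EuclideanSpace.basisFun (Fin 2) ℝ).map T).sum_inner_mul_inner a b
  have h2 := Complex.orthonormalBasisOneI.sum_inner_mul_inner a b
  have h3 : ∑ i : Fin 2, A (T (EuclideanSpace.single i (1 : ℝ))) *
      B (T (EuclideanSpace.single i (1 : ℝ))) = inner ℝ a b := by
    rw [← h1]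
    apply Finset.sum_congr rfl
    intro i _
    rw [hA, hB, real_inner_comm _ b]
    simp
  have h4 : A 1 * B 1 + A I * B I = inner ℝ a b := by
    rw [← h2, Fin.sum_univ_two, hA, hB, hA, hB, real_inner_comm _ b, real_inner_comm _ b]
    simp
  rw [h3, h4]

/-- **Reduction**: the free boundary problem near a Lipschitz boundary point gives complex
analytic data. -/
theorem reduce (D : Set E2) (u : E2 → ℝ) (hDo : IsOpen D)
    (hloc : ∃ ρ : ℝ, 0 < ρ ∧ ∃ R : E2 ≃ₗᵢ[ℝ] E2, ∃ g : ℝ → ℝ, ∃ L : NNReal, LipschitzWith L g ∧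
        ∀ x ∈ Metric.ball (0 : E2) ρ,
          (x ∈ D ↔ g (EuclideanSpace.proj (0 : Fin 2) (R (x - 0)))
                      < EuclideanSpace.proj (1 : Fin 2) (R (x - 0))))
    (h0 : (0 : E2) ∈ frontier D)
    (hu : ContDiffOn ℝ 1 u (Metric.ball 0 2))
    (hweak : ∀ φ : E2 → ℝ, ContDiff ℝ 1 φ → HasCompactSupport φ →
      tsupport φ ⊆ Metric.ball 0 2 →
      ∫ x, (∑ i : Fin 2, fderiv ℝ u x (EuclideanSpace.single i (1 : ℝ))
              * fderiv ℝ φ x (EuclideanSpace.single i (1 : ℝ)))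
        = - ∫ x, EuclideanSpace.proj (0 : Fin 2) x
              * D.indicator (fun _ => (1 : ℝ)) x * φ x)
    (hzero : ∀ x ∈ Metric.ball (0 : E2) 2, x ∉ closure D → u x = 0) :
    ∃ T : E2 ≃ₗᵢ[ℝ] ℂ, ∃ g : ℝ → ℝ, ∃ L δ : ℝ, ∃ ω : ℂ,
      GData g L δ ω (GG ω (fun z => u (T.symm z))) ∧
      (∀ z ∈ ball (0 : ℂ) δ, DifferentiableAt ℝ (fun z => u (T.symm z)) z) ∧ u 0 = 0 := by
  obtain ⟨ρ, hρ, R, g, L, hg, hD⟩ := hloc
  set T : E2 ≃ₗᵢ[ℝ] ℂ := R.trans swapIso with hT
  have hD' : ∀ x ∈ ball (0 : E2) ρ, (x ∈ D ↔ T x ∈ Dom g) := by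
    intro x hx
    rw [hD x hx, mem_Dom]
    simp [hT]
  have hTball : ∀ {x : E2} {r : ℝ}, T x ∈ ball (0 : ℂ) r ↔ x ∈ ball (0 : E2) r := by
    intro x r
    rw [mem_ball_zero_iff, mem_ball_zero_iff, T.norm_map]
  have hTsball : ∀ {z : ℂ} {r : ℝ}, T.symm z ∈ ball (0 : E2) r ↔ z ∈ ball (0 : ℂ) r := by
    intro x r
    rw [mem_ball_zero_iff, mem_ball_zero_iff, T.symm.norm_map]
  -- exterior points
  have hext : ∀ x ∈ ball (0 : E2) ρ, (T x).re < g (T x).im → x ∉ closure D := by
    intro x hx hlt hcl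
    have hop : IsOpen ({y : E2 | (T y).re < g (T y).im} ∩ ball 0 ρ) :=
      (isOpen_lt (continuous_re.comp T.continuous)
        (hg.continuous.comp (continuous_im.comp T.continuous))).inter isOpen_ball
    obtain ⟨y, hy, hyD⟩ := mem_closure_iff.mp hcl _ hop ⟨hlt, hx⟩
    have h1 := (hD' y hy.2).mp hyD
    rw [mem_Dom] at h1
    exact absurd hy.1 (not_lt.mpr h1.le)
  have h0D : (0 : E2) ∉ D := by
    intro h
    rw [hDo.frontier_eq] at h0
    exact h0.2 h
  have hg0 : g 0 = 0 := by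
    apply le_antisymm
    · by_contra hlt
      rw [not_le] at hlt
      apply hext 0 (mem_ball_self hρ) _ (frontier_subset_closure h0)
      simpa using hlt
    · by_contra hlt
      rw [not_le] at hlt
      apply h0D
      rw [hD' 0 (mem_ball_self hρ), mem_Dom]
      simpa using hlt
  have hgL : LipFun g L := by
    refine ⟨L.2, ?_, hg0⟩
    intro s t
    have := hg.dist_le_mul s t
    rwa [Real.dist_eq, Real.dist_eq] at this
  set δ : ℝ := min ρ 2 with hδdef
  have hδ : 0 < δ := by positivity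
  have hδρ : δ ≤ ρ := min_le_left _ _
  have hδ2 : δ ≤ 2 := min_le_right _ _
  -- the direction
  set ω : ℂ := ⟨(T.symm 1) 0, -(T.symm I) 0⟩ with hωdef
  have hωz : ∀ z : ℂ, (T.symm z) 0 = (ω * z).re := by
    intro z
    have h1 : z = z.re • (1 : ℂ) + z.im • I := by
      apply Complex.ext <;> simp
    have h2 : T.symm z = z.re • T.symm 1 + z.im • T.symm I := by
      conv_lhs => rw [h1]
      rw [map_add, map_smul, map_smul]
    rw [h2]
    simp [hωdef]
    ring
  have hω : ‖ω‖ = 1 := by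
    set A : ℂ →L[ℝ] ℝ := (EuclideanSpace.proj (0 : Fin 2)).comp
      (T.symm.toContinuousLinearEquiv : ℂ →L[ℝ] E2) with hA
    have hAz : ∀ z, A z = (T.symm z) 0 := by intro z; rfl
    have h1 := sum_pairing T A A
    rw [Fin.sum_univ_two] at h1
    simp only [hAz, LinearIsometryEquiv.symm_apply_apply] at h1
    have h2 : ‖ω‖ ^ 2 = 1 := by
      rw [← Complex.normSq_eq_norm_sq, Complex.normSq_apply, hωdef]
      simp only
      simp at h1
      linarith
    have h3 := norm_nonneg ω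
    nlinarith
  set U : ℂ → ℝ := fun z => u (T.symm z) with hU
  have hUcd : ContDiffOn ℝ 1 U (ball 0 2) := by
    apply hu.comp T.symm.contDiff.contDiffOn
    intro z hz
    exact hTsball.mpr hz
  have hUδ : ContDiffOn ℝ 1 U (ball 0 δ) := hUcd.mono (ball_subset_ball hδ2)
  have hfd : ∀ x v, fderiv ℝ u x v = fderiv ℝ U (T x) (T v) := by
    intro x v
    have h1 : u = U ∘ T.toContinuousLinearEquiv := by
      funext y; simp [hU]
    rw [h1, T.toContinuousLinearEquiv.comp_right_fderiv]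
    simp
  have hweak' : ∀ φ : ℂ → ℝ, ContDiff ℝ 1 φ → HasCompactSupport φ →
      tsupport φ ⊆ Dom g ∩ ball 0 δ →
      ∫ z, (fderiv ℝ U z 1 * fderiv ℝ φ z 1 + fderiv ℝ U z I * fderiv ℝ φ z I) =
        -∫ z, (ω * z).re * φ z := by
    intro φ hφ hφc hφs
    have hψ : ContDiff ℝ 1 (fun x => φ (T x)) := hφ.comp T.contDiff
    have hts : tsupport (fun x => φ (T x)) ⊆ T ⁻¹' (tsupport φ) :=
      tsupport_comp_subset_preimage φ T.continuous
    have hψc : HasCompactSupport (fun x => φ (T x)) :=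
      hφc.comp_homeomorph T.toHomeomorph
    have hψs : tsupport (fun x => φ (T x)) ⊆ ball 0 2 := by
      intro x hx
      exact hTball.mp (ball_subset_ball hδ2 (hφs (hts hx)).2)
    have h1 := hweak _ hψ hψc hψs
    have hfdφ : ∀ x v, fderiv ℝ (fun x => φ (T x)) x v = fderiv ℝ φ (T x) (T v) := by
      intro x v
      have h1 : (fun x => φ (T x)) = φ ∘ T.toContinuousLinearEquiv := by
        funext y; simp
      rw [h1, T.toContinuousLinearEquiv.comp_right_fderiv]
      simp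
    have hmp := T.measurePreserving
    have hL : ∫ x, (∑ i : Fin 2, fderiv ℝ u x (EuclideanSpace.single i (1 : ℝ))
              * fderiv ℝ (fun x => φ (T x)) x (EuclideanSpace.single i (1 : ℝ))) =
        ∫ z, (fderiv ℝ U z 1 * fderiv ℝ φ z 1 + fderiv ℝ U z I * fderiv ℝ φ z I) := by
      rw [← hmp.integral_comp T.toHomeomorph.measurableEmbedding]
      congr 1
      funext x
      rw [← sum_pairing T (fderiv ℝ U (T x)) (fderiv ℝ φ (T x))]
      apply Finset.sum_congr rfl
      intro i _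
      rw [hfd, hfdφ]
    have hR : ∫ x, EuclideanSpace.proj (0 : Fin 2) x
              * D.indicator (fun _ => (1 : ℝ)) x * φ (T x) = ∫ z, (ω * z).re * φ z := by
      rw [← hmp.integral_comp T.toHomeomorph.measurableEmbedding]
      congr 1
      funext x
      by_cases hx : T x ∈ tsupport φ
      · have h2 := hφs hx
        have h3 : x ∈ D := (hD' x (ball_subset_ball hδρ (hTball.mp h2.2))).mpr h2.1
        rw [indicator_of_mem h3, ← hωz, LinearIsometryEquiv.symm_apply_apply]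
        simp
      · have h2 : φ (T x) = 0 := image_eq_zero_of_notMem_tsupport hx
        rw [h2]; simp
    rw [hL, hR] at h1
    exact h1
  have hzero' : ∀ z ∈ ball (0 : ℂ) δ, z.re < g z.im → U z = 0 := by
    intro z hz hlt
    apply hzero
    · exact hTsball.mpr (ball_subset_ball hδ2 hz)
    · apply hext _ (hTsball.mpr (ball_subset_ball hδρ hz))
      simpa using hlt
  obtain ⟨hGD, hU0⟩ := gdata_of_weak hgL hδ hω hUδ hweak' hzero'
  refine ⟨T, g, L, δ, ω, hGD, ?_, ?_⟩
  · intro z hz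
    exact (hUδ.differentiableOn (by simp)).differentiableAt (isOpen_ball.mem_nhds hz)
  · simpa [hU] using hU0

end Pool.Agent.Blowup
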