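import Pool.Agent.Blowup.Conv3

/-!
The slope of the boundary at the origin.
-/

open Complex Set Filter Topology Metric
open scoped ComplexConjugate

namespace Pool.Agent.Blowup

variable {g : ℝ → ℝ} {L δ : ℝ} {ω : ℂ} {G : ℂ → ℂ}

lemma ofReal_add_I_ne_zero (s : ℝ) : (s : ℂ) + I ≠ 0 := by
  intro h
  have := congrArg Complex.im h
  simp at this

lemma gam_slope_inj {ω : ℂ} (hω : ω ≠ 0) {s s' : ℝ}
    (h : gam ω ((s : ℂ) + I) = gam ω ((s' : ℂ) + I)) : s = s' := by
  have hz := ofReal_add_I_ne_zero s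
  have hz' := ofReal_add_I_ne_zero s'
  rw [gam_eq_par hω hz, gam_eq_par hω hz'] at h
  have h1 := par_inj (norm_conj_div (mul_ne_zero hω hz)) (norm_conj_div (mul_ne_zero hω hz')) h
  have hcω : conj ω ≠ 0 := by simpa using hω
  rw [div_eq_div_iff (mul_ne_zero hω hz) (mul_ne_zero hω hz'), map_mul, map_mul] at h1
  have h2 : (conj ω * ω) * (conj ((s : ℂ) + I) * ((s' : ℂ) + I)) =
      (conj ω * ω) * (conj ((s' : ℂ) + I) * ((s : ℂ) + I)) := by linear_combination h1
  have h3 := mul_left_cancel₀ (mul_ne_zero hcω hω) h2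
  have h4 := congrArg Complex.im h3
  simp at h4
  linarith

/-- The boundary graph is differentiable at the origin, and the limit of `Q` is determined by
its slope. -/
theorem GData.slope (H : GData g L δ ω G) : ∃ c : ℂ, ∃ σ : ℝ, c = gam ω ((σ : ℂ) + I) ∧
    (∀ ε : ℝ, 0 < ε → ∃ r > 0, ∀ z ∈ CDom g, z ≠ 0 → ‖z‖ < r → ‖QQ ω G z - c‖ ≤ ε) ∧
    (∀ ε : ℝ, 0 < ε → ∃ r > 0, ∀ y : ℝ, |y| < r → |g y - σ * y| ≤ ε * |y|) := by
  have hδ := H.hδ
  have hL := H.lip.hL
  obtain ⟨c, hcG, hconv⟩ := H.conv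
  obtain ⟨z1, hz1, hz1c⟩ := hcG
  have hz1im : z1.im ≠ 0 := by
    intro h0
    have h1 := hz1.2
    rw [h0, abs_zero, mul_zero] at h1
    exact KS_ne_zero hz1 (Complex.ext (abs_nonpos_iff.mp h1) h0)
  set σ : ℝ := z1.re / z1.im with hσ
  have hz1eq : z1 = (z1.im : ℂ) * ((σ : ℂ) + I) := by
    apply Complex.ext
    · simp [hσ, mul_div_cancel₀ _ hz1im]
    · simp
  have hcσ : c = gam ω ((σ : ℂ) + I) := by
    rw [← hz1c]
    conv_lhs => rw [hz1eq]
    exact gam_smul hz1im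
  refine ⟨c, σ, hcσ, hconv, ?_⟩
  -- the slope function
  set sl : ℝ → ℝ := fun y => g y / y with hsl
  have hslmem : ∀ᶠ y in 𝓝[≠] (0 : ℝ), sl y ∈ Icc (-L) L := by
    filter_upwards [self_mem_nhdsWithin] with y hy
    have hy' : 0 < |y| := abs_pos.mpr hy
    have h1 := H.lip.abs_g_le y
    have h2 : |sl y| ≤ L := by
      rw [hsl, abs_div, div_le_iff₀ hy']
      exact h1
    exact abs_le.mp h2
  have hUc : Continuous fun s : ℝ => gam ω ((s : ℂ) + I) := by
    rw [continuous_iff_continuousAt]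
    intro s
    have h1 : ContinuousAt (gam ω) ((s : ℂ) + I) := by
      apply (continuousOn_gam H.omega_ne).continuousAt
      exact isOpen_ne.mem_nhds (ofReal_add_I_ne_zero s)
    have h2 : ContinuousAt (fun s : ℝ => (s : ℂ) + I) s :=
      (continuous_ofReal.add continuous_const).continuousAt
    exact h1.comp (f := fun s : ℝ => (s : ℂ) + I) h2
  have hUlim : Tendsto (fun y : ℝ => gam ω ((sl y : ℂ) + I)) (𝓝[≠] 0) (𝓝 c) := by
    rw [Metric.tendsto_nhdsWithin_nhds]
    intro ε hε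
    obtain ⟨r, hr, hr'⟩ := hconv (ε / 2) (by positivity)
    refine ⟨min (r / (1 + L)) (δ / (1 + L)), by positivity, ?_⟩
    intro y hy hyr
    have hy0 : y ≠ 0 := hy
    rw [dist_zero_right, Real.norm_eq_abs] at hyr
    set z : ℂ := ((g y : ℝ) : ℂ) + (y : ℂ) * I with hz
    have hzre : z.re = g y := by simp [hz]
    have hzim : z.im = y := by simp [hz]
    have hzn : ‖z‖ ≤ (1 + L) * |y| := by
      calc ‖z‖ ≤ ‖((g y : ℝ) : ℂ)‖ + ‖(y : ℂ) * I‖ := norm_add_le _ _
        _ = |g y| + |y| := by rw [norm_mul, norm_I, mul_one, norm_real, norm_real]; rfl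
        _ ≤ (1 + L) * |y| := by linarith [H.lip.abs_g_le y]
    have hzne : z ≠ 0 := by
      intro h0
      rw [h0] at hzim
      exact hy0 hzim.symm
    have hzr : ‖z‖ < r := by
      have h1 : |y| < r / (1 + L) := hyr.trans_le (min_le_left _ _)
      rw [lt_div_iff₀ (by positivity)] at h1
      linarith
    have hzδ : ‖z‖ < δ := by
      have h1 : |y| < δ / (1 + L) := hyr.trans_le (min_le_right _ _)
      rw [lt_div_iff₀ (by positivity)] at h1
      linarith
    have hzg : z.re = g z.im := by rw [hzre, hzim]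
    have h2 := hr' z (by rw [mem_CDom]; exact hzg.ge) hzne hzr
    rw [H.QQ_bdry (by rwa [mem_ball_zero_iff]) (not_mem_Dom_of_eq hzg)] at h2
    have h3 : z = (y : ℂ) * ((sl y : ℂ) + I) := by
      apply Complex.ext
      · simp [hzre, hsl, mul_div_cancel₀ _ hy0]
      · simp [hzim]
    rw [h3, gam_smul hy0] at h2
    rw [dist_eq_norm]
    linarith
  have hsllim : Tendsto sl (𝓝[≠] 0) (𝓝 σ) := by
    apply isCompact_Icc.tendsto_nhds_of_unique_mapClusterPt hslmem
    intro s _ hs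
    have h1 : MapClusterPt (gam ω ((s : ℂ) + I)) (𝓝[≠] 0)
        ((fun s : ℝ => gam ω ((s : ℂ) + I)) ∘ sl) :=
      hs.continuousAt_comp (f := fun s : ℝ => gam ω ((s : ℂ) + I)) hUc.continuousAt
    have h2 : ClusterPt (gam ω ((s : ℂ) + I)) (𝓝 c) := ClusterPt.mono h1 hUlim
    have h3 : gam ω ((s : ℂ) + I) = c := by
      have : (𝓝 (gam ω ((s : ℂ) + I)) ⊓ 𝓝 c).NeBot := h2
      exact eq_of_nhds_neBot this
    exact gam_slope_inj H.omega_ne (h3.trans hcσ)
  intro ε hε
  rw [Metric.tendsto_nhdsWithin_nhds] at hsllim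
  obtain ⟨r, hr, hr'⟩ := hsllim ε hε
  refine ⟨r, hr, fun y hy => ?_⟩
  by_cases hy0 : y = 0
  · subst hy0
    simp [H.lip.zero]
  · have h1 := hr' (x := y) hy0 (by rwa [dist_zero_right, Real.norm_eq_abs])
    rw [Real.dist_eq] at h1
    have h2 : g y - σ * y = (sl y - σ) * y := by
      rw [hsl]; field_simp
    rw [h2, abs_mul]
    exact mul_le_mul_of_nonneg_right h1.le (abs_nonneg _)

end Pool.Agent.Blowup
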