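import Pool.Agent.Blowup.Cluster

/-!
Slow variation of `Q` in the interior.
-/

open Complex Set Filter Topology Metric
open scoped ComplexConjugate

namespace Pool.Agent.Blowup

variable {g : ℝ → ℝ} {L δ : ℝ} {ω : ℂ} {G : ℂ → ℂ}

/-- A quantitative open mapping theorem. -/
lemma open_map_quant {h : ℂ → ℂ} {z : ℂ} {R C : ℝ} (hR : 0 < R) (hC : 0 < C)
    (hd : DifferentiableOn ℂ h (ball z R)) (hb : ∀ w ∈ ball z R, ‖h w‖ ≤ C)
    (hder : deriv h z ≠ 0) :
    ball (h z) ((‖deriv h z‖ * R) ^ 2 / (56 * C)) ⊆ h '' ball z R := by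
  set a : ℝ := ‖deriv h z‖ with ha
  have hapos : 0 < a := norm_pos_iff.mpr hder
  have hzmem : z ∈ ball z R := mem_ball_self hR
  have hmaps : MapsTo h (ball z R) (ball (h z) (3 * C)) := by
    intro w hw
    rw [mem_ball, dist_eq_norm]
    calc ‖h w - h z‖ ≤ ‖h w‖ + ‖h z‖ := norm_sub_le _ _
      _ ≤ C + C := add_le_add (hb w hw) (hb z hzmem)
      _ < 3 * C := by linarith
  set k : ℂ → ℂ := dslope h z with hk
  have hkz : k z = deriv h z := dslope_same _ _
  have hkb : ∀ w ∈ ball z R, ‖k w‖ ≤ 3 * C / R := fun w hw =>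
    norm_dslope_le_div_of_mapsTo_ball hd (hmaps.mono_right ball_subset_closedBall) hw
  have hkd : DifferentiableOn ℂ k (ball z R) :=
    (differentiableOn_dslope (ball_mem_nhds z hR)).mpr hd
  have hkmaps : MapsTo k (ball z R) (ball (k z) (7 * C / R)) := by
    intro w hw
    rw [mem_ball, dist_eq_norm]
    calc ‖k w - k z‖ ≤ ‖k w‖ + ‖k z‖ := norm_sub_le _ _
      _ ≤ 3 * C / R + 3 * C / R := add_le_add (hkb w hw) (hkb z hzmem)
      _ = 6 * C / R := by ring
      _ < 7 * C / R := by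
          apply div_lt_div_of_pos_right _ hR
          linarith
  have haR : a * R ≤ 3 * C := by
    have := hkb z hzmem
    rw [hkz, ← ha, le_div_iff₀ hR] at this
    exact this
  set ρ : ℝ := a * R ^ 2 / (14 * C) with hρ
  have hρpos : 0 < ρ := by positivity
  have hρR : ρ < R := by
    rw [hρ, div_lt_iff₀ (by positivity)]
    nlinarith
  have hlow : ∀ w ∈ sphere z ρ, (a * R) ^ 2 / (28 * C) ≤ ‖h w - h z‖ := by
    intro w hw
    rw [mem_sphere] at hw
    have hwR : w ∈ ball z R := by rw [mem_ball, hw]; exact hρR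
    have h1 := dist_le_div_mul_dist_of_mapsTo_ball hkd (hkmaps.mono_right ball_subset_closedBall) hwR
    rw [hw, dist_eq_norm] at h1
    have h2 : (w - z) • k w = h w - h z := sub_smul_dslope h z w
    have h3 : ‖h w - h z‖ = ρ * ‖k w‖ := by
      rw [← h2, norm_smul, ← dist_eq_norm, hw]
    have h4 : a - 7 * C / R / R * ρ ≤ ‖k w‖ := by
      have := norm_sub_norm_le (k z) (k w)
      rw [norm_sub_rev, hkz, ← ha] at this
      rw [hkz] at h1
      linarith
    have h5 : 7 * C / R / R * ρ = a / 2 := by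
      rw [hρ]; field_simp; norm_num
    rw [h5] at h4
    rw [h3]
    calc (a * R) ^ 2 / (28 * C) = ρ * (a / 2) := by rw [hρ]; field_simp; norm_num
      _ ≤ ρ * ‖k w‖ := by
          apply mul_le_mul_of_nonneg_left _ hρpos.le
          linarith
  have hcl : closedBall z ρ ⊆ ball z R := closedBall_subset_ball hρR
  have hdc : DiffContOnCl ℂ h (ball z ρ) := by
    apply DifferentiableOn.diffContOnCl
    exact hd.mono ((closure_ball_subset_closedBall).trans hcl)
  have hne : ∃ᶠ w in 𝓝 z, h w ≠ h z := by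
    have hda : DifferentiableAt ℂ h z := hd.differentiableAt (ball_mem_nhds z hR)
    have h6 : ∀ᶠ w in 𝓝[≠] z, h w ≠ h z := hda.hasDerivAt.eventually_ne hder
    exact (h6.frequently).filter_mono nhdsWithin_le_nhds
  have h7 := hdc.ball_subset_image_closedBall hρpos hlow hne
  have h8 : (a * R) ^ 2 / (28 * C) / 2 = (a * R) ^ 2 / (56 * C) := by
    rw [div_div]; congr 1; ring
  rw [h8] at h7
  exact h7.trans (image_mono hcl)

/-- The function `FF` is not uniformly small on large discs. -/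
lemma FF_ball {w0 : ℂ} {τ ε : ℝ} (hτ : 0 < τ) (h : ∀ w ∈ ball w0 τ, |FF w| ≤ ε) :
    τ ^ 2 ≤ 9 * ε := by
  obtain ⟨e, he, hw0⟩ : ∃ e : ℂ, ‖e‖ = 1 ∧ w0 = (‖w0‖ : ℂ) * e := by
    by_cases h0 : w0 = 0
    · exact ⟨1, by simp, by simp [h0]⟩
    · have hn : (‖w0‖ : ℂ) ≠ 0 := by
        exact_mod_cast norm_ne_zero_iff.mpr h0
      refine ⟨w0 / ‖w0‖, ?_, ?_⟩
      · rw [norm_div, norm_real, norm_norm, div_self (norm_ne_zero_iff.mpr h0)]
      · rw [mul_div_cancel₀ _ hn]
  set ρ : ℝ := ‖w0‖ with hρ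
  have hρ0 : 0 ≤ ρ := norm_nonneg _
  have hval : ∀ s : ℝ, 0 ≤ s → FF ((s : ℂ) * e) = 2 * s ^ 2 - s - s * e.re := by
    intro s hs
    unfold FF
    rw [norm_mul, norm_real, he, Real.norm_of_nonneg hs, re_ofReal_mul]
    ring
  have hmem : ∀ s : ℝ, 0 ≤ s → s < τ → (((ρ + s : ℝ)) : ℂ) * e ∈ ball w0 τ := by
    intro s hs hsτ
    rw [mem_ball, dist_eq_norm]
    have : (((ρ + s : ℝ)) : ℂ) * e - w0 = (s : ℂ) * e := by
      conv_lhs => rw [hw0]
      push_cast
      ring
    rw [this, norm_mul, norm_real, he, Real.norm_of_nonneg hs, mul_one]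
    exact hsτ
  have h0 := h _ (hmem 0 le_rfl hτ)
  have h1 := h _ (hmem (τ / 3) (by positivity) (by linarith))
  have h2 := h _ (hmem (2 * τ / 3) (by positivity) (by linarith))
  rw [hval _ (by positivity)] at h0 h1 h2
  have a0 := (abs_le.mp h0).2
  have a1 := (abs_le.mp h1).1
  have a2 := (abs_le.mp h2).2
  nlinarith

/-- Slow variation of `Q`. -/
theorem GData.slow (H : GData g L δ ω G) {κ ε : ℝ} (hκ : 0 < κ) (hκ1 : κ ≤ 1) (hε : 0 < ε) :
    ∃ r > 0, ∀ z ∈ Dom g, ‖z‖ < r → ball z (κ * ‖z‖) ⊆ Dom g →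
      ‖deriv (QQ ω G) z‖ * ‖z‖ ≤ ε := by
  obtain ⟨C, hC1, hC⟩ := H.norm_QQ_le
  have hδ := H.hδ
  set τ : ℝ := (κ * ε) ^ 2 / (56 * C) with hτ
  have hτpos : 0 < τ := by positivity
  have hsmall := H.FF_small (ε := τ ^ 2 / 10) (by positivity)
  rw [eventually_nhdsWithin_iff, Metric.eventually_nhds_iff] at hsmall
  obtain ⟨r1, hr1, hsmall⟩ := hsmall
  refine ⟨min (r1 / 2) (δ / 4), by positivity, ?_⟩
  intro z hz hzr hball
  have hz0 : z ≠ 0 := by rintro rfl; exact H.lip.zero_notMem hz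
  have hzpos : 0 < ‖z‖ := norm_pos_iff.mpr hz0
  have hzr1 : ‖z‖ < r1 / 2 := hzr.trans_le (min_le_left _ _)
  have hzδ : ‖z‖ < δ / 4 := hzr.trans_le (min_le_right _ _)
  set R : ℝ := κ * ‖z‖ with hR
  have hRpos : 0 < R := by positivity
  have hw2 : ∀ w ∈ ball z R, ‖w‖ < 2 * ‖z‖ := by
    intro w hw
    rw [mem_ball, dist_eq_norm] at hw
    calc ‖w‖ = ‖(w - z) + z‖ := by rw [sub_add_cancel]
      _ ≤ ‖w - z‖ + ‖z‖ := norm_add_le _ _
      _ < R + ‖z‖ := by linarith
      _ ≤ 2 * ‖z‖ := by nlinarith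
  by_contra hcon
  push Not at hcon
  have hder : deriv (QQ ω G) z ≠ 0 := by
    intro h0
    rw [h0, norm_zero, zero_mul] at hcon
    linarith
  have hd : DifferentiableOn ℂ (QQ ω G) (ball z R) := by
    apply H.differentiableOn_QQ.mono
    intro w hw
    refine ⟨hball hw, ?_⟩
    rw [mem_ball_zero_iff]
    have := hw2 w hw
    linarith
  have hb : ∀ w ∈ ball z R, ‖QQ ω G w‖ ≤ C := by
    intro w hw
    apply hC w (Dom_subset_CDom (hball hw))
    · rintro rfl; exact H.lip.zero_notMem (hball hw)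
    · have := hw2 w hw
      linarith
  have h1 := open_map_quant hRpos (by linarith : 0 < C) hd hb hder
  have h2 : ball (QQ ω G z) τ ⊆ ball (QQ ω G z) ((‖deriv (QQ ω G) z‖ * R) ^ 2 / (56 * C)) := by
    apply ball_subset_ball
    rw [hτ]
    apply div_le_div_of_nonneg_right _ (by positivity)
    apply pow_le_pow_left₀ (by positivity)
    rw [hR]
    nlinarith
  have h3 : ∀ w ∈ ball (QQ ω G z) τ, |FF w| ≤ τ ^ 2 / 10 := by
    intro w hw
    obtain ⟨v, hv, rfl⟩ := h1 (h2 hw)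
    apply le_of_lt
    apply hsmall _ (hball hv)
    rw [dist_zero_right]
    have := hw2 v hv
    linarith
  have h4 := FF_ball hτpos h3
  nlinarith

end Pool.Agent.Blowup
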