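import Pool.Agent.Blowup.Weyl
import Pool.Agent.Blowup.Blow

/-!
From the weak formulation to holomorphy of `G`.
-/

open Complex Set Filter Topology Metric MeasureTheory
open scoped ComplexConjugate

namespace Pool.Agent.Blowup

variable {Ω : Set ℂ}

lemma integrable_mul_of_tsupport (hΩ : IsOpen Ω) {h ψ : ℂ → ℝ} (hh : ContinuousOn h Ω)
    (hψ : Continuous ψ) (hc : HasCompactSupport ψ) (hs : tsupport ψ ⊆ Ω) :
    Integrable (fun z => h z * ψ z) := by
  apply Continuous.integrable_of_hasCompactSupport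
  · rw [continuous_iff_continuousAt]
    intro x
    by_cases hx : x ∈ Ω
    · exact (hh.continuousAt (hΩ.mem_nhds hx)).mul hψ.continuousAt
    · have hx' : x ∉ tsupport ψ := fun h => hx (hs h)
      have h1 : (fun z => h z * ψ z) =ᶠ[𝓝 x] fun _ => 0 := by
        filter_upwards [notMem_tsupport_iff_eventuallyEq.mp hx'] with z hz
        rw [hz]; simp
      exact continuousAt_const.congr h1.symm
  · exact hc.mul_left

lemma tsupport_fderiv_apply_subset' (ψ : ℂ → ℝ) (v : ℂ) :
    tsupport (fun z => fderiv ℝ ψ z v) ⊆ tsupport ψ := by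
  refine (closure_mono ?_).trans (tsupport_fderiv_subset ℝ)
  intro z hz
  rw [Function.mem_support] at *
  intro h0
  apply hz
  rw [h0]; simp

/-- Integration by parts against a test function. -/
lemma ibp (hΩ : IsOpen Ω) {h ψ : ℂ → ℝ} (hh : ContDiffOn ℝ 1 h Ω) (hψ : ContDiff ℝ 1 ψ)
    (hc : HasCompactSupport ψ) (hs : tsupport ψ ⊆ Ω) (v : ℂ) :
    ∫ z, h z * fderiv ℝ ψ z v = -∫ z, fderiv ℝ h z v * ψ z := by
  have hdψ : Continuous fun z => fderiv ℝ ψ z v :=
    (hψ.continuous_fderiv (by simp)).clm_apply continuous_const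
  have hdh : ContinuousOn (fun z => fderiv ℝ h z v) Ω :=
    (hh.continuousOn_fderiv_of_isOpen hΩ (by simp)).clm_apply continuousOn_const
  have hdψs : tsupport (fun z => fderiv ℝ ψ z v) ⊆ tsupport ψ :=
    tsupport_fderiv_apply_subset' ψ v
  have hdψc : HasCompactSupport fun z => fderiv ℝ ψ z v :=
    HasCompactSupport.of_support_subset_isCompact hc ((subset_tsupport _).trans hdψs)
  apply integral_mul_fderiv_eq_neg_fderiv_mul_of_integrable
  · exact integrable_mul_of_tsupport hΩ hdh hψ.continuous hc hs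
  · exact integrable_mul_of_tsupport hΩ hh.continuousOn hdψ hdψc (hdψs.trans hs)
  · exact integrable_mul_of_tsupport hΩ hh.continuousOn hψ.continuous hc hs
  · intro x hx
    exact (hh.differentiableOn (by simp)).differentiableAt (hΩ.mem_nhds (hs hx))
  · intro x _
    exact (hψ.differentiable (by simp)) x

/-- **Holomorphy of `G`.** -/
theorem holo_of_weak (hΩ : IsOpen Ω) {u : ℂ → ℝ} {ω : ℂ} (hu : ContDiffOn ℝ 1 u Ω)
    (hweak : ∀ φ : ℂ → ℝ, ContDiff ℝ 1 φ → HasCompactSupport φ → tsupport φ ⊆ Ω →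
      ∫ z, (fderiv ℝ u z 1 * fderiv ℝ φ z 1 + fderiv ℝ u z I * fderiv ℝ φ z I) =
        -∫ z, (ω * z).re * φ z) :
    DifferentiableOn ℂ (GG ω u) Ω := by
  have hdu : ∀ v, ContinuousOn (fun z => fderiv ℝ u z v) Ω := fun v =>
    (hu.continuousOn_fderiv_of_isOpen hΩ (by simp)).clm_apply continuousOn_const
  apply weyl_dbar hΩ
  · unfold GG WW
    apply ContinuousOn.sub
    · exact (Continuous.continuousOn (by fun_prop))
    · apply ContinuousOn.mul continuousOn_const
      exact (continuous_ofReal.comp_continuousOn (hdu 1)).sub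
        (continuousOn_const.mul (continuous_ofReal.comp_continuousOn (hdu I)))
  · intro φ hφ hφc hφs
    have hφ2 : ContDiff ℝ 2 φ := contDiff_infty.mp hφ 2
    have hφ1 : ContDiff ℝ 1 φ := hφ2.of_le (by norm_num)
    have hdφ : ∀ v, ContDiff ℝ 1 fun z => fderiv ℝ φ z v := fun v =>
      (hφ2.fderiv_right (m := 1) (by norm_num)).clm_apply contDiff_const
    have hdφs : ∀ v, tsupport (fun z => fderiv ℝ φ z v) ⊆ Ω := fun v =>
      (tsupport_fderiv_apply_subset' φ v).trans hφs
    have hdφc : ∀ v, HasCompactSupport fun z => fderiv ℝ φ z v := fun v =>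
      HasCompactSupport.of_support_subset_isCompact hφc
        ((subset_tsupport _).trans (tsupport_fderiv_apply_subset' φ v))
    -- the quadratic function
    set q : ℂ → ℝ := fun z => (ω * z).re ^ 2 with hq
    have hls : ContDiff ℝ 1 fun z : ℂ => (ω * z).re :=
      Complex.reCLM.contDiff.comp (contDiff_const.mul contDiff_id)
    have hqs : ContDiff ℝ 1 q := hls.pow 2
    have hqd : ∀ z v, fderiv ℝ q z v = 2 * (ω * z).re * (ω * v).re := by
      intro z v
      have h1 : HasFDerivAt (fun z : ℂ => (ω * z).re)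
          (Complex.reCLM.comp (ω • ContinuousLinearMap.id ℝ ℂ)) z := by
        have h2 : HasFDerivAt (fun z : ℂ => ω * z) (ω • ContinuousLinearMap.id ℝ ℂ) z :=
          (hasFDerivAt_id (𝕜 := ℝ) z).const_smul ω
        exact Complex.reCLM.hasFDerivAt.comp z h2
      have h3 : fderiv ℝ q z = _ := (h1.pow 2).fderiv
      rw [h3]
      simp
    -- integrals
    have hA : ∀ v, ∫ z, q z * fderiv ℝ φ z v = -(2 * (ω * v).re * ∫ z, (ω * z).re * φ z) := by
      intro v
      rw [ibp isOpen_univ hqs.contDiffOn hφ1 hφc (subset_univ _) v]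
      rw [← integral_const_mul]
      congr 1
      apply integral_congr_ae
      apply Eventually.of_forall
      intro z
      simp only [hqd]
      ring
    have hB := hweak φ hφ1 hφc hφs
    have hsymm : ∀ z, fderiv ℝ (fun z => fderiv ℝ φ z I) z 1 = fderiv ℝ (fun z => fderiv ℝ φ z 1) z I := by
      intro z
      have hd : DifferentiableAt ℝ (fderiv ℝ φ) z :=
        (hφ2.fderiv_right (m := 1) (by norm_num)).differentiable (by norm_num) z
      have h1 : ∀ v : ℂ, fderiv ℝ (fun z => fderiv ℝ φ z v) z = (fderiv ℝ (fderiv ℝ φ) z).flip v := by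
        intro v
        ext w
        rw [fderiv_clm_apply hd (differentiableAt_const v)]
        simp
      rw [h1, h1]
      simp only [ContinuousLinearMap.flip_apply]
      have h2 : IsSymmSndFDerivAt ℝ φ z := hφ2.contDiffAt.isSymmSndFDerivAt (by simp)
      exact h2.eq 1 I
    have hC : ∫ z, (fderiv ℝ u z 1 * fderiv ℝ φ z I) = ∫ z, fderiv ℝ u z I * fderiv ℝ φ z 1 := by
      have e1 := ibp hΩ hu (hdφ I) (hdφc I) (hdφs I) 1
      have e2 := ibp hΩ hu (hdφ 1) (hdφc 1) (hdφs 1) I
      have e3 : ∫ z, u z * fderiv ℝ (fun z => fderiv ℝ φ z I) z 1 =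
          ∫ z, u z * fderiv ℝ (fun z => fderiv ℝ φ z 1) z I := by
        congr 1; funext z; rw [hsymm]
      linarith [e1, e2, e3]
    -- integrability
    have hdφcont : ∀ v, Continuous fun z => fderiv ℝ φ z v := fun v => (hdφ v).continuous
    have iA : ∀ v, Integrable fun z => q z * fderiv ℝ φ z v := fun v =>
      integrable_mul_of_tsupport hΩ hqs.continuous.continuousOn (hdφcont v) (hdφc v) (hdφs v)
    have iB : ∀ v w, Integrable fun z => fderiv ℝ u z v * fderiv ℝ φ z w := fun v w =>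
      integrable_mul_of_tsupport hΩ (hdu v) (hdφcont w) (hdφc w) (hdφs w)
    have key : ∀ z, (((fderiv ℝ φ z 1 : ℝ) : ℂ) * GG ω u z +
        I * (((fderiv ℝ φ z I : ℝ) : ℂ) * GG ω u z)) =
        ((q z * fderiv ℝ φ z 1 : ℝ) : ℂ) + I * ((q z * fderiv ℝ φ z I : ℝ) : ℂ) -
        2 * conj ω * (((fderiv ℝ u z 1 * fderiv ℝ φ z 1 + fderiv ℝ u z I * fderiv ℝ φ z I : ℝ) : ℂ) +
          I * ((fderiv ℝ u z 1 * fderiv ℝ φ z I - fderiv ℝ u z I * fderiv ℝ φ z 1 : ℝ) : ℂ)) := by
      intro z
      simp only [GG, WW, hq]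
      push_cast
      ring_nf
      rw [I_sq]
      ring
    simp_rw [key]
    have iA' : ∀ v, Integrable fun z => ((q z * fderiv ℝ φ z v : ℝ) : ℂ) := fun v => (iA v).ofReal
    have iB1 : Integrable fun z => ((fderiv ℝ u z 1 * fderiv ℝ φ z 1 +
        fderiv ℝ u z I * fderiv ℝ φ z I : ℝ) : ℂ) := ((iB 1 1).add (iB I I)).ofReal
    have iB2 : Integrable fun z => ((fderiv ℝ u z 1 * fderiv ℝ φ z I -
        fderiv ℝ u z I * fderiv ℝ φ z 1 : ℝ) : ℂ) := ((iB 1 I).sub (iB I 1)).ofReal
    have iS1 : Integrable fun z => ((q z * fderiv ℝ φ z 1 : ℝ) : ℂ) +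
        I * ((q z * fderiv ℝ φ z I : ℝ) : ℂ) := (iA' 1).add ((iA' I).const_mul I)
    have iS2 : Integrable fun z => (((fderiv ℝ u z 1 * fderiv ℝ φ z 1 +
          fderiv ℝ u z I * fderiv ℝ φ z I : ℝ) : ℂ) +
          I * ((fderiv ℝ u z 1 * fderiv ℝ φ z I - fderiv ℝ u z I * fderiv ℝ φ z 1 : ℝ) : ℂ)) :=
      iB1.add (iB2.const_mul I)
    rw [integral_sub iS1 (iS2.const_mul _), integral_const_mul, integral_add iB1 (iB2.const_mul I),
      integral_add (iA' 1) ((iA' I).const_mul I), integral_const_mul, integral_const_mul,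
      integral_complex_ofReal, integral_complex_ofReal, integral_complex_ofReal,
      integral_complex_ofReal, hA, hA, hB,
      integral_sub (iB 1 I) (iB I 1), hC]
    have e1 : (ω * 1).re = ω.re := by simp
    have e2 : (ω * I).re = -ω.im := by simp
    rw [e1, e2]
    have e3 : conj ω = (ω.re : ℂ) - ω.im * I := by
      apply Complex.ext <;> simp
    rw [e3]
    push_cast
    ring_nf

end Pool.Agent.Blowup
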