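import Mathlib

/-!
A Weyl lemma for the Cauchy-Riemann operator.
-/

open Complex Set Filter Topology Metric MeasureTheory
open scoped ContDiff Convolution

namespace Pool.Agent.Blowup

/-- The bilinear map `(w, s) ↦ s • w`. -/
noncomputable abbrev LL : ℂ →L[ℝ] ℝ →L[ℝ] ℂ := (ContinuousLinearMap.lsmul ℝ ℝ : ℝ →L[ℝ] ℂ →L[ℝ] ℂ).flip

/-- The mollified function is holomorphic. -/
lemma mollify_diff {Ω : Set ℂ} {f : ℂ → ℂ}
    (hweak : ∀ φ : ℂ → ℝ, ContDiff ℝ ∞ φ → HasCompactSupport φ → tsupport φ ⊆ Ω →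
      ∫ z, (((fderiv ℝ φ z 1 : ℝ) : ℂ) * f z + I * (((fderiv ℝ φ z I : ℝ) : ℂ) * f z)) = 0)
    {z0 : ℂ} {R : ℝ} (hR : closedBall z0 (2 * R) ⊆ Ω)
    (hint : Integrable (indicator (closedBall z0 (2 * R)) f))
    (ρ : ContDiffBump (0 : ℂ)) (hρ : ρ.rOut < R) {z : ℂ} (hz : z ∈ ball z0 R) :
    DifferentiableAt ℂ (indicator (closedBall z0 (2 * R)) f ⋆[LL, volume] (ρ.normed volume)) z := by
  set F : ℂ → ℂ := indicator (closedBall z0 (2 * R)) f with hF
  set k : ℂ → ℝ := ρ.normed volume with hk
  have hkc : HasCompactSupport k := ρ.hasCompactSupport_normed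
  have hks : ContDiff ℝ ∞ k := ρ.contDiff_normed
  have hk1 : ContDiff ℝ 1 k := hks.of_le (by simp)
  have hloc : LocallyIntegrable F volume := hint.locallyIntegrable
  have hder := hkc.hasFDerivAt_convolution_right LL hloc hk1 z
  have hdk : Continuous (fderiv ℝ k) := hk1.continuous_fderiv (by simp)
  have hval : ∀ v : ℂ, ((F ⋆[LL.precompR ℂ, volume] fderiv ℝ k) z) v =
      ∫ t, ((fderiv ℝ k (z - t) v : ℝ) : ℂ) * F t := by
    intro v
    rw [convolution_precompR_apply LL hloc (hkc.fderiv ℝ) hdk, convolution_def]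
    apply integral_congr_ae
    apply Eventually.of_forall
    intro t
    simp [LL]
  rw [differentiableAt_complex_iff_differentiableAt_real]
  refine ⟨hder.differentiableAt, ?_⟩
  rw [hder.fderiv, hval, hval]
  -- the test function
  set φ : ℂ → ℝ := fun t => k (z - t) with hφ
  have hφs : ContDiff ℝ ∞ φ := hks.comp (contDiff_const.sub contDiff_id)
  have hφd : ∀ t v, fderiv ℝ φ t v = -(fderiv ℝ k (z - t) v) := by
    intro t v
    have h1 : HasFDerivAt (fun t : ℂ => z - t) (-(ContinuousLinearMap.id ℝ ℂ)) t := by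
      simpa using (hasFDerivAt_id (𝕜 := ℝ) t).const_sub z
    have h2 : HasFDerivAt k (fderiv ℝ k (z - t)) (z - t) :=
      ((hk1.differentiable (by simp)) _).hasFDerivAt
    have h3 := h2.comp t h1
    have h4 : fderiv ℝ φ t = (fderiv ℝ k (z - t)).comp (-(ContinuousLinearMap.id ℝ ℂ)) := h3.fderiv
    rw [h4]
    simp
  have hφsupp : ∀ t, t ∉ closedBall z ρ.rOut → φ t = 0 := by
    intro t ht
    have : z - t ∉ Function.support k := by
      rw [hk, ρ.support_normed_eq, mem_ball_zero_iff]
      rw [mem_closedBall, dist_eq_norm, norm_sub_rev] at ht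
      linarith
    simpa using this
  have hφt : tsupport φ ⊆ closedBall z ρ.rOut := by
    apply closure_minimal _ isClosed_closedBall
    intro t ht
    by_contra hcon
    exact ht (hφsupp t hcon)
  have hsub : closedBall z ρ.rOut ⊆ closedBall z0 (2 * R) := by
    intro t ht
    rw [mem_closedBall] at *
    rw [mem_ball] at hz
    calc dist t z0 ≤ dist t z + dist z z0 := dist_triangle _ _ _
      _ ≤ 2 * R := by linarith
  have hφc : HasCompactSupport φ := HasCompactSupport.of_support_subset_isCompact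
    (isCompact_closedBall z ρ.rOut) (fun t ht => hφt (subset_tsupport _ ht))
  have hw := hweak φ hφs hφc (hφt.trans (hsub.trans hR))
  have hdφ0 : ∀ t, t ∉ closedBall z0 (2 * R) → fderiv ℝ φ t = 0 := by
    intro t ht
    have : t ∉ tsupport φ := fun h => ht (hsub (hφt h))
    exact fderiv_of_notMem_tsupport ℝ this
  have hfF : ∀ v t, ((fderiv ℝ φ t v : ℝ) : ℂ) * f t = ((fderiv ℝ φ t v : ℝ) : ℂ) * F t := by
    intro v t
    by_cases ht : t ∈ closedBall z0 (2 * R)
    · rw [hF, indicator_of_mem ht]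
    · rw [hdφ0 t ht]; simp
  -- integrability
  have hbdd : ∀ v, Integrable (fun t => ((fderiv ℝ k (z - t) v : ℝ) : ℂ) * F t) := by
    intro v
    have hcont : Continuous fun t => ((fderiv ℝ k (z - t) v : ℝ) : ℂ) := by fun_prop
    obtain ⟨M, hM⟩ : ∃ M, ∀ x, ‖fderiv ℝ k x‖ ≤ M :=
      (hkc.fderiv ℝ).exists_bound_of_continuous hdk
    apply hint.bdd_mul (c := M * ‖v‖) hcont.aestronglyMeasurable
    apply Eventually.of_forall
    intro t
    rw [norm_real]
    exact ((fderiv ℝ k (z - t)).le_opNorm v).trans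
      (mul_le_mul_of_nonneg_right (hM _) (norm_nonneg _))
  have h1 : ∫ t, (((fderiv ℝ φ t 1 : ℝ) : ℂ) * f t + I * (((fderiv ℝ φ t I : ℝ) : ℂ) * f t)) =
      -((∫ t, ((fderiv ℝ k (z - t) 1 : ℝ) : ℂ) * F t) +
        I * ∫ t, ((fderiv ℝ k (z - t) I : ℝ) : ℂ) * F t) := by
    have h2 : (fun t => (((fderiv ℝ φ t 1 : ℝ) : ℂ) * f t +
        I * (((fderiv ℝ φ t I : ℝ) : ℂ) * f t))) =
        fun t => -(((fderiv ℝ k (z - t) 1 : ℝ) : ℂ) * F t +
          I * (((fderiv ℝ k (z - t) I : ℝ) : ℂ) * F t)) := by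
      funext t
      rw [hfF, hfF, hφd, hφd]
      push_cast
      ring
    rw [h2, integral_neg, integral_add (hbdd 1) ((hbdd I).const_mul I), integral_const_mul]
  rw [h1, neg_eq_zero] at hw
  -- conclude
  set A := ∫ t, ((fderiv ℝ k (z - t) 1 : ℝ) : ℂ) * F t
  set B := ∫ t, ((fderiv ℝ k (z - t) I : ℝ) : ℂ) * F t
  have h5 : I * A - B = 0 := by
    have : I * (A + I * B) = 0 := by rw [hw, mul_zero]
    calc I * A - B = I * (A + I * B) := by
          have : I * (I * B) = -B := by rw [← mul_assoc, I_mul_I]; ring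
          rw [mul_add, this]; ring
      _ = 0 := this
  rw [smul_eq_mul]
  exact (sub_eq_zero.mp h5).symm

/-- **Weyl's lemma for the Cauchy-Riemann operator**, continuous functions. -/
theorem weyl_dbar {Ω : Set ℂ} (hΩ : IsOpen Ω) {f : ℂ → ℂ} (hf : ContinuousOn f Ω)
    (hweak : ∀ φ : ℂ → ℝ, ContDiff ℝ ∞ φ → HasCompactSupport φ → tsupport φ ⊆ Ω →
      ∫ z, (((fderiv ℝ φ z 1 : ℝ) : ℂ) * f z + I * (((fderiv ℝ φ z I : ℝ) : ℂ) * f z)) = 0) :
    DifferentiableOn ℂ f Ω := by
  intro z0 hz0
  apply DifferentiableAt.differentiableWithinAt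
  obtain ⟨R2, hR2, hR2'⟩ := Metric.nhds_basis_closedBall.mem_iff.mp (hΩ.mem_nhds hz0)
  set R : ℝ := R2 / 2 with hRdef
  have hR : 0 < R := by positivity
  have hsub : closedBall z0 (2 * R) ⊆ Ω := by
    rw [hRdef]; convert hR2' using 2; ring
  have hfc : ContinuousOn f (closedBall z0 (2 * R)) := hf.mono hsub
  have hint : Integrable (indicator (closedBall z0 (2 * R)) f) := by
    rw [integrable_indicator_iff measurableSet_closedBall]
    exact hfc.integrableOn_compact (isCompact_closedBall _ _)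
  -- the mollifiers
  set ρ : ℕ → ContDiffBump (0 : ℂ) := fun n =>
    ⟨R / (2 * ((n : ℝ) + 2)), R / ((n : ℝ) + 2), by positivity, by
      apply div_lt_div_of_pos_left hR (by positivity)
      have : (0 : ℝ) ≤ n := Nat.cast_nonneg n
      linarith⟩ with hρdef
  have hρout : ∀ n, (ρ n).rOut = R / ((n : ℝ) + 2) := fun n => rfl
  have hρR : ∀ n, (ρ n).rOut < R := by
    intro n
    rw [hρout, div_lt_iff₀ (by positivity)]
    have : (0 : ℝ) ≤ n := Nat.cast_nonneg n
    nlinarith
  set c : ℕ → ℂ → ℂ := fun n =>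
    indicator (closedBall z0 (2 * R)) f ⋆[LL, volume] ((ρ n).normed volume) with hc
  have hcd : ∀ n, DifferentiableOn ℂ (c n) (ball z0 R) := fun n z hz =>
    (mollify_diff hweak hsub hint (ρ n) (hρR n) hz).differentiableWithinAt
  have hunif : TendstoUniformlyOn c f atTop (ball z0 R) := by
    have huc : UniformContinuousOn f (closedBall z0 (2 * R)) :=
      (isCompact_closedBall _ _).uniformContinuousOn_of_continuous hfc
    rw [Metric.uniformContinuousOn_iff_le] at huc
    rw [Metric.tendstoUniformlyOn_iff]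
    intro ε hε
    obtain ⟨η, hη, hη'⟩ := huc (ε / 2) (by positivity)
    have hlim : Tendsto (fun n : ℕ => R / ((n : ℝ) + 2)) atTop (𝓝 0) := by
      apply Tendsto.div_atTop tendsto_const_nhds
      exact tendsto_atTop_add_const_right _ _ tendsto_natCast_atTop_atTop
    filter_upwards [hlim.eventually_lt_const hη] with n hn
    intro z hz
    have hzR : z ∈ closedBall z0 (2 * R) := by
      rw [mem_ball] at hz; rw [mem_closedBall]; linarith
    have hFz : indicator (closedBall z0 (2 * R)) f z = f z := indicator_of_mem hzR f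
    have h1 : c n z = (((ρ n).normed volume) ⋆[ContinuousLinearMap.lsmul ℝ ℝ, volume]
        indicator (closedBall z0 (2 * R)) f) z := by
      simp only [hc]
      rw [convolution_flip]
    have h2 := (ρ n).dist_normed_convolution_le (μ := volume) (x₀ := z)
      (g := indicator (closedBall z0 (2 * R)) f) (ε := ε / 2) hint.aestronglyMeasurable (by
        intro x hx
        rw [mem_ball] at hx
        have hxR : x ∈ closedBall z0 (2 * R) := by
          rw [mem_closedBall]
          rw [mem_ball] at hz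
          have := hρR n
          calc dist x z0 ≤ dist x z + dist z z0 := dist_triangle _ _ _
            _ ≤ 2 * R := by linarith
        rw [indicator_of_mem hxR, indicator_of_mem hzR]
        apply hη' x hxR z hzR
        rw [hρout] at hx
        linarith)
    rw [h1, dist_comm]
    rw [hFz] at h2
    linarith
  have hdiff : DifferentiableOn ℂ f (ball z0 R) :=
    hunif.tendstoLocallyUniformlyOn.differentiableOn (Eventually.of_forall hcd) isOpen_ball
  exact hdiff.differentiableAt (isOpen_ball.mem_nhds (mem_ball_self hR))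

end Pool.Agent.Blowup
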